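import Pool.Agent.MP_92c74b_an.Cv.St

section
set_option autoImplicit false

namespace Pool.Agent.MP_92c74b_an.Cv

open MeasureTheory Filter Topology Metric Function
open scoped ContDiff

theorem scale_Mom {n : ℕ} {h : ℝ} (hh : 0 < h) (j : ℕ) :
    ∫ z : E n, Kr h z * ‖z‖ ^ j = h ^ j * ∫ z : E n, Kr 1 z * ‖z‖ ^ j := by
  have h1 := Measure.integral_comp_inv_smul (volume : Measure (E n))
    (fun z : E n => Kr 1 z * ‖z‖ ^ j) h
  simp only [finrank_euclideanSpace_fin, abs_of_pos (pow_pos hh n), smul_eq_mul] at h1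
  have hz := (Zc_pos (n := n) one_pos).ne'
  have h2 : ∀ z : E n, Kr h z * ‖z‖ ^ j =
      h ^ j / h ^ n * (Kr 1 (h⁻¹ • z) * ‖h⁻¹ • z‖ ^ j) := by
    intro z
    simp only [Kr, norm_smul, norm_inv, Real.norm_of_nonneg hh.le, Zc_scale (n := n) hh, mul_pow,
      inv_pow]
    rw [show -(h⁻¹ * ‖z‖) / 1 = -‖z‖ / h by field_simp]
    field_simp
  simp only [h2]
  rw [integral_const_mul, h1]
  field_simp

theorem int_Mom {n : ℕ} {h : ℝ} (hh : 0 < h) (v : E n) :
    Integrable (fun z : E n => Kr h z * inner ℝ v z ^ 2) := by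
  refine ((Kr_int_pow hh 2).const_mul (‖v‖ ^ 2)).mono' ?_ (Eventually.of_forall fun z => ?_)
  · exact ((Kr_cont h).mul (by fun_prop)).aestronglyMeasurable
  · have h1 : inner ℝ v z ^ 2 ≤ (‖v‖ * ‖z‖) ^ 2 := sq_le_sq' (by
      have := neg_abs_le (inner ℝ v z)
      have := abs_real_inner_le_norm v z
      linarith) (real_inner_le_norm v z)
    rw [Real.norm_of_nonneg (mul_nonneg (Kr_pos hh z).le (sq_nonneg _))]
    have := mul_le_mul_of_nonneg_left h1 (Kr_pos hh z).le
    rw [mul_pow] at this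
    linarith

theorem iso_Mom {n : ℕ} (h : ℝ) {v w : E n} (hvw : ‖v‖ = ‖w‖) :
    ∫ z : E n, Kr h z * inner ℝ v z ^ 2 = ∫ z : E n, Kr h z * inner ℝ w z ^ 2 := by
  obtain ⟨f, hf⟩ : ∃ f : E n ≃ₗᵢ[ℝ] E n, f v = w := ⟨_, Submodule.reflection_sub hvw⟩
  rw [← f.measurePreserving.integral_comp f.toHomeomorph.measurableEmbedding
    (fun z : E n => Kr h z * inner ℝ w z ^ 2)]
  refine integral_congr_ae (Eventually.of_forall fun z => ?_)
  simp only [Kr, ← hf, LinearIsometryEquiv.norm_map, LinearIsometryEquiv.inner_map_map]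

theorem mom_pf {n : ℕ} (hn : 0 < n) : S_Mom n := by
  have hn' : (0 : ℝ) < n := Nat.cast_pos.2 hn
  have h2 : ∀ h : ℝ, 0 < h → ∫ z : E n, Kr h z * ‖z‖ ^ 2 = n * sg n * h ^ 2 := by
    intro h hh
    rw [scale_Mom hh, sg]
    field_simp
  refine ⟨∫ z : E n, Kr 1 z * ‖z‖ ^ 4, div_pos ?_ hn',
    integral_nonneg fun z => mul_nonneg (Kr_pos one_pos z).le (by positivity),
    fun h hh => ⟨fun L => ?_, h2 h hh, by rw [scale_Mom hh, mul_comm]⟩⟩
  · refine integral_pos_of_integrable_nonneg_nonzero (x := EuclideanSpace.single ⟨0, hn⟩ (1 : ℝ))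
      ((Kr_cont 1).mul (by fun_prop)) (Kr_int_pow one_pos 2)
      (fun z => mul_nonneg (Kr_pos one_pos z).le (by positivity)) ?_
    simp [(Kr_pos one_pos _).ne']
  · obtain ⟨v, hv, hL⟩ : ∃ v : E n, ‖v‖ = ‖L‖ ∧ ∀ z, L z = inner ℝ v z :=
      ⟨(InnerProductSpace.toDual ℝ (E n)).symm L, LinearIsometryEquiv.norm_map _ _, fun z =>
        InnerProductSpace.toDual_symm_apply.symm⟩
    have h3 : ∀ i : Fin n, ∫ z : E n, Kr h z * inner ℝ v z ^ 2 =
        ∫ z : E n, Kr h z * inner ℝ (EuclideanSpace.single i ‖v‖ : E n) z ^ 2 :=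
      fun i => iso_Mom h (by simp)
    have h4 : ∑ i : Fin n, ∫ z : E n, Kr h z * inner ℝ (EuclideanSpace.single i ‖v‖ : E n) z ^ 2 =
        ‖v‖ ^ 2 * ∫ z : E n, Kr h z * ‖z‖ ^ 2 := by
      rw [← integral_finsetSum _ fun i _ => int_Mom hh _, ← integral_const_mul]
      refine integral_congr_ae (Eventually.of_forall fun z => ?_)
      simp only [EuclideanSpace.inner_single_left, conj_trivial, EuclideanSpace.norm_sq_eq z,
        Real.norm_eq_abs, sq_abs, Finset.mul_sum]
      exact Finset.sum_congr rfl fun i _ => by ring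
    simp only [← h3, Finset.sum_const, Finset.card_univ, Fintype.card_fin, nsmul_eq_mul,
      h2 h hh] at h4
    simp only [hL, ← hv]
    refine mul_left_cancel₀ hn'.ne' ?_
    rw [h4]; ring

end Pool.Agent.MP_92c74b_an.Cv

end

section
set_option autoImplicit false

namespace Pool.Agent.MP_92c74b_an.Cv

open MeasureTheory Filter Topology Metric Function
open scoped ContDiff

theorem pt_Cmp {n : ℕ} {u : E n → ℝ} (h1 : ContDiff ℝ ∞ u) (z y : E n) :
    (u (z + y) - u y) ^ 2 ≤ ∫ t in Set.Ioc (0 : ℝ) 1, fderiv ℝ u (y + t • z) z ^ 2 := by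
  have hc : Continuous fun t : ℝ => fderiv ℝ u (y + t • z) z :=
    ((h1.continuous_fderiv (by simp)).comp (by fun_prop)).clm_apply continuous_const
  have hd : ∀ t : ℝ, HasDerivAt (fun t : ℝ => u (y + t • z)) (fderiv ℝ u (y + t • z) z) t :=
    fun t => by
      have a : HasDerivAt (fun t : ℝ => y + t • z) z t := by
        simpa using ((hasDerivAt_id t).smul_const z).const_add y
      exact (h1.differentiable (by simp) _).hasFDerivAt.comp_hasDerivAt t a
  have e := intervalIntegral.integral_eq_sub_of_hasDerivAt (a := 0) (b := 1) (fun t _ => hd t)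
    (hc.intervalIntegrable _ _)
  simp only [one_smul, zero_smul, add_zero, add_comm y z] at e
  rw [← intervalIntegral.integral_of_le zero_le_one]
  generalize u (z + y) - u y = m at e
  have i1 := (hc.intervalIntegrable (μ := volume) 0 1).const_mul (2 * m)
  have i2 : IntervalIntegrable (fun _ : ℝ => m ^ 2) volume 0 1 := intervalIntegrable_const
  have k := intervalIntegral.integral_mono_on zero_le_one (i1.sub i2)
    ((hc.pow 2).intervalIntegrable 0 1) fun t _ => by
      have := sq_nonneg (fderiv ℝ u (y + t • z) z - m)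
      simp only [Pi.pow_apply]
      nlinarith
  rw [intervalIntegral.integral_sub i1 i2, intervalIntegral.integral_const_mul, e] at k
  simp only [intervalIntegral.integral_const, sub_zero, one_smul, Pi.pow_apply] at k
  linarith

theorem sh_Cmp {n : ℕ} {u : E n → ℝ} (h1 : ContDiff ℝ ∞ u) (h2 : HasCompactSupport u) (z : E n) :
    N2 (fun y => u (z + y) - u y) ≤ ∫ y, fderiv ℝ u y z ^ 2 := by
  have hc : Continuous fun y => fderiv ℝ u y z ^ 2 :=
    ((h1.continuous_fderiv (by simp)).clm_apply continuous_const).pow 2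
  have hi : Integrable fun y => fderiv ℝ u y z ^ 2 := hc.integrable_of_hasCompactSupport
    ((h2.fderiv ℝ).comp_left (g := fun L : E n →L[ℝ] ℝ => L z ^ 2) (by simp))
  have hF : Integrable (uncurry fun (t : ℝ) (y : E n) => fderiv ℝ u (y + t • z) z ^ 2)
      ((volume.restrict (Set.Ioc (0 : ℝ) 1)).prod volume) := by
    refine (integrable_prod_iff (hc.comp (f := fun p : ℝ × E n => p.2 + p.1 • z)
      (by fun_prop)).aestronglyMeasurable).2
      ⟨Eventually.of_forall fun t => hi.comp_add_right (t • z), ?_⟩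
    have e : ∀ t : ℝ, ∫ y, ‖fderiv ℝ u (y + t • z) z ^ 2‖ = ∫ y, ‖fderiv ℝ u y z ^ 2‖ := fun t =>
      integral_add_right_eq_self (fun y => ‖fderiv ℝ u y z ^ 2‖) (t • z)
    simp only [Function.comp, e]
    exact integrable_const _
  have e2 : ∀ t : ℝ, ∫ y, fderiv ℝ u (y + t • z) z ^ 2 = ∫ y, fderiv ℝ u y z ^ 2 := fun t =>
    integral_add_right_eq_self (fun y => fderiv ℝ u y z ^ 2) (t • z)
  refine (integral_mono_of_nonneg (Eventually.of_forall fun y => sq_nonneg _)
    hF.integral_prod_right (Eventually.of_forall fun y => pt_Cmp h1 z y)).trans_eq ?_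
  refine (integral_integral_swap hF).symm.trans ?_
  simp [e2]

theorem cmp_pf {n : ℕ} {τ : ℝ} (hM : Mom n τ) : S_Cmp n := by
  intro h hh u h1 h2
  have hc := h1.continuous_fderiv (by simp)
  have hF : Integrable (uncurry fun z y : E n => Kr h z * fderiv ℝ u y z ^ 2)
      (volume.prod volume) := by
    refine ((Kr_int_pow hh 2).mul_prod (int_Q h1 h2)).mono' (((Kr_cont h).comp continuous_fst).mul
      (((hc.comp continuous_snd).clm_apply continuous_fst).pow 2)).aestronglyMeasurable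
      (Eventually.of_forall fun p => ?_)
    have a := Kr_pos hh p.1
    have b : fderiv ℝ u p.2 p.1 ^ 2 ≤ ‖p.1‖ ^ 2 * ‖fderiv ℝ u p.2‖ ^ 2 := by
      rw [← mul_pow, ← sq_abs, mul_comm]
      exact pow_le_pow_left₀ (abs_nonneg _) ((fderiv ℝ u p.2).le_opNorm p.1) 2
    change ‖Kr h p.1 * fderiv ℝ u p.2 p.1 ^ 2‖ ≤ _
    rw [Real.norm_of_nonneg (by positivity), mul_assoc]
    exact mul_le_mul_of_nonneg_left b a.le
  rw [Df_shift hh (adm_of_cont h1.continuous h2)]
  refine (integral_mono_of_nonneg (Eventually.of_forall fun z =>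
    mul_nonneg (Kr_pos hh z).le (N2_nonneg _)) hF.integral_prod_left
    (Eventually.of_forall fun z => ?_)).trans_eq ?_
  · exact (mul_le_mul_of_nonneg_left (sh_Cmp h1 h2 z) (Kr_pos hh z).le).trans_eq
      (integral_const_mul _ _).symm
  · refine (integral_integral_swap hF).trans ?_
    simp only [(hM.2.2 h hh).1]
    exact integral_const_mul _ _

end Pool.Agent.MP_92c74b_an.Cv

end

section
set_option autoImplicit false

namespace Pool.Agent.MP_92c74b_an.Cv

open MeasureTheory Filter Topology Metric Function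
open scoped ContDiff

theorem lint_PL {n : ℕ} {f : E n → ℝ} (hm : Measurable f) (h0 : ∀ x, 0 ≤ f x)
    (hi : Integrable f) :
    ∫⁻ x : Fin n → ℝ, ENNReal.ofReal (f (WithLp.toLp 2 x)) = ENNReal.ofReal (∫ x, f x) := by
  rw [ofReal_integral_eq_lintegral_ofReal hi (Eventually.of_forall h0)]
  exact (PiLp.volume_preserving_toLp (Fin n)).lintegral_comp hm.ennreal_ofReal

theorem pl_pf {n : ℕ} : S_PL n := by
  intro t t0 t1 f g k mf mg mk f0 g0 k0 jf jg jk H
  have t2 : 0 < 1 - t := by linarith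
  have mt : Measurable (WithLp.toLp 2 : (Fin n → ℝ) → E n) :=
    (PiLp.volume_preserving_toLp (Fin n)).measurable
  have key := Pool.Agent.MP_5f4cdd_gt.PL.pl t2 t0 (by ring) n
    (f := fun x => ENNReal.ofReal (f (WithLp.toLp 2 x)))
    (g := fun x => ENNReal.ofReal (g (WithLp.toLp 2 x)))
    (h := fun x => ENNReal.ofReal (k (WithLp.toLp 2 x)))
    (mf.comp mt).ennreal_ofReal (mg.comp mt).ennreal_ofReal (mk.comp mt).ennreal_ofReal
    fun x y => by
      rw [ENNReal.ofReal_rpow_of_nonneg (f0 _) t2.le, ENNReal.ofReal_rpow_of_nonneg (g0 _) t0.le,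
        ← ENNReal.ofReal_mul (Real.rpow_nonneg (f0 _) _)]
      exact ENNReal.ofReal_le_ofReal (H _ _)
  rw [lint_PL mf f0 jf, lint_PL mg g0 jg, lint_PL mk k0 jk,
    ENNReal.ofReal_rpow_of_nonneg (integral_nonneg f0) t2.le,
    ENNReal.ofReal_rpow_of_nonneg (integral_nonneg g0) t0.le,
    ← ENNReal.ofReal_mul (Real.rpow_nonneg (integral_nonneg f0) _)] at key
  exact (ENNReal.ofReal_le_ofReal_iff (integral_nonneg k0)).1 key

theorem sch_pf {n : ℕ} {τ : ℝ} (hM : Mom n τ) : S_Sch n := by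
  intro h hh u hu
  have hg := Kr_int_pow (n := n) hh 2
  have h1 := pair_int1 hg hu.int_sq
  have h2 := pair_int2 hg hu.int_sq
  have h3 : Integrable (fun p : E n × E n => (Kr h (p.1 - p.2) * ‖p.1 - p.2‖ ^ 2 * u p.1 ^ 2 +
      Kr h (p.1 - p.2) * ‖p.1 - p.2‖ ^ 2 * u p.2 ^ 2) / 2) := (h1.add h2).div_const 2
  have hk : ∀ p : E n × E n, 0 ≤ Kr h (p.1 - p.2) * ‖p.1 - p.2‖ ^ 2 := fun p =>
    mul_nonneg (Kr_pos hh _).le (sq_nonneg _)
  have hb : ∀ p : E n × E n, Kr h (p.1 - p.2) * ‖p.1 - p.2‖ ^ 2 * (|u p.1| * |u p.2|) ≤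
      (Kr h (p.1 - p.2) * ‖p.1 - p.2‖ ^ 2 * u p.1 ^ 2 +
        Kr h (p.1 - p.2) * ‖p.1 - p.2‖ ^ 2 * u p.2 ^ 2) / 2 := fun p => by
    have e : |u p.1| * |u p.2| ≤ (u p.1 ^ 2 + u p.2 ^ 2) / 2 := by
      nlinarith [sq_nonneg (|u p.1| - |u p.2|), sq_abs (u p.1), sq_abs (u p.2)]
    have := mul_le_mul_of_nonneg_left e (hk p)
    linarith
  have m1 := hu.1
  have m2 := Kr_meas (n := n) h
  have hi : Integrable (fun p : E n × E n =>
      Kr h (p.1 - p.2) * ‖p.1 - p.2‖ ^ 2 * (|u p.1| * |u p.2|)) := by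
    refine h3.mono' (Measurable.aestronglyMeasurable (by fun_prop))
      (Eventually.of_forall fun p => ?_)
    rw [Real.norm_of_nonneg (mul_nonneg (hk p) (by positivity))]
    exact hb p
  refine ⟨hi, (integral_mono hi h3 hb).trans (le_of_eq ?_)⟩
  rw [integral_div, integral_add h1 h2, pair_integral1 hg hu.int_sq, pair_integral2 hg hu.int_sq,
    (hM.2.2 h hh).2.1, N2]
  ring

end Pool.Agent.MP_92c74b_an.Cv

end

section
set_option autoImplicit false

namespace Pool.Agent.MP_92c74b_an.Cv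

open MeasureTheory Filter Topology Metric Function
open scoped ContDiff

theorem clamp_Two (a b : ℝ) : |max 0 (min 1 a) - max 0 (min 1 b)| ≤ |a - b| := by
  have h1 := le_abs_self (a - b)
  have h2 := neg_abs_le (a - b)
  have h3 := abs_nonneg (a - b)
  rw [abs_le]
  simp only [max_def, min_def]
  constructor <;> split_ifs <;> linarith

theorem pt_Two (a b s t D : ℝ) (hD : (a - b) ^ 2 ≤ D) :
    (Real.cos a * s - Real.cos b * t) ^ 2 + (Real.sin a * s - Real.sin b * t) ^ 2 ≤
      (s - t) ^ 2 + D * (|s| * |t|) := by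
  have h1 := Real.cos_sq_add_sin_sq a
  have h2 := Real.cos_sq_add_sin_sq b
  have h3 := Real.cos_sub a b
  have h4 := Real.one_sub_sq_div_two_le_cos (x := a - b)
  have h5 := Real.cos_le_one (a - b)
  have e : (Real.cos a * s - Real.cos b * t) ^ 2 + (Real.sin a * s - Real.sin b * t) ^ 2 =
      (s - t) ^ 2 + (2 - 2 * Real.cos (a - b)) * (s * t) := by
    rw [h3]
    linear_combination s ^ 2 * h1 + t ^ 2 * h2
  rw [e, ← abs_mul]
  have h6 : (2 - 2 * Real.cos (a - b)) * (s * t) ≤ (2 - 2 * Real.cos (a - b)) * |s * t| :=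
    mul_le_mul_of_nonneg_left (le_abs_self _) (by linarith)
  have h7 : (2 - 2 * Real.cos (a - b)) * |s * t| ≤ D * |s * t| :=
    mul_le_mul_of_nonneg_right (by linarith) (abs_nonneg _)
  linarith

theorem two_pf {n : ℕ} (h1 : S_Sch n) : S_Two n := by
  intro f R r hf hlip hr
  set th : E n → ℝ := fun x => Real.pi / 2 * max 0 (min 1 ((f x - R) / r)) with hth
  have tc : Continuous th := by rw [hth]; fun_prop
  have m0 : Measurable fun x => Real.cos (th x) := (Real.continuous_cos.comp tc).measurable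
  have m1 : Measurable fun x => Real.sin (th x) := (Real.continuous_sin.comp tc).measurable
  have lip : ∀ x y : E n, (th x - th y) ^ 2 ≤ 4 / r ^ 2 * ‖x - y‖ ^ 2 := by
    intro x y
    have a1 := clamp_Two ((f x - R) / r) ((f y - R) / r)
    have a2 : |(f x - R) / r - (f y - R) / r| ≤ ‖x - y‖ / r := by
      rw [← sub_div, abs_div, abs_of_pos hr, sub_sub_sub_cancel_right]
      exact div_le_div_of_nonneg_right (hlip x y) hr.le
    have a3 : |th x - th y| ≤ 2 * (‖x - y‖ / r) := by
      simp only [hth]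
      rw [← mul_sub, abs_mul, abs_of_pos (by positivity : 0 < Real.pi / 2)]
      exact mul_le_mul (by linarith [Real.pi_le_four]) (a1.trans a2) (abs_nonneg _) (by norm_num)
    calc (th x - th y) ^ 2 = |th x - th y| ^ 2 := (sq_abs _).symm
      _ ≤ (2 * (‖x - y‖ / r)) ^ 2 := pow_le_pow_left₀ (abs_nonneg _) a3 2
      _ = _ := by ring
  refine ⟨fun x => Real.cos (th x), fun x => Real.sin (th x), m0, m1,
    fun x => Real.abs_cos_le_one _, fun x => Real.abs_sin_le_one _,
    fun x => Real.cos_sq_add_sin_sq _, fun x hx => ?_, fun x hx => ?_, fun h hh u hu => ?_⟩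
  · by_contra hn
    rw [not_lt] at hn
    have : 1 ≤ (f x - R) / r := by rw [le_div_iff₀ hr]; linarith
    refine hx ?_
    simp only [hth]
    rw [min_eq_left this, max_eq_right zero_le_one, mul_one, Real.cos_pi_div_two]
  · by_contra hn
    rw [not_le] at hn
    have : (f x - R) / r ≤ 0 := div_nonpos_of_nonpos_of_nonneg (by linarith) hr.le
    refine hx ?_
    simp only [hth]
    rw [max_eq_left ((min_le_right _ _).trans this), mul_zero, Real.sin_zero]
  · obtain ⟨i3, b3⟩ := h1 h hh u hu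
    have i0 := Df_int hh (hu.mul m0 ⟨1, fun x => Real.abs_cos_le_one _⟩)
    have i1 := Df_int hh (hu.mul m1 ⟨1, fun x => Real.abs_sin_le_one _⟩)
    have i2 := Df_int hh hu
    have i4 := i3.const_mul (4 / r ^ 2)
    have key : Df h (fun x => Real.cos (th x) * u x) + Df h (fun x => Real.sin (th x) * u x) ≤
        Df h u + 4 / r ^ 2 *
          ∫ p : E n × E n, Kr h (p.1 - p.2) * ‖p.1 - p.2‖ ^ 2 * (|u p.1| * |u p.2|) := by
      unfold Df
      rw [← integral_add i0 i1, ← integral_const_mul, ← integral_add i2 i4]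
      refine integral_mono (i0.add i1) (i2.add i4) fun p => ?_
      have := mul_le_mul_of_nonneg_left (pt_Two (th p.1) (th p.2) (u p.1) (u p.2) _ (lip p.1 p.2))
        (Kr_pos hh (p.1 - p.2)).le
      simp only
      linarith
    have b4 := mul_le_mul_of_nonneg_left b3 (by positivity : 0 ≤ 4 / r ^ 2)
    have e : 4 / r ^ 2 * (n * sg n * h ^ 2 * N2 u) = 4 * n * (sg n * h ^ 2) / r ^ 2 * N2 u := by
      ring
    linarith

end Pool.Agent.MP_92c74b_an.Cv

end

section
set_option autoImplicit false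

namespace Pool.Agent.MP_92c74b_an.Cv

open MeasureTheory Filter Topology Metric Function
open scoped ContDiff

theorem vol_Chi {n : ℕ} (x : E n) {s : ℝ} (hs : 0 < s) :
    volume.real (ball x s) = s ^ n * volume.real (ball (0 : E n) 1) := by
  rw [Measure.real, Measure.addHaar_ball_of_pos _ _ hs, ENNReal.toReal_mul,
    ENNReal.toReal_ofReal (by positivity), finrank_euclideanSpace_fin, Measure.real]

theorem ind_Chi {n : ℕ} (x : E n) (s a : ℝ) : Integrable ((ball x s).indicator fun _ => a) :=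
  (integrableOn_const measure_ball_lt_top.ne).integrable_indicator measurableSet_ball

theorem chi_pf {n : ℕ} : S_Chi n := by
  refine ⟨8 * 2 ^ n, by positivity, fun r hr => ?_⟩
  obtain ⟨g, hg⟩ : ∃ g : E n → ℝ, g = fun x => max (r - ‖x‖) 0 := ⟨_, rfl⟩
  have h0 : ∀ x, x ∉ ball (0 : E n) r → g x = 0 := fun x hx => by
    rw [mem_ball_zero_iff, not_lt] at hx
    rw [hg]
    exact max_eq_right (by linarith)
  have hs : support g ⊆ ball 0 r := fun x hx => by_contra fun h => hx (h0 x h)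
  have hA : Adm g := by
    refine ⟨by rw [hg]; fun_prop, ⟨r, fun x => ?_⟩, isBounded_ball.subset hs⟩
    rw [hg, abs_of_nonneg (le_max_right _ _)]
    exact max_le (by linarith [norm_nonneg x]) hr.le
  have hL : ∀ u v, (g u - g v) ^ 2 ≤ ‖u - v‖ ^ 2 := fun u v => by
    rw [← sq_abs]
    refine pow_le_pow_left₀ (abs_nonneg _) ?_ 2
    rw [hg]
    refine (abs_max_sub_max_le_abs _ _ _).trans ?_
    rw [sub_sub_sub_cancel_left, abs_sub_comm]
    exact abs_norm_sub_norm_le u v
  have hV : 0 < volume.real (ball (0 : E n) 1) :=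
    ENNReal.toReal_pos (measure_ball_pos _ _ one_pos).ne' measure_ball_lt_top.ne
  have hN : (r / 2) ^ n * volume.real (ball (0 : E n) 1) * (r / 2) ^ 2 ≤ N2 g := by
    rw [← vol_Chi (0 : E n) (half_pos hr), ← smul_eq_mul,
      ← integral_indicator_const _ measurableSet_ball]
    refine integral_mono (ind_Chi _ _ _) hA.int_sq fun x => ?_
    by_cases hx : x ∈ ball (0 : E n) (r / 2)
    · rw [Set.indicator_of_mem hx, hg]
      rw [mem_ball_zero_iff] at hx
      exact pow_le_pow_left₀ (half_pos hr).le (le_max_of_le_left (by linarith)) 2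
    · rw [Set.indicator_of_notMem hx]
      exact sq_nonneg _
  have hP : 0 < N2 g := lt_of_lt_of_le (by positivity) hN
  have hq : (√(N2 g))⁻¹ ^ 2 = (N2 g)⁻¹ := by rw [inv_pow, Real.sq_sqrt hP.le]
  refine ⟨fun x => (√(N2 g))⁻¹ * g x, hA.mul measurable_const ⟨_, fun _ => le_rfl⟩,
    (support_mul_subset_right _ _).trans hs, ?_, fun x y => ?_⟩
  · simp only [N2, mul_pow] at hq hP ⊢
    rw [integral_const_mul, hq, inv_mul_cancel₀ hP.ne']
  have hI : ∫ c, (g (x - c) - g (y - c)) ^ 2 ≤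
      2 * (r ^ n * volume.real (ball (0 : E n) 1) * ‖x - y‖ ^ 2) := by
    have e : ∀ z : E n, r ^ n * volume.real (ball (0 : E n) 1) * ‖x - y‖ ^ 2 =
        ∫ c, (ball z r).indicator (fun _ => ‖x - y‖ ^ 2) c := fun z => by
      rw [integral_indicator_const _ measurableSet_ball, vol_Chi z hr, smul_eq_mul]
    rw [two_mul]
    nth_rewrite 2 [e y]
    rw [e x, ← integral_add (ind_Chi _ _ _) (ind_Chi _ _ _)]
    refine integral_mono_of_nonneg (Eventually.of_forall fun c => sq_nonneg _)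
      ((ind_Chi _ _ _).add (ind_Chi _ _ _)) (Eventually.of_forall fun c => ?_)
    have h1 := hL (x - c) (y - c)
    rw [sub_sub_sub_cancel_right] at h1
    have h2 : ∀ z : E n, c ∉ ball z r → g (z - c) = 0 := fun z hz =>
      h0 _ (by rwa [mem_ball_zero_iff, ← dist_eq_norm, dist_comm, ← mem_ball])
    have h3 := sq_nonneg ‖x - y‖
    by_cases hx : c ∈ ball x r <;> by_cases hy : c ∈ ball y r <;>
      simp only [Set.indicator_of_mem, Set.indicator_of_notMem, hx, hy, not_false_eq_true]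
    · linarith
    · linarith
    · linarith
    · rw [h2 x hx, h2 y hy]
      norm_num
  simp only [← mul_sub, mul_pow]
  rw [integral_const_mul, hq, inv_mul_le_iff₀ hP]
  refine hI.trans (le_trans (le_of_eq ?_) (mul_le_mul_of_nonneg_right hN (by positivity)))
  rw [div_pow]
  field_simp
  ring

end Pool.Agent.MP_92c74b_an.Cv

end

section
set_option autoImplicit false

namespace Pool.Agent.MP_92c74b_an.Cv

open MeasureTheory Filter Topology Metric Function
open scoped ContDiff

theorem int_Loc {n : ℕ} {α : Type} [MeasureSpace α] [SFinite (volume : Measure α)]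
    {G : α → ℝ} (hG : Integrable G) (hGm : Measurable G) {π : α → E n} (hπ : Measurable π)
    {ψ : E n → ℝ} (hψ : Adm ψ) :
    Integrable (fun q : E n × α => G q.2 * ψ (π q.2 - q.1)) (volume.prod volume) := by
  have hm : Measurable (fun q : E n × α => G q.2 * ψ (π q.2 - q.1)) :=
    (hGm.comp measurable_snd).mul (hψ.1.comp ((hπ.comp measurable_snd).sub measurable_fst))
  rw [integrable_prod_iff' hm.aestronglyMeasurable]
  refine ⟨Eventually.of_forall fun p => (hψ.integrable.comp_sub_left (π p)).const_mul (G p), ?_⟩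
  refine (hG.norm.mul_const (∫ z, ‖ψ z‖)).congr (Eventually.of_forall fun p => ?_)
  simp only [norm_mul]
  rw [integral_const_mul, integral_sub_left_eq_self (fun z => ‖ψ z‖) volume (π p)]

theorem k_Loc {n : ℕ} {χ : E n → ℝ} (hχ : Adm χ) (h1 : N2 χ = 1) (x y : E n) :
    ∫ c, χ (x - c) * χ (y - c) = 1 - 1 / 2 * ∫ c, (χ (x - c) - χ (y - c)) ^ 2 := by
  have i1 := hχ.int_sq.comp_sub_left x
  have i2 := hχ.int_sq.comp_sub_left y
  obtain ⟨B, hB⟩ := hχ.2.1
  have i3 : Integrable (fun c => χ (x - c) * χ (y - c)) :=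
    (hχ.integrable.comp_sub_left y).bdd_mul (c := B)
      (hχ.1.comp (measurable_const.sub measurable_id)).aestronglyMeasurable
      (Eventually.of_forall fun c => hB _)
  have i4 : Integrable (fun c => χ (x - c) ^ 2 + χ (y - c) ^ 2) := i1.add i2
  have e : ∫ c, (χ (x - c) - χ (y - c)) ^ 2 =
      ∫ c, (χ (x - c) ^ 2 + χ (y - c) ^ 2) - 2 * (χ (x - c) * χ (y - c)) :=
    integral_congr_ae (Eventually.of_forall fun c => by ring)
  rw [e, integral_sub i4 (i3.const_mul 2), integral_add i1 i2, integral_const_mul,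
    integral_sub_left_eq_self (fun z => χ z ^ 2) volume x,
    integral_sub_left_eq_self (fun z => χ z ^ 2) volume y]
  rw [N2] at h1
  rw [h1]; ring

theorem loc_pf {n : ℕ} (h1 : S_Chi n) (h2 : S_Sch n) : S_Loc n := by
  obtain ⟨C0, hC0, h1⟩ := h1
  refine ⟨C0 * n, by positivity, fun r h hr hh u hu A hA => ?_⟩
  obtain ⟨χ, hχ, hs, hN, hD⟩ := h1 r hr
  obtain ⟨B, hB⟩ := hχ.2.1
  obtain ⟨i0, e0⟩ := h2 h hh u hu
  have hv : ∀ c : E n, Adm (fun x => χ (x - c) * u x) := fun c =>
    hu.mul (hχ.1.comp (measurable_id.sub_const c)) ⟨B, fun x => hB _⟩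
  have key : ∀ c : E n, A * N2 (fun x => χ (x - c) * u x) ≤
      2 * N2 (fun x => χ (x - c) * u x) - 2 * Bf h (fun x => χ (x - c) * u x) := fun c => by
    rw [← Df_eq hh (hv c)]
    refine hA c _ (hv c) fun x hx => ⟨right_ne_zero_of_mul hx, ?_⟩
    have := hs (show x - c ∈ support χ from left_ne_zero_of_mul hx)
    rwa [mem_ball_zero_iff, ← dist_eq_norm] at this
  have χ2 : Adm (fun x => χ x * χ x) := hχ.mul hχ.1 hχ.2.1
  have a1 := int_Loc (n := n) hu.int_sq (hu.1.pow_const 2) measurable_id χ2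
  have eN : ∀ c : E n, N2 (fun x => χ (x - c) * u x) =
      ∫ x, u x ^ 2 * (χ (x - c) * χ (x - c)) := fun c =>
    integral_congr_ae (Eventually.of_forall fun x => by ring)
  have a2 : Integrable (fun c : E n => N2 (fun x => χ (x - c) * u x)) := by
    simp only [eN]
    exact a1.integral_prod_left
  have a3 : ∫ c : E n, N2 (fun x => χ (x - c) * u x) = N2 u := by
    simp only [eN]
    rw [integral_integral_swap a1]
    refine integral_congr_ae (Eventually.of_forall fun x => ?_)
    simp only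
    rw [integral_const_mul, integral_sub_left_eq_self (fun z => χ z * χ z) volume x]
    have : ∫ z, χ z * χ z = 1 := by simpa only [N2, sq] using hN
    rw [this, mul_one]
  have Gm : Measurable (fun p : E n × E n => Kr h (p.1 - p.2) * (u p.1 * u p.2)) :=
    ((Kr_meas h).comp (measurable_fst.sub measurable_snd)).mul
      ((hu.1.comp measurable_fst).mul (hu.1.comp measurable_snd))
  have b1 : Integrable (fun q : E n × (E n × E n) => Kr h (q.2.1 - q.2.2) * (u q.2.1 * u q.2.2) *
      (χ (q.2.1 - q.1) * χ (q.2.2 - q.1))) (volume.prod volume) := by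
    have := (int_Loc (n := n) (Bf_int hh hu) Gm measurable_fst hχ).bdd_mul (c := B)
      (f := fun q : E n × (E n × E n) => χ (q.2.2 - q.1))
      (hχ.1.comp ((measurable_snd.comp measurable_snd).sub measurable_fst)).aestronglyMeasurable
      (Eventually.of_forall fun q => hB _)
    exact this.congr (Eventually.of_forall fun q => by ring)
  have eB : ∀ c : E n, Bf h (fun x => χ (x - c) * u x) = ∫ p : E n × E n,
      Kr h (p.1 - p.2) * (u p.1 * u p.2) * (χ (p.1 - c) * χ (p.2 - c)) := fun c =>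
    integral_congr_ae (Eventually.of_forall fun x => by ring)
  have b2 : Integrable (fun c : E n => Bf h (fun x => χ (x - c) * u x)) := by
    simp only [eB]
    exact b1.integral_prod_left
  have b3 : Bf h u - C0 / (2 * r ^ 2) * (n * sg n * h ^ 2 * N2 u) ≤
      ∫ c : E n, Bf h (fun x => χ (x - c) * u x) := by
    simp only [eB]
    rw [integral_integral_swap b1]
    refine le_trans ?_ (integral_mono ((Bf_int hh hu).sub (i0.const_mul (C0 / (2 * r ^ 2))))
      b1.integral_prod_right fun p => ?_)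
    · have := integral_sub (Bf_int hh hu) (i0.const_mul (C0 / (2 * r ^ 2)))
      simp only [Pi.sub_apply]
      rw [this, integral_const_mul]
      have := mul_le_mul_of_nonneg_left e0 (show 0 ≤ C0 / (2 * r ^ 2) by positivity)
      unfold Bf
      linarith
    · simp only [Pi.sub_apply]
      rw [integral_const_mul, k_Loc hχ hN]
      have d0 : 0 ≤ ∫ c, (χ (p.1 - c) - χ (p.2 - c)) ^ 2 := integral_nonneg fun _ => sq_nonneg _
      have d1 := hD p.1 p.2
      generalize ∫ c, (χ (p.1 - c) - χ (p.2 - c)) ^ 2 = D at *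
      have k0 := (Kr_pos hh (p.1 - p.2)).le
      have u0 : u p.1 * u p.2 ≤ |u p.1| * |u p.2| := by rw [← abs_mul]; exact le_abs_self _
      have s1 : u p.1 * u p.2 * D ≤ |u p.1| * |u p.2| * (C0 * ‖p.1 - p.2‖ ^ 2 / r ^ 2) :=
        (mul_le_mul_of_nonneg_right u0 d0).trans (mul_le_mul_of_nonneg_left d1 (by positivity))
      have s2 := mul_le_mul_of_nonneg_left s1 k0
      have e : C0 / (2 * r ^ 2) * (Kr h (p.1 - p.2) * ‖p.1 - p.2‖ ^ 2 * (|u p.1| * |u p.2|)) =
          1 / 2 * (Kr h (p.1 - p.2) *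
            (|u p.1| * |u p.2| * (C0 * ‖p.1 - p.2‖ ^ 2 / r ^ 2))) := by
        field_simp
      rw [e]
      linarith
  have m := integral_mono (a2.const_mul A) ((a2.const_mul 2).sub (b2.const_mul 2)) key
  have m2 := integral_sub (a2.const_mul 2) (b2.const_mul 2)
  simp only [Pi.sub_apply] at m
  rw [m2, integral_const_mul, integral_const_mul, integral_const_mul, a3] at m
  rw [Df_eq hh hu]
  have e : (A - C0 * n * (sg n * h ^ 2) / r ^ 2) * N2 u =
      A * N2 u - 2 * (C0 / (2 * r ^ 2) * (n * sg n * h ^ 2 * N2 u)) := by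
    field_simp
  rw [e]
  linarith

end Pool.Agent.MP_92c74b_an.Cv

end

section
set_option autoImplicit false

namespace Pool.Agent.MP_92c74b_an.Cv

open MeasureTheory Filter Topology Metric Function
open scoped ContDiff

theorem cont_Phi {n : ℕ} {h : ℝ} (hh : 0 < h) {φ : E n → ℝ} (h0 : ∀ x, 0 ≤ φ x)
    (h1 : ∀ x, φ x ≤ 1) (hL : LogL h φ) : Continuous φ := by
  refine (LipschitzWith.of_le_add_mul' h⁻¹ fun x y => ?_).continuous
  have a := hL x y
  have b := Real.add_one_le_exp (-‖x - y‖ / h)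
  have c : 0 ≤ ‖x - y‖ / h := by positivity
  have d : h⁻¹ * dist x y = ‖x - y‖ / h := by rw [dist_eq_norm, inv_mul_eq_div]
  rw [neg_div] at a b
  rw [d]
  nlinarith [mul_le_mul_of_nonneg_right b (h0 x), mul_le_mul_of_nonneg_left (h1 x) c]

theorem phi_pf {n : ℕ} : S_Phi n := by
  intro h hh K hK m
  induction m with
  | zero =>
    refine ⟨continuous_const, fun _ => zero_le_one, fun _ => le_rfl, fun _ _ => one_pos,
      fun x y => ?_⟩
    simp only [phi, mul_one]
    exact Real.exp_le_one_iff.2 (div_nonpos_of_nonpos_of_nonneg (by simp) hh.le)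
  | succ m ih =>
    obtain ⟨c, h0, h1, hp, -⟩ := ih
    have hk : ∀ x : E n, Integrable fun y => Kr h (x - y) := fun x => (Kr_int hh).comp_sub_left x
    have hi : ∀ x, Integrable fun y => Kr h (x - y) * phi h K m y := fun x =>
      (hk x).mul_bdd (c := 1) c.aestronglyMeasurable (Eventually.of_forall fun y => by
        rw [Real.norm_of_nonneg (h0 y)]
        exact h1 y)
    have hn : ∀ x y, 0 ≤ Kr h (x - y) * phi h K m y := fun x y =>
      mul_nonneg (Kr_pos hh _).le (h0 y)
    have g0 : ∀ x, 0 ≤ phi h K (m + 1) x := fun x => integral_nonneg (hn x)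
    have g1 : ∀ x, phi h K (m + 1) x ≤ 1 := fun x => by
      refine (setIntegral_le_integral (hi x) (Eventually.of_forall (hn x))).trans ?_
      refine (integral_mono (hi x) (hk x) fun y =>
        mul_le_of_le_one_right (Kr_pos hh _).le (h1 y)).trans_eq ?_
      rw [integral_sub_left_eq_self (Kr h) volume x, Kr_one hh]
    have gL : LogL h (phi h K (m + 1)) := fun x y => by
      simp only [phi]
      rw [← integral_const_mul]
      refine integral_mono ((hi x).integrableOn.const_mul _) (hi y).integrableOn fun w => ?_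
      have := Kr_logL hh (x - w) (y - w)
      rw [sub_sub_sub_cancel_right] at this
      simp only [← mul_assoc]
      exact mul_le_mul_of_nonneg_right this (h0 w)
    refine ⟨cont_Phi hh g0 g1 gL, g0, g1, fun hv x => ?_, gL⟩
    refine (setIntegral_pos_iff_support_of_nonneg_ae (Eventually.of_forall (hn x))
      (hi x).integrableOn).2 ?_
    have : support (fun y => Kr h (x - y) * phi h K m y) = Set.univ :=
      Set.eq_univ_of_forall fun y => (mul_pos (Kr_pos hh _) (hp hv y)).ne'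
    rwa [this, Set.univ_inter]

end Pool.Agent.MP_92c74b_an.Cv

end

section
set_option autoImplicit false

namespace Pool.Agent.MP_92c74b_an.Cv

open MeasureTheory Filter Topology Metric Function
open scoped ContDiff

theorem seq_Birk {X : Type} (K : Set X) (x0 : X) (hx0 : x0 ∈ K) (ph : ℕ → X → ℝ)
    (hpos : ∀ m, 0 < ph m x0) (θ : ℝ) (h0 : 0 ≤ θ) (h1 : θ < 1) (P : ℕ → ℝ × ℝ → Prop)
    (hP : ∀ m p, P m p → ∀ x ∈ K, p.1 * ph m x ≤ ph (m + 1) x ∧ ph (m + 1) x ≤ p.2 * ph m x)
    (hph : ∀ m, ∀ x ∈ K, 0 ≤ ph m x)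
    (hs : ∀ m p, P m p → ∃ q : ℝ × ℝ, p.1 ≤ q.1 ∧ q.2 ≤ p.2 ∧ q.2 - q.1 = θ * (p.2 - p.1) ∧
      P (m + 1) q) (p0 : ℝ × ℝ) (hp0 : 0 < p0.1) (hP0 : P 0 p0) :
    ∃ ρ : ℝ, 0 < ρ ∧ ∀ ε : ℝ, 0 < ε → ∀ᶠ m in atTop, ∀ x ∈ K,
      (1 - ε) * ρ * ph m x ≤ ph (m + 1) x ∧ ph (m + 1) x ≤ (1 + ε) * ρ * ph m x := by
  choose! f hf using hs
  let s : ℕ → ℝ × ℝ := fun m => Nat.rec p0 (fun k p => f k p) m
  have hs : ∀ m, P m (s m) := by
    intro m
    induction m with
    | zero => exact hP0
    | succ m ih => exact (hf m _ ih).2.2.2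
  have hlo : Monotone fun m => (s m).1 := monotone_nat_of_le_succ fun m => (hf m _ (hs m)).1
  have hhi : Antitone fun m => (s m).2 := antitone_nat_of_succ_le fun m => (hf m _ (hs m)).2.1
  have hle : ∀ m, (s m).1 ≤ (s m).2 := fun m =>
    le_of_mul_le_mul_right ((hP m _ (hs m) x0 hx0).1.trans (hP m _ (hs m) x0 hx0).2) (hpos m)
  have hgap : ∀ m, (s m).2 - (s m).1 = θ ^ m * (p0.2 - p0.1) := by
    intro m
    induction m with
    | zero => simp [s]
    | succ m ih =>
      have := (hf m _ (hs m)).2.2.1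
      rw [ih] at this
      rw [pow_succ', mul_assoc]
      exact this
  have hmk : ∀ k m, (s m).1 ≤ (s k).2 := fun k m =>
    (hlo (le_max_left m k)).trans ((hle _).trans (hhi (le_max_right m k)))
  have hb : BddAbove (Set.range fun m => (s m).1) := ⟨(s 0).2, by
    rintro _ ⟨m, rfl⟩
    exact hmk 0 m⟩
  have hρ : 0 < ⨆ m, (s m).1 := hp0.trans_le (le_ciSup hb 0)
  refine ⟨_, hρ, fun ε hε => ?_⟩
  have ht := (tendsto_pow_atTop_nhds_zero_of_lt_one h0 h1).mul_const (p0.2 - p0.1)
  rw [zero_mul] at ht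
  filter_upwards [ht.eventually (gt_mem_nhds (mul_pos hε hρ))] with m hm x hx
  have a1 := le_ciSup hb m
  have a2 := ciSup_le (hmk m)
  rw [← hgap] at hm
  exact ⟨(mul_le_mul_of_nonneg_right (by linarith) (hph m x hx)).trans (hP m _ (hs m) x hx).1,
    (hP m _ (hs m) x hx).2.trans (mul_le_mul_of_nonneg_right (by linarith) (hph m x hx))⟩

theorem int_Birk {n : ℕ} {K : Set (E n)} (hK : Bornology.IsBounded K) {u : E n → ℝ}
    (hu : Continuous u) : IntegrableOn u K :=
  (hu.continuousOn.integrableOn_compact hK.isCompact_closure).mono_set subset_closure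

theorem birk_pf {n : ℕ} (h1 : S_Phi n) : S_Birk n := by
  intro h hh K ⟨hm, hK, hv⟩
  obtain ⟨D, hD⟩ := Metric.isBounded_iff.1 hK
  have hZ : 0 < Zc n h := Zc_pos hh
  obtain ⟨b, hb⟩ : ∃ b, b = 1 / Zc n h := ⟨_, rfl⟩
  obtain ⟨a, ha⟩ : ∃ a, a = Real.exp (-D / h) / Zc n h := ⟨_, rfl⟩
  have hb0 : 0 < b := by rw [hb]; positivity
  have ha0 : 0 < a := by rw [ha]; positivity
  have hka : ∀ x ∈ K, ∀ y ∈ K, a ≤ Kr h (x - y) := by
    intro x hx y hy
    have h2 := hD hx hy
    rw [dist_eq_norm] at h2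
    rw [ha, Kr]
    gcongr
  have hkb : ∀ z : E n, Kr h z ≤ b := fun z => hb ▸ Kr_le hh z
  obtain ⟨x0, hx0⟩ : K.Nonempty := nonempty_of_measure_ne_zero hv.ne'
  have hab : a ≤ b := (hka x0 hx0 x0 hx0).trans (hkb _)
  have hc := fun m => (h1 h hh K hm m).1
  have hn := fun m => (h1 h hh K hm m).2.1
  have hp := fun m => (h1 h hh K hm m).2.2.2.1 hv
  have hkc : ∀ x : E n, Continuous fun y => Kr h (x - y) := fun x =>
    (Kr_cont h).comp (continuous_const.sub continuous_id)
  have key : ∀ (i j : ℕ) (s t : ℝ), (∀ y ∈ K, 0 ≤ s * phi h K i y + t * phi h K j y) →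
      0 ≤ (s * ∫ y in K, phi h K i y) + t * ∫ y in K, phi h K j y ∧ ∀ x ∈ K,
        a * ((s * ∫ y in K, phi h K i y) + t * ∫ y in K, phi h K j y) ≤
          s * phi h K (i + 1) x + t * phi h K (j + 1) x := by
    intro i j s t hst
    have c1 : Continuous fun y => s * phi h K i y := continuous_const.mul (hc i)
    have c2 : Continuous fun y => t * phi h K j y := continuous_const.mul (hc j)
    rw [← integral_const_mul, ← integral_const_mul, ← integral_add (int_Birk hK c1) (int_Birk hK c2)]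
    refine ⟨setIntegral_nonneg hm hst, fun x hx => ?_⟩
    have c3 : Continuous fun y => s * (Kr h (x - y) * phi h K i y) :=
      continuous_const.mul ((hkc x).mul (hc i))
    have c4 : Continuous fun y => t * (Kr h (x - y) * phi h K j y) :=
      continuous_const.mul ((hkc x).mul (hc j))
    rw [phi, phi, ← integral_const_mul, ← integral_const_mul, ← integral_const_mul,
      ← integral_add (int_Birk hK c3) (int_Birk hK c4)]
    refine setIntegral_mono_on (int_Birk hK (continuous_const.mul (c1.add c2)))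
      (int_Birk hK (c3.add c4)) hm fun y hy => ?_
    have := mul_le_mul_of_nonneg_right (hka x hx y hy) (hst y hy)
    linarith
  have up : ∀ m x, phi h K (m + 1) x ≤ b * ∫ y in K, phi h K m y := by
    intro m x
    rw [phi, ← integral_const_mul]
    exact setIntegral_mono_on (int_Birk hK ((hkc x).mul (hc m)))
      (int_Birk hK (continuous_const.mul (hc m))) hm fun y _ =>
        mul_le_mul_of_nonneg_right (hkb _) (hn m y)
  have hI : ∀ m, 0 < ∫ y in K, phi h K m y := fun m =>
    (mul_pos_iff_of_pos_left hb0).1 ((hp (m + 1) x0).trans_le (up m x0))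
  refine seq_Birk K x0 hx0 (phi h K) (fun m => hp m x0) (1 - a / b)
    (sub_nonneg.2 (div_le_one_of_le₀ hab hb0.le)) (sub_lt_self _ (div_pos ha0 hb0))
    (fun m p => ∀ x ∈ K, p.1 * phi h K m x ≤ phi h K (m + 1) x ∧
      phi h K (m + 1) x ≤ p.2 * phi h K m x) (fun _ _ h => h) (fun m x _ => hn m x) ?_
    (a * ∫ y in K, phi h K 0 y, 1) (mul_pos ha0 (hI 0)) ?_
  · rintro m ⟨lo, hi⟩ hP
    obtain ⟨k1, k2⟩ := key (m + 1) m 1 (-lo) fun y hy => by have := (hP y hy).1; linarith
    obtain ⟨k3, k4⟩ := key (m + 1) m (-1) hi fun y hy => by have := (hP y hy).2; linarith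
    have h2 := hI m
    have h3 := up m
    generalize (∫ y in K, phi h K m y) = I at *
    generalize (∫ y in K, phi h K (m + 1) y) = J at *
    have h4 : ∀ c, 0 ≤ c → ∀ x, a * c / (b * I) * phi h K (m + 1) x ≤ a * c := by
      intro c hc0 x
      rw [div_mul_eq_mul_div, div_le_iff₀ (by positivity)]
      exact mul_le_mul_of_nonneg_left (h3 x) (by positivity)
    refine ⟨(lo + a * (1 * J + -lo * I) / (b * I), hi - a * (-1 * J + hi * I) / (b * I)),
      le_add_of_nonneg_right (by positivity), sub_le_self _ (by positivity), ?_, fun x hx => ?_⟩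
    · field_simp
      ring
    · have a1 := h4 _ k1 x
      have a2 := h4 _ k3 x
      have a3 := k2 x hx
      have a4 := k4 x hx
      constructor <;> simp only <;> linarith
  · intro x hx
    have a1 := (key 0 0 1 0 fun y _ => by have := hn 0 y; linarith).2 x hx
    have a2 := (h1 h hh K hm (0 + 1)).2.2.1 x
    have e : phi h K 0 x = 1 := rfl
    rw [e]
    constructor <;> simp only <;> linarith

end Pool.Agent.MP_92c74b_an.Cv

end

section
set_option autoImplicit false

namespace Pool.Agent.MP_92c74b_an.Cv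

open MeasureTheory Filter Topology Metric Function
open scoped ContDiff

theorem ker_LC {n : ℕ} {h t : ℝ} (hh : 0 < h) (h0 : 0 < t) (h1 : t < 1) (a b : E n) :
    Kr h a ^ (1 - t) * Kr h b ^ t ≤ Kr h ((1 - t) • a + t • b) := by
  have hZ : 0 < Zc n h := Zc_pos hh
  unfold Kr
  rw [Real.div_rpow (Real.exp_pos _).le hZ.le, Real.div_rpow (Real.exp_pos _).le hZ.le,
    div_mul_div_comm, ← Real.rpow_add hZ, sub_add_cancel, Real.rpow_one, ← Real.exp_mul,
    ← Real.exp_mul, ← Real.exp_add]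
  refine div_le_div_of_nonneg_right (Real.exp_le_exp.2 ?_) hZ.le
  have h2 : ‖(1 - t) • a + t • b‖ ≤ (1 - t) * ‖a‖ + t * ‖b‖ := by
    refine (norm_add_le _ _).trans_eq ?_
    rw [norm_smul, norm_smul, Real.norm_of_nonneg h0.le, Real.norm_of_nonneg (by linarith)]
  have h3 : -‖a‖ / h * (1 - t) + -‖b‖ / h * t = -((1 - t) * ‖a‖ + t * ‖b‖) / h := by ring
  rw [h3]
  exact div_le_div_of_nonneg_right (neg_le_neg h2) hh.le

theorem ind_LC {n : ℕ} (h2 : S_Phi n) {h : ℝ} (hh : 0 < h) {K : Set (E n)} (hK : MeasurableSet K)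
    (m : ℕ) (x : E n) :
    Measurable (K.indicator fun w => Kr h (x - w) * phi h K m w) ∧
    (∀ w, 0 ≤ K.indicator (fun w => Kr h (x - w) * phi h K m w) w) ∧
    Integrable (K.indicator fun w => Kr h (x - w) * phi h K m w) ∧
    ∫ w, K.indicator (fun w => Kr h (x - w) * phi h K m w) w = phi h K (m + 1) x := by
  obtain ⟨c, p0, p1, -⟩ := h2 h hh K hK m
  have hc : Continuous fun w : E n => Kr h (x - w) * phi h K m w :=
    ((Kr_cont h).comp (continuous_const.sub continuous_id)).mul c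
  refine ⟨hc.measurable.indicator hK,
    fun w => Set.indicator_nonneg (fun w _ => mul_nonneg (Kr_pos hh _).le (p0 w)) w,
    Integrable.indicator ?_ hK, integral_indicator hK⟩
  refine ((Kr_int hh).comp_sub_left x).mono' hc.aestronglyMeasurable
    (Eventually.of_forall fun w => ?_)
  rw [Real.norm_of_nonneg (mul_nonneg (Kr_pos hh _).le (p0 w))]
  exact mul_le_of_le_one_right (Kr_pos hh _).le (p1 w)

theorem lc_pf {n : ℕ} (h1 : S_PL n) (h2 : S_Phi n) : S_LC n := by
  intro h hh K0 K1 K2 m0 m1 m2 t t0 t1 hK m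
  induction m with
  | zero =>
    intro x y
    simp [phi]
  | succ m ih =>
    intro x y
    obtain ⟨a1, a2, a3, a4⟩ := ind_LC h2 hh m0 m x
    obtain ⟨b1, b2, b3, b4⟩ := ind_LC h2 hh m1 m y
    obtain ⟨c1, c2, c3, c4⟩ := ind_LC h2 hh m2 m ((1 - t) • x + t • y)
    rw [← a4, ← b4, ← c4]
    refine h1 t t0 t1 _ _ _ a1 b1 c1 a2 b2 c2 a3 b3 c3 fun v w => ?_
    by_cases hv : v ∈ K0
    · by_cases hw : w ∈ K1
      · have p0 := (h2 h hh K0 m0 m).2.1 v
        have p1 := (h2 h hh K1 m1 m).2.1 w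
        rw [Set.indicator_of_mem hv, Set.indicator_of_mem hw, Set.indicator_of_mem (hK v hv w hw),
          Real.mul_rpow (Kr_pos hh _).le p0, Real.mul_rpow (Kr_pos hh _).le p1, mul_mul_mul_comm]
        have e : (1 - t) • x + t • y - ((1 - t) • v + t • w) =
            (1 - t) • (x - v) + t • (y - w) := by
          rw [smul_sub, smul_sub]
          abel
        rw [e]
        exact mul_le_mul (ker_LC hh t0 t1 _ _) (ih v w)
          (mul_nonneg (Real.rpow_nonneg p0 _) (Real.rpow_nonneg p1 _)) (Kr_pos hh _).le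
      · rw [Set.indicator_of_notMem hw, Real.zero_rpow t0.ne', mul_zero]
        exact c2 _
    · rw [Set.indicator_of_notMem hv, Real.zero_rpow (by linarith), zero_mul]
      exact c2 _

end Pool.Agent.MP_92c74b_an.Cv

end

section
set_option autoImplicit false

namespace Pool.Agent.MP_92c74b_an.Cv

open MeasureTheory Filter Topology Metric Function
open scoped ContDiff

/-- a sequence which grows at rate `α` is not dominated by one which grows at a smaller rate -/
theorem grow_BM (a b : ℕ → ℝ) {α β : ℝ} (hβ : 0 < β) (hα : β < α) (m0 : ℕ) (h0 : 0 < a m0)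
    (ha : ∀ m, m0 ≤ m → α * a m ≤ a (m + 1)) (hb : ∀ m, m0 ≤ m → b (m + 1) ≤ β * b m)
    (hab : ∀ m, a m ≤ b m) : False := by
  have hα0 : 0 < α := hβ.trans hα
  have hb0 : 0 < b m0 := h0.trans_le (hab m0)
  have key : ∀ j : ℕ, α ^ j * a m0 ≤ a (m0 + j) ∧ b (m0 + j) ≤ β ^ j * b m0 := by
    intro j
    induction j with
    | zero => simp
    | succ j ih =>
      have e1 := mul_le_mul_of_nonneg_left ih.1 hα0.le
      have e2 := mul_le_mul_of_nonneg_left ih.2 hβ.le
      have e3 := ha (m0 + j) (Nat.le_add_right _ _)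
      have e4 := hb (m0 + j) (Nat.le_add_right _ _)
      rw [pow_succ', pow_succ', mul_assoc, mul_assoc, ← add_assoc]
      exact ⟨e1.trans e3, e4.trans e2⟩
  obtain ⟨j, hj⟩ := exists_pow_lt_of_lt_one (div_pos h0 hb0) ((div_lt_one hα0).2 hα)
  rw [div_pow, div_lt_div_iff₀ (pow_pos hα0 j) hb0] at hj
  have := ((key j).1.trans (hab _)).trans (key j).2
  linarith

theorem bm_pf {n : ℕ} (h1 : S_Phi n) (h2 : S_LC n) : S_BM n := by
  intro h hh K0 K1 K2 f0 f1 f2 t ht ht1 hK ρ0 ρ1 ρ2 r0 r1 r2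
  obtain ⟨x, hx⟩ := nonempty_of_measure_ne_zero f0.2.2.ne'
  obtain ⟨y, hy⟩ := nonempty_of_measure_ne_zero f1.2.2.ne'
  have p0 : ∀ m, 0 < phi h K0 m x := fun m => (h1 h hh K0 f0.1 m).2.2.2.1 f0.2.2 x
  have p1 : ∀ m, 0 < phi h K1 m y := fun m => (h1 h hh K1 f1.1 m).2.2.2.1 f1.2.2 y
  have q0 := r0.1
  have q1 := r1.1
  have q2 := r2.1
  have ht' : 0 < 1 - t := by linarith
  by_contra hlt
  obtain ⟨g, hg⟩ : ∃ g, g = ρ0 ^ (1 - t) * ρ1 ^ t := ⟨_, rfl⟩
  rw [← hg, not_le] at hlt
  obtain ⟨ε, e0, e1, e2⟩ : ∃ ε : ℝ, 0 < ε ∧ 0 < 1 - ε ∧ (1 + ε) * ρ2 < (1 - ε) * g := by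
    have hs : 0 < 2 * (g + ρ2) := by linarith
    have e : (g - ρ2) / (2 * (g + ρ2)) * (2 * (g + ρ2)) = g - ρ2 := div_mul_cancel₀ _ hs.ne'
    refine ⟨(g - ρ2) / (2 * (g + ρ2)), div_pos (by linarith) hs, ?_, by linarith⟩
    rw [sub_pos, div_lt_one hs]
    linarith
  obtain ⟨m0, hm⟩ := eventually_atTop.1 ((r0.2 ε e0).and ((r1.2 ε e0).and (r2.2 ε e0)))
  refine grow_BM (fun m => phi h K0 m x ^ (1 - t) * phi h K1 m y ^ t)
    (fun m => phi h K2 m ((1 - t) • x + t • y)) (by positivity) e2 m0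
    (mul_pos (Real.rpow_pos_of_pos (p0 _) _) (Real.rpow_pos_of_pos (p1 _) _)) (fun m hm' => ?_)
    (fun m hm' => ((hm m hm').2.2 _ (hK x hx y hy)).2)
    (fun m => h2 h hh K0 K1 K2 f0.1 f1.1 f2.1 t ht ht1 hK m x y)
  have a0 := p0 m
  have a1 := p1 m
  have b0 := Real.rpow_le_rpow (by positivity) ((hm m hm').1 x hx).1 ht'.le
  have b1 := Real.rpow_le_rpow (by positivity) ((hm m hm').2.1 y hy).1 ht.le
  have b2 := mul_le_mul b0 b1 (by positivity) (Real.rpow_nonneg (p0 _).le _)
  refine le_trans (le_of_eq ?_) b2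
  have e3 : (1 - ε) ^ (1 - t) * (1 - ε) ^ t = 1 - ε := by
    rw [← Real.rpow_add e1, sub_add_cancel, Real.rpow_one]
  rw [Real.mul_rpow (by positivity) a0.le, Real.mul_rpow (by positivity) a1.le,
    Real.mul_rpow e1.le q0.le, Real.mul_rpow e1.le q1.le, hg]
  conv_lhs => rw [← e3]
  ring

end Pool.Agent.MP_92c74b_an.Cv

end

section
set_option autoImplicit false

namespace Pool.Agent.MP_92c74b_an.Cv

open MeasureTheory Filter Topology Metric Function
open scoped ContDiff

theorem adm_div_GS {n : ℕ} {φ u : E n → ℝ} (hφ : Continuous φ) (h0 : ∀ x, 0 < φ x) (hu : Adm u) :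
    Adm (fun x => u x / φ x) := by
  obtain ⟨h1, ⟨B, h2⟩, h3⟩ := hu
  obtain ⟨c, hc0, hc⟩ := h3.isCompact_closure.exists_forall_le' hφ.continuousOn
    (fun x _ => h0 x)
  refine ⟨h1.div hφ.measurable, ⟨B / c, fun x => ?_⟩, h3.subset fun x hx hx0 => hx ?_⟩
  · have hB : 0 ≤ B := (abs_nonneg _).trans (h2 x)
    show |u x / φ x| ≤ B / c
    by_cases hx : u x = 0
    · rw [hx, zero_div, abs_zero]; positivity
    · rw [abs_div, abs_of_pos (h0 x)]
      exact div_le_div₀ hB (h2 x) hc0 (hc x (subset_closure hx))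
  · show u x / φ x = 0
    rw [hx0, zero_div]

theorem int1_GS {n : ℕ} {h : ℝ} (hh : 0 < h) {a k : E n → ℝ} (ha : Adm a) (hk : Measurable k)
    (hk1 : ∀ x, |k x| ≤ 1) :
    Integrable (fun p : E n × E n => Kr h (p.1 - p.2) * (a p.1 * k p.2)) := by
  have := (pair_int1 (Kr_int hh) ha.integrable).bdd_mul (c := 1)
    (f := fun p : E n × E n => k p.2) (hk.comp measurable_snd).aestronglyMeasurable
    (Eventually.of_forall fun p => hk1 p.2)
  exact this.congr (Eventually.of_forall fun p => by ring)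

theorem gs_pf {n : ℕ} : S_GS n := by
  intro h hh K hK φ ρ hφ h0 h1 hρ u hu hs
  have hv := adm_div_GS hφ h0 hu
  refine ⟨hv, setIntegral_nonneg (hK.prod hK) fun p _ => mul_nonneg
    (mul_nonneg (Kr_pos hh _).le (mul_pos (h0 _) (h0 _)).le) (sq_nonneg _), ?_⟩
  have ha : Adm (fun x => u x / φ x * u x) := hu.mul hv.1 hv.2.1
  have hu0 : ∀ x, x ∉ K → u x = 0 := fun x hx => by_contra fun e => hx (hs e)
  have hk : Measurable (K.indicator φ) := hφ.measurable.indicator hK
  have hk1 : ∀ x, |K.indicator φ x| ≤ 1 := fun x => by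
    by_cases hx : x ∈ K
    · rw [Set.indicator_of_mem hx, abs_of_pos (h0 x)]; exact h1 x
    · rw [Set.indicator_of_notMem hx, abs_zero]; exact zero_le_one
  have i1 := int1_GS hh ha hk hk1
  have i2 : Integrable (fun p : E n × E n =>
      Kr h (p.1 - p.2) * (u p.2 / φ p.2 * u p.2 * K.indicator φ p.1)) :=
    i1.swap.congr (Eventually.of_forall fun p => by
      simp only [comp_apply, Prod.fst_swap, Prod.snd_swap]
      rw [Kr_sub_comm])
  have i3 := (Bf_int hh hu).const_mul 2
  have e2 : ∫ p : E n × E n, Kr h (p.1 - p.2) * (u p.2 / φ p.2 * u p.2 * K.indicator φ p.1) =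
      ∫ p : E n × E n, Kr h (p.1 - p.2) * (u p.1 / φ p.1 * u p.1 * K.indicator φ p.2) := by
    rw [Measure.volume_eq_prod, ← integral_prod_swap]
    refine integral_congr_ae (Eventually.of_forall fun p => ?_)
    simp only [Prod.fst_swap, Prod.snd_swap]
    rw [Kr_sub_comm]
  have e1 : ∫ p : E n × E n, Kr h (p.1 - p.2) * (u p.1 / φ p.1 * u p.1 * K.indicator φ p.2) ≤
      ρ * N2 u := by
    have i1' := i1
    rw [Measure.volume_eq_prod] at i1' ⊢
    rw [integral_prod _ i1', N2, ← integral_const_mul]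
    refine integral_mono i1'.integral_prod_left (hu.int_sq.const_mul ρ) fun x => ?_
    have e : ∫ y, Kr h (x - y) * (u x / φ x * u x * K.indicator φ y) =
        u x / φ x * u x * ∫ y in K, Kr h (x - y) * φ y := by
      rw [← integral_indicator hK, ← integral_const_mul]
      refine integral_congr_ae (Eventually.of_forall fun y => ?_)
      by_cases hy : y ∈ K
      · simp only [Set.indicator_of_mem hy]; ring
      · simp only [Set.indicator_of_notMem hy]; ring
    show ∫ y, Kr h (x - y) * (u x / φ x * u x * K.indicator φ y) ≤ ρ * u x ^ 2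
    rw [e]
    by_cases hx : x ∈ K
    · have hx0 := h0 x
      have p1 : 0 ≤ u x / φ x * u x := by
        rw [div_mul_eq_mul_div]; exact div_nonneg (mul_self_nonneg _) hx0.le
      refine (mul_le_mul_of_nonneg_left (hρ x hx) p1).trans (le_of_eq ?_)
      field_simp
    · rw [hu0 x hx]; simp
  have e3 : En h K φ (fun x => u x / φ x) = ∫ p : E n × E n,
      (Kr h (p.1 - p.2) * (u p.1 / φ p.1 * u p.1 * K.indicator φ p.2) +
        Kr h (p.1 - p.2) * (u p.2 / φ p.2 * u p.2 * K.indicator φ p.1)) -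
        2 * (Kr h (p.1 - p.2) * (u p.1 * u p.2)) := by
    rw [En, ← integral_indicator (hK.prod hK)]
    refine integral_congr_ae (Eventually.of_forall fun p => ?_)
    by_cases a1 : p.1 ∈ K
    · by_cases a2 : p.2 ∈ K
      · have b1 := (h0 p.1).ne'
        have b2 := (h0 p.2).ne'
        simp only [Set.indicator_of_mem (Set.mk_mem_prod a1 a2 : p ∈ K ×ˢ K),
          Set.indicator_of_mem a1, Set.indicator_of_mem a2]
        field_simp
        ring
      · have a3 : p ∉ K ×ˢ K := fun a => a2 a.2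
        simp only [Set.indicator_of_notMem a3, Set.indicator_of_notMem a2, hu0 _ a2]
        ring
    · have a3 : p ∉ K ×ˢ K := fun a => a1 a.1
      simp only [Set.indicator_of_notMem a3, Set.indicator_of_notMem a1, hu0 _ a1]
      ring
  have i4 : Integrable (fun p : E n × E n =>
      Kr h (p.1 - p.2) * (u p.1 / φ p.1 * u p.1 * K.indicator φ p.2) +
        Kr h (p.1 - p.2) * (u p.2 / φ p.2 * u p.2 * K.indicator φ p.1)) := i1.add i2
  rw [e3, integral_sub i4 i3, integral_add i1 i2, integral_const_mul, e2]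
  simp only [Bf]
  linarith

end Pool.Agent.MP_92c74b_an.Cv

end

section
set_option autoImplicit false

namespace Pool.Agent.MP_92c74b_an.Cv

open MeasureTheory Filter Topology Metric Function
open scoped ContDiff

theorem ray_pf {n : ℕ} (h1 : S_Phi n) (h2 : S_GS n) : S_Ray n := by
  rintro h hh K ⟨hK, hb, hv⟩ ρ ⟨ρ0, hρ⟩
  refine ⟨fun u hu hs => ?_, fun ε hε => ?_⟩
  · have N0 := N2_nonneg u
    refine le_of_forall_pos_le_add fun δ hδ => ?_
    have p : 0 < ρ * N2 u + 1 := by positivity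
    obtain ⟨m, hm⟩ := (hρ (δ / (ρ * N2 u + 1)) (by positivity)).exists
    obtain ⟨c, -, l1, p1, -⟩ := h1 h hh K hK m
    obtain ⟨-, e0, e1⟩ := h2 h hh K hK (phi h K m) ((1 + δ / (ρ * N2 u + 1)) * ρ) c (p1 hv) l1
      (fun x hx => (hm x hx).2) u hu hs
    have : δ / (ρ * N2 u + 1) * (ρ * N2 u) ≤ δ := by
      rw [div_mul_eq_mul_div, div_le_iff₀ p]; nlinarith
    nlinarith
  · obtain ⟨m, hm⟩ := (hρ ε hε).exists
    obtain ⟨c, l0, l1, p1, -⟩ := h1 h hh K hK m
    obtain ⟨c', l0', l1', -, -⟩ := h1 h hh K hK (m + 1)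
    have hs : support (K.indicator (phi h K m)) ⊆ K := Set.support_indicator_subset
    have hu : Adm (K.indicator (phi h K m)) := by
      refine ⟨c.measurable.indicator hK, ⟨1, fun x => ?_⟩, hb.subset hs⟩
      by_cases hx : x ∈ K
      · rw [Set.indicator_of_mem hx, abs_of_nonneg (l0 x)]; exact l1 x
      · simp [hx]
    refine ⟨_, hu, hs, ?_, ?_⟩
    · rw [N2, integral_pos_iff_support_of_nonneg (fun _ => sq_nonneg _) hu.int_sq]
      refine hv.trans_le (measure_mono fun x hx => ?_)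
      rw [mem_support, Set.indicator_of_mem hx]
      exact (pow_pos (p1 hv x) 2).ne'
    · have e : ∀ x, ∫ y, Kr h (x - y) * (K.indicator (phi h K m) x * K.indicator (phi h K m) y) =
          phi h K (m + 1) x * K.indicator (phi h K m) x := fun x => by
        change _ = (∫ y in K, Kr h (x - y) * phi h K m y) * _
        rw [← integral_indicator hK, ← integral_mul_const]
        refine integral_congr_ae (Eventually.of_forall fun y => ?_)
        by_cases hy : y ∈ K
        · simp only [Set.indicator_of_mem hy]; ring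
        · simp [hy]
      rw [Bf, Measure.volume_eq_prod, integral_prod _ (Bf_int hh hu), N2, ← integral_const_mul]
      simp only [e]
      refine integral_mono (hu.int_sq.const_mul _) (hu.mul c'.measurable
        ⟨1, fun x => by rw [abs_of_nonneg (l0' x)]; exact l1' x⟩).integrable fun x => ?_
      by_cases hx : x ∈ K
      · simp only [Set.indicator_of_mem hx]
        nlinarith [mul_le_mul_of_nonneg_right (hm x hx).1 (l0 x)]
      · simp [hx]

end Pool.Agent.MP_92c74b_an.Cv

end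

section
set_option autoImplicit false

namespace Pool.Agent.MP_92c74b_an.Cv

open MeasureTheory Filter Topology Metric Function
open scoped ContDiff

theorem sq_Pt {n : ℕ} {v : E n → ℝ} {B : ℝ} (hB : ∀ x, |v x| ≤ B) (a b : E n) :
    ‖(v a - v b) ^ 2‖ ≤ 4 * B ^ 2 := by
  rw [Real.norm_of_nonneg (sq_nonneg _)]
  have h1 := abs_le.1 (hB a)
  have h2 := abs_le.1 (hB b)
  nlinarith [h1.1, h1.2, h2.1, h2.2]

theorem int_Pt {n : ℕ} {v : E n → ℝ} (hv : Measurable v) {B : ℝ} (hB : ∀ x, |v x| ≤ B)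
    (a c : E n) (r : ℝ) : IntegrableOn (fun b => (v a - v b) ^ 2) (ball c r) :=
  Measure.integrableOn_of_bounded (M := 4 * B ^ 2) measure_ball_lt_top.ne
    ((measurable_const.sub hv).pow_const 2).aestronglyMeasurable (ae_of_all _ (sq_Pt hB a))

theorem step_Pt {n : ℕ} {h : ℝ} (hh : 0 < h) {v : E n → ℝ} (hv : Measurable v) {B : ℝ}
    (hB : ∀ x, |v x| ≤ B) {a a' : E n} (ha : dist a a' ≤ h) :
    (v a - v a') ^ 2 ≤ 2 * (Gv h v a + Gv h v a') := by
  have V0 : 0 < (volume (ball (0 : E n) h)).toReal :=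
    ENNReal.toReal_pos (measure_ball_pos _ _ hh).ne' measure_ball_lt_top.ne
  have e1 : ∫ _ in ball a h, (v a - v a') ^ 2 =
      (volume (ball (0 : E n) h)).toReal * (v a - v a') ^ 2 := by
    rw [setIntegral_const, smul_eq_mul, Measure.real, Measure.addHaar_ball_center]
  have e2 : ∫ _ in ball a h, (v a - v a') ^ 2 ≤
      ∫ b in ball a h, (2 * (v a - v b) ^ 2 + 2 * (v a' - v b) ^ 2) :=
    integral_mono (integrableOn_const measure_ball_lt_top.ne)
      (((int_Pt hv hB a a h).const_mul 2).add ((int_Pt hv hB a' a h).const_mul 2))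
      fun b => by
        beta_reduce
        nlinarith [sq_nonneg (v a - v b + (v a' - v b))]
  rw [integral_add ((int_Pt hv hB a a h).const_mul 2) ((int_Pt hv hB a' a h).const_mul 2),
    integral_const_mul, integral_const_mul, e1] at e2
  have e3 : ∫ b in ball a h, (v a - v b) ^ 2 ≤ ∫ b in ball a (2 * h), (v a - v b) ^ 2 :=
    setIntegral_mono_set (int_Pt hv hB a a _) (ae_of_all _ fun _ => sq_nonneg _)
      (ball_subset_ball (by linarith)).eventuallyLE
  have e4 : ∫ b in ball a h, (v a' - v b) ^ 2 ≤ ∫ b in ball a' (2 * h), (v a' - v b) ^ 2 :=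
    setIntegral_mono_set (int_Pt hv hB a' a' _) (ae_of_all _ fun _ => sq_nonneg _)
      (ball_subset_ball' (by linarith)).eventuallyLE
  rw [Gv, Gv, ← add_div, ← mul_div_assoc, le_div_iff₀ V0]
  linarith

theorem pt_pf {n : ℕ} : S_Pt n := by
  rintro h hh v hv ⟨B, hB⟩
  have G0 : ∀ a, 0 ≤ Gv h v a := fun a =>
    div_nonneg (integral_nonneg fun _ => sq_nonneg _) ENNReal.toReal_nonneg
  refine ⟨?_, G0, ⟨4 * B ^ 2 * (volume (ball (0 : E n) (2 * h))).toReal /
    (volume (ball (0 : E n) h)).toReal, fun a => ?_⟩, fun m x y hm hxy => ?_⟩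
  · have hs : MeasurableSet {p : E n × E n | dist p.2 p.1 < 2 * h} :=
      (isOpen_lt (continuous_snd.dist continuous_fst) continuous_const).measurableSet
    have h1 : Measurable fun p : E n × E n =>
        {p : E n × E n | dist p.2 p.1 < 2 * h}.indicator (fun p => (v p.1 - v p.2) ^ 2) p :=
      (((hv.comp measurable_fst).sub (hv.comp measurable_snd)).pow_const 2).indicator hs
    have h2 := (h1.stronglyMeasurable.integral_prod_right' (ν := volume)).measurable
    have e : Gv h v = fun a => (∫ b, {p : E n × E n | dist p.2 p.1 < 2 * h}.indicator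
        (fun p => (v p.1 - v p.2) ^ 2) (a, b)) / (volume (ball (0 : E n) h)).toReal := by
      funext a
      rw [Gv, ← integral_indicator measurableSet_ball]
      rfl
    rw [e]
    exact h2.div_const _
  · refine div_le_div_of_nonneg_right ((le_abs_self _).trans ?_) ENNReal.toReal_nonneg
    have := norm_setIntegral_le_of_norm_le_const (μ := volume) (s := ball a (2 * h))
      (f := fun b => (v a - v b) ^ 2) measure_ball_lt_top fun b _ => sq_Pt hB a b
    rwa [Measure.real, Measure.addHaar_ball_center] at this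
  · have m0 : (0 : ℝ) < m := by exact_mod_cast hm
    obtain ⟨p, hp⟩ : ∃ p : ℕ → E n, ∀ j, p j = x + ((j : ℝ) / m) • (y - x) := ⟨_, fun _ => rfl⟩
    have hd : ∀ j, dist (p j) (p (j + 1)) ≤ h := fun j => by
      rw [hp, hp, dist_add_left, dist_eq_norm, ← sub_smul, norm_smul,
        show (j : ℝ) / m - ((j + 1 : ℕ) : ℝ) / m = -(1 / m) by push_cast; ring, norm_neg,
        Real.norm_of_nonneg (by positivity), one_div, inv_mul_le_iff₀ m0]
      exact hxy
    have e1 : v x - v y = ∑ j ∈ Finset.range m, (v (p j) - v (p (j + 1))) := by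
      rw [Finset.sum_range_sub' fun j => v (p j), hp, hp, div_self m0.ne']
      simp
    have e2 := sq_sum_le_card_mul_sum_sq (s := Finset.range m)
      (f := fun j => v (p j) - v (p (j + 1)))
    have e3 : ∑ j ∈ Finset.range m, (v (p j) - v (p (j + 1))) ^ 2 ≤
        ∑ j ∈ Finset.range m, 2 * (Gv h v (p j) + Gv h v (p (j + 1))) :=
      Finset.sum_le_sum fun j _ => step_Pt hh hv hB (hd j)
    rw [← Finset.mul_sum, Finset.sum_add_distrib] at e3
    have e4 := Finset.sum_range_succ (fun j => Gv h v (p j)) m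
    have e5 := Finset.sum_range_succ' (fun j => Gv h v (p j)) m
    rw [Finset.card_range, ← e1] at e2
    simp only [← hp]
    have e6 : ∑ j ∈ Finset.range m, (v (p j) - v (p (j + 1))) ^ 2 ≤
        4 * ∑ j ∈ Finset.range (m + 1), Gv h v (p j) := by
      linarith [G0 (p m), G0 (p 0)]
    nlinarith [mul_le_mul_of_nonneg_left e6 m0.le]

end Pool.Agent.MP_92c74b_an.Cv

end

section
set_option autoImplicit false

namespace Pool.Agent.MP_92c74b_an.Cv

open MeasureTheory Filter Topology Metric Function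
open scoped ContDiff

theorem scale_Poin {n : ℕ} {f : E n → ENNReal} (hf : Measurable f) {a : ℝ} (ha : 1 / 4 ≤ |a|)
    (b : E n) : ∫⁻ y, f (a • y + b) ≤ 4 ^ n * ∫⁻ y, f y := by
  have h0 : a ≠ 0 := abs_pos.1 (lt_of_lt_of_le (by norm_num) ha)
  have h1 := lintegral_map (μ := (volume : Measure (E n))) (f := fun y => f (y + b))
    (g := fun y => a • y) (hf.comp (measurable_add_const b)) (measurable_const_smul a)
  rw [← h1, Measure.map_addHaar_smul _ h0, lintegral_smul_measure, lintegral_add_right_eq_self,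
    finrank_euclideanSpace_fin, smul_eq_mul]
  refine mul_le_mul_left ?_ _
  have h2 : |(a ^ n)⁻¹| ≤ 4 ^ n := by
    rw [abs_inv, abs_pow, ← inv_pow]
    refine pow_le_pow_left₀ (by positivity) (inv_le_of_inv_le₀ (by norm_num) ?_) n
    rwa [← one_div]
  refine (ENNReal.ofReal_le_ofReal h2).trans (le_of_eq ?_)
  rw [ENNReal.ofReal_pow (by norm_num), ENNReal.ofReal_ofNat]

theorem core_Poin {n : ℕ} {W g : E n → ENNReal} (hW : Measurable W) (hg : Measurable g) {t : ℝ}
    (h1 : ∀ x y, W x * W y ≤ W (x + t • (y - x)) * W (x + (1 - t) • (y - x)))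
    (h2 : ∀ x y, W x * W y ≤ W (x + t • (y - x)) * (W x + W y)) :
    ∫⁻ x, ∫⁻ y, W x * W y * g (x + t • (y - x)) ≤ 2 * 4 ^ n * (∫⁻ x, W x) * ∫⁻ x, W x * g x := by
  obtain ⟨F, hF, e⟩ : ∃ F : E n → ENNReal, Measurable F ∧ ∀ x, W x * g x = F x :=
    ⟨_, hW.mul hg, fun _ => rfl⟩
  simp only [e]
  have key : ∀ {U V : E n → ENNReal}, Measurable U → Measurable V → ∀ a : ℝ, 1 / 4 ≤ |a| →
      ∀ b : E n → E n, ∫⁻ x, ∫⁻ y, U x * V (a • y + b x) ≤ 4 ^ n * ((∫⁻ x, U x) * ∫⁻ x, V x) := by
    intro U V hU hV a ha b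
    rw [mul_left_comm, ← lintegral_mul_const _ hU]
    refine lintegral_mono fun x => ?_
    rw [lintegral_const_mul _ (by fun_prop)]
    exact mul_le_mul_right (scale_Poin hV ha _) _
  by_cases ht : 1 / 4 ≤ t ∧ t ≤ 3 / 4
  · have a1 := key hW hF t (ht.1.trans (le_abs_self t)) fun x => x - t • x
    have a2 := key hW hF (1 - t) (le_trans (by linarith [ht.2]) (le_abs_self _)) fun y => t • y
    rw [lintegral_lintegral_swap (by fun_prop)] at a2
    refine le_trans (lintegral_mono fun x => lintegral_mono fun y => ?_)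
      (le_trans (le_of_eq ?_) ((add_le_add a1 a2).trans (le_of_eq (by ring))))
      (b := ∫⁻ x, ∫⁻ y, W x * F (t • y + (x - t • x)) + W y * F ((1 - t) • x + t • y))
    · rw [show t • y + (x - t • x) = x + t • (y - x) by module,
        show (1 - t) • x + t • y = x + t • (y - x) by module, ← e]
      exact (mul_le_mul_left (h2 x y) _).trans (le_of_eq (by ring))
    · rw [← lintegral_add_left (Measurable.lintegral_prod_right (by fun_prop))]
      exact lintegral_congr fun x => lintegral_add_left (by fun_prop) _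
  · have a0 : 1 / 4 ≤ |1 - 2 * t| := by
      rw [le_abs]
      rcases not_and_or.1 ht with k | k
      · exact Or.inl (by linarith)
      · exact Or.inr (by linarith)
    have a1 := key hF hW _ a0 fun x => x
    calc _ ≤ ∫⁻ x, ∫⁻ y, F (x + t • (y - x)) * W (x + (1 - t) • (y - x)) :=
          lintegral_mono fun x => lintegral_mono fun y => by
            rw [← e]
            exact (mul_le_mul_left (h1 x y) _).trans (le_of_eq (by ring))
      _ = ∫⁻ x, ∫⁻ s, F (x + t • s) * W (x + (1 - t) • s) := lintegral_congr fun x =>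
          lintegral_sub_right_eq_self (fun s => F (x + t • s) * W (x + (1 - t) • s)) x
      _ = ∫⁻ s, ∫⁻ x, F (x + t • s) * W (x + (1 - t) • s) := lintegral_lintegral_swap (by fun_prop)
      _ = ∫⁻ s, ∫⁻ x, F x * W ((1 - 2 * t) • s + x) := lintegral_congr fun s => by
          rw [← lintegral_add_right_eq_self (fun x => F x * W ((1 - 2 * t) • s + x)) (t • s)]
          refine lintegral_congr fun x => ?_
          rw [show (1 - 2 * t) • s + (x + t • s) = x + (1 - t) • s by module]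
      _ = ∫⁻ x, ∫⁻ s, F x * W ((1 - 2 * t) • s + x) := lintegral_lintegral_swap (by fun_prop)
      _ ≤ _ := a1.trans ((le_add_of_nonneg_left (a := 4 ^ n * ((∫⁻ x, F x) * ∫⁻ x, W x))
          (b := 4 ^ n * ((∫⁻ x, F x) * ∫⁻ x, W x)) zero_le).trans (le_of_eq (by ring)))

theorem logc_Poin {n : ℕ} {w : E n → ℝ} (hl : LogC w) (x y : E n) {t : ℝ} (t0 : 0 ≤ t)
    (t1 : t ≤ 1) : w x ^ (1 - t) * w y ^ t ≤ w (x + t • (y - x)) := by
  rcases t0.eq_or_lt with rfl | t0
  · simp
  rcases t1.eq_or_lt with rfl | t1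
  · simp
  rw [show x + t • (y - x) = (1 - t) • x + t • y by module]
  exact hl x y t t0 t1

theorem one_Poin {n : ℕ} {w : E n → ℝ} (h0 : ∀ x, 0 ≤ w x) (hl : LogC w) (x y : E n) {t : ℝ}
    (t0 : 0 ≤ t) (t1 : t ≤ 1) :
    w x * w y ≤ w (x + t • (y - x)) * w (x + (1 - t) • (y - x)) := by
  have a := mul_le_mul (logc_Poin hl x y t0 t1)
    (logc_Poin hl x y (sub_nonneg.2 t1) (by linarith))
    (mul_nonneg (Real.rpow_nonneg (h0 x) _) (Real.rpow_nonneg (h0 y) _)) (h0 _)
  rwa [mul_mul_mul_comm, ← Real.rpow_add' (h0 x) (by simp), ← Real.rpow_add' (h0 y) (by simp),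
    show 1 - t + (1 - (1 - t)) = 1 by ring, add_sub_cancel, Real.rpow_one, Real.rpow_one] at a

theorem two_Poin {n : ℕ} {w : E n → ℝ} (h0 : ∀ x, 0 ≤ w x) (hl : LogC w) (x y : E n) {t : ℝ}
    (t0 : 0 ≤ t) (t1 : t ≤ 1) : w x * w y ≤ w (x + t • (y - x)) * (w x + w y) := by
  have m0 := le_min (h0 x) (h0 y)
  have a := (mul_le_mul (Real.rpow_le_rpow m0 (min_le_left _ _) (sub_nonneg.2 t1))
    (Real.rpow_le_rpow m0 (min_le_right _ _) t0) (Real.rpow_nonneg m0 _)
    (Real.rpow_nonneg (h0 x) _)).trans (logc_Poin hl x y t0 t1)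
  rw [← Real.rpow_add' m0 (by simp), sub_add_cancel, Real.rpow_one] at a
  rw [← min_mul_max]
  exact mul_le_mul a (max_le_add_of_nonneg (h0 x) (h0 y)) (le_max_of_le_left (h0 x)) (h0 _)

theorem poin_pf {n : ℕ} : S_Poin n := by
  intro P hc hP hb w G hw w0 w1 hl hG G0 ⟨B, hB⟩ t t0 t1
  obtain ⟨W, hW, e1, e2⟩ : ∃ W : E n → ENNReal, Measurable W ∧
      (∀ x ∈ P, W x = ENNReal.ofReal (w x)) ∧ ∀ x ∉ P, W x = 0 :=
    ⟨P.indicator fun x => ENNReal.ofReal (w x), hw.ennreal_ofReal.indicator hP,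
      fun x hx => Set.indicator_of_mem hx _, fun x hx => Set.indicator_of_notMem hx _⟩
  have res : ∀ f g : E n → ENNReal, (∀ x ∈ P, f x = g x) → (∀ x ∉ P, g x = 0) →
      ∫⁻ x in P, f x = ∫⁻ x, g x := fun f g h1 h2 => by
    rw [← lintegral_indicator hP]
    refine lintegral_congr fun x => ?_
    by_cases hx : x ∈ P
    · rw [Set.indicator_of_mem hx, h1 x hx]
    · rw [Set.indicator_of_notMem hx, h2 x hx]
  have conv : ∀ f : E n → ℝ, Measurable f → (∀ x, 0 ≤ f x) →
      ∫ x in P, f x = (∫⁻ x in P, ENNReal.ofReal (f x)).toReal := fun f h1 h2 =>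
    integral_eq_lintegral_of_nonneg_ae (.of_forall h2) h1.aestronglyMeasurable
  have fin : ∀ (f : E n → ℝ) (C : ℝ), (∀ x, f x ≤ C) →
      ∫⁻ x in P, ENNReal.ofReal (f x) ≠ ⊤ := fun f C h => by
    refine ne_top_of_le_ne_top ?_ (lintegral_mono fun x => ENNReal.ofReal_le_ofReal (h x))
    rw [setLIntegral_const]
    exact ENNReal.mul_ne_top ENNReal.ofReal_ne_top hb.measure_lt_top.ne
  have both : ∀ x y, W x * W y = 0 ∨ (x ∈ P ∧ y ∈ P) := fun x y => by
    by_cases hx : x ∈ P
    · by_cases hy : y ∈ P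
      · exact Or.inr ⟨hx, hy⟩
      · exact Or.inl (by rw [e2 y hy, mul_zero])
    · exact Or.inl (by rw [e2 x hx, zero_mul])
  have h := core_Poin hW hG.ennreal_ofReal (t := t) (fun x y => by
    rcases both x y with k | ⟨hx, hy⟩
    · exact k.trans_le zero_le
    · rw [e1 x hx, e1 y hy, e1 _ (hc.add_smul_sub_mem hx hy ⟨t0, t1⟩),
        e1 _ (hc.add_smul_sub_mem hx hy ⟨sub_nonneg.2 t1, by linarith⟩),
        ← ENNReal.ofReal_mul (w0 _), ← ENNReal.ofReal_mul (w0 _)]
      exact ENNReal.ofReal_le_ofReal (one_Poin w0 hl x y t0 t1)) fun x y => by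
    rcases both x y with k | ⟨hx, hy⟩
    · exact k.trans_le zero_le
    · rw [e1 x hx, e1 y hy, e1 _ (hc.add_smul_sub_mem hx hy ⟨t0, t1⟩),
        ← ENNReal.ofReal_add (w0 _) (w0 _), ← ENNReal.ofReal_mul (w0 _),
        ← ENNReal.ofReal_mul (w0 _)]
      exact ENNReal.ofReal_le_ofReal (two_Poin w0 hl x y t0 t1)
  have f1 := fin w 1 w1
  have f2 := fin (fun x => w x * G x) B fun x =>
    (mul_le_of_le_one_left (G0 x) (w1 x)).trans (hB x)
  rw [← res (fun x => ENNReal.ofReal (w x)) W (fun x hx => (e1 x hx).symm) e2,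
    ← res (fun x => ENNReal.ofReal (w x * G x)) (fun x => W x * ENNReal.ofReal (G x))
      (fun x hx => by rw [e1 x hx, ENNReal.ofReal_mul (w0 x)])
      (fun x hx => by rw [e2 x hx, zero_mul])] at h
  have p : ∀ x y, 0 ≤ w x * w y * G (x + t • (y - x)) :=
    fun x y => mul_nonneg (mul_nonneg (w0 x) (w0 y)) (G0 _)
  simp only [fun x => conv (fun y => w x * w y * G (x + t • (y - x))) (by fun_prop) (p x)]
  rw [conv _ (Measurable.lintegral_prod_right (by fun_prop)).ennreal_toReal
    fun _ => ENNReal.toReal_nonneg, conv w hw w0,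
    conv (fun x => w x * G x) (hw.mul hG) fun x => mul_nonneg (w0 x) (G0 x)]
  refine (ENNReal.toReal_mono (ENNReal.mul_ne_top (ENNReal.mul_ne_top (by finiteness) f1) f2)
    (le_trans ?_ h)).trans (le_of_eq (by simp))
  refine (lintegral_mono fun x => ENNReal.ofReal_toReal_le).trans (le_of_eq (res _ _
    (fun x hx => res _ _ (fun y hy => ?_) fun y hy => ?_) fun x hx => ?_))
  · rw [e1 x hx, e1 y hy, ENNReal.ofReal_mul (mul_nonneg (w0 x) (w0 y)), ENNReal.ofReal_mul (w0 x)]
  · rw [e2 y hy, mul_zero, zero_mul]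
  · simp [e2 x hx]

end Pool.Agent.MP_92c74b_an.Cv

end

section
set_option autoImplicit false

namespace Pool.Agent.MP_92c74b_an.Cv

open MeasureTheory Filter Topology Metric Function
open scoped ContDiff

/-- bounded measurable functions -/
def BM_Chain {α : Type} [MeasurableSpace α] (f : α → ℝ) : Prop :=
  Measurable f ∧ ∃ B, ∀ x, |f x| ≤ B

theorem mul_Chain {α : Type} [MeasurableSpace α] {f g : α → ℝ} (hf : BM_Chain f)
    (hg : BM_Chain g) : BM_Chain fun x => f x * g x := by
  obtain ⟨h1, B, h2⟩ := hf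
  obtain ⟨h3, B', h4⟩ := hg
  refine ⟨h1.mul h3, B * B', fun x => ?_⟩
  rw [abs_mul]
  exact mul_le_mul (h2 x) (h4 x) (abs_nonneg _) ((abs_nonneg _).trans (h2 x))

theorem comp_Chain {α β : Type} [MeasurableSpace α] [MeasurableSpace β] {f : β → ℝ}
    (hf : BM_Chain f) {g : α → β} (hg : Measurable g) : BM_Chain fun x => f (g x) :=
  ⟨hf.1.comp hg, hf.2.imp fun _ h _ => h _⟩

theorem int_Chain {α : Type} [MeasurableSpace α] {f : α → ℝ} (hf : BM_Chain f) (μ : Measure α)
    [IsFiniteMeasure μ] : Integrable f μ := by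
  obtain ⟨h1, B, h2⟩ := hf
  exact Integrable.of_bound h1.aestronglyMeasurable B (Eventually.of_forall h2)

theorem var_Chain {α : Type} [MeasurableSpace α] {w v : α → ℝ} (hw : BM_Chain w)
    (hv : BM_Chain v) (μ : Measure α) [IsFiniteMeasure μ] (h0 : ∫ x, w x * v x ∂μ = 0) :
    Integrable (fun p : α × α => w p.1 * w p.2 * (v p.1 - v p.2) ^ 2) (μ.prod μ) ∧
    ∫ p : α × α, w p.1 * w p.2 * (v p.1 - v p.2) ^ 2 ∂(μ.prod μ) =
      2 * (∫ x, w x ∂μ) * ∫ x, w x * v x ^ 2 ∂μ := by
  have a1 := int_Chain hw μ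
  have a2 := int_Chain (mul_Chain hw hv) μ
  have a3 : Integrable (fun x => w x * v x ^ 2) μ := by
    simpa only [sq] using int_Chain (mul_Chain hw (mul_Chain hv hv)) μ
  have e : (fun p : α × α => w p.1 * w p.2 * (v p.1 - v p.2) ^ 2) = fun p =>
      ((w p.1 * v p.1 ^ 2) * w p.2 + w p.1 * (w p.2 * v p.2 ^ 2)) -
        2 * ((w p.1 * v p.1) * (w p.2 * v p.2)) := by
    funext p; ring
  have b1 := a3.mul_prod a1
  have b2 := a1.mul_prod a3
  have b3 := (a2.mul_prod a2).const_mul 2
  have b4 : Integrable (fun p : α × α => (w p.1 * v p.1 ^ 2) * w p.2 +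
      w p.1 * (w p.2 * v p.2 ^ 2)) (μ.prod μ) := b1.add b2
  rw [e]
  refine ⟨b4.sub b3, ?_⟩
  rw [integral_sub b4 b3, integral_add b1 b2, integral_const_mul,
    integral_prod_mul (fun x => w x * v x ^ 2) w, integral_prod_mul w (fun x => w x * v x ^ 2),
    integral_prod_mul (fun x => w x * v x) (fun x => w x * v x), h0]
  ring

theorem chain_pf {n : ℕ} (h1 : S_Pt n) (h2 : S_Poin n) : S_Chain n := by
  refine ⟨12 * (2 * 4 ^ n), by positivity, ?_⟩
  intro P hP hPm w v w1 w2 w3 w4 v1 v2 h d hh hd hdist h0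
  have hb : Bornology.IsBounded P := Metric.isBounded_iff.2 ⟨d, fun x hx y hy => hdist x hx y hy⟩
  have : IsFiniteMeasure (volume.restrict P) := isFiniteMeasure_restrict.2 hb.measure_lt_top.ne
  obtain ⟨g1, g2, g3, g4⟩ := h1 h hh v v1 v2
  have hw : BM_Chain w := ⟨w1, 1, fun x => by rw [abs_of_nonneg (w2 x)]; exact w3 x⟩
  have hG : BM_Chain (Gv h v) := ⟨g1, g3.imp fun B k x => by rw [abs_of_nonneg (g2 x)]; exact k x⟩
  obtain ⟨i1, i2⟩ := var_Chain hw ⟨v1, v2⟩ (volume.restrict P) h0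
  obtain ⟨m, hm⟩ : ∃ m : ℕ, m = ⌈d / h⌉₊ := ⟨_, rfl⟩
  have q1 : 1 ≤ d / h := (one_le_div hh).2 hd
  have m1 : d / h ≤ m := hm ▸ Nat.le_ceil _
  have m2 : (m : ℝ) < d / h + 1 := hm ▸ Nat.ceil_lt_add_one (by linarith)
  have m3 : (1 : ℝ) ≤ m := q1.trans m1
  have m4 : 1 ≤ m := by exact_mod_cast m3
  have hj : ∀ j : ℕ, Integrable (fun p : E n × E n =>
      w p.1 * w p.2 * Gv h v (p.1 + ((j : ℝ) / m) • (p.2 - p.1)))
      ((volume.restrict P).prod (volume.restrict P)) := fun j =>
    int_Chain (mul_Chain (mul_Chain (comp_Chain hw measurable_fst) (comp_Chain hw measurable_snd))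
      (comp_Chain hG (by fun_prop))) _
  have hW : 0 ≤ ∫ x in P, w x := integral_nonneg w2
  have hI : 0 ≤ ∫ x in P, w x * Gv h v x := integral_nonneg fun x => mul_nonneg (w2 x) (g2 x)
  have k1 : 2 * (∫ x in P, w x) * ∫ x in P, w x * v x ^ 2 ≤
      4 * m * ((m + 1) * (2 * 4 ^ n * (∫ x in P, w x) * ∫ x in P, w x * Gv h v x)) := by
    rw [← i2]
    refine (integral_mono_ae i1 ((integrable_finsetSum (Finset.range (m + 1))
      fun j _ => hj j).const_mul (4 * m)) ?_).trans ?_
    · rw [Measure.prod_restrict]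
      filter_upwards [ae_restrict_mem (hPm.prod hPm)] with p hp
      have a := hdist _ hp.2 _ hp.1
      rw [dist_eq_norm] at a
      have b := g4 m p.1 p.2 m4 (a.trans ((div_le_iff₀ hh).1 m1))
      rw [← Finset.mul_sum, mul_left_comm]
      exact mul_le_mul_of_nonneg_left b (mul_nonneg (w2 _) (w2 _))
    · rw [integral_const_mul, integral_finsetSum _ fun j _ => hj j]
      refine mul_le_mul_of_nonneg_left ?_ (by positivity)
      refine (Finset.sum_le_card_nsmul _ _ _ fun j hj' => ?_).trans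
        (by rw [Finset.card_range, nsmul_eq_mul, Nat.cast_succ])
      rw [integral_prod _ (hj j)]
      refine h2 P hP hPm hb w _ w1 w2 w3 w4 g1 g2 g3 _ (by positivity) ?_
      rw [div_le_one (by linarith)]
      exact_mod_cast Nat.lt_succ_iff.1 (Finset.mem_range.1 hj')
  rcases hW.eq_or_lt with e | e
  · have z : w =ᵐ[volume.restrict P] 0 :=
      (integral_eq_zero_iff_of_nonneg w2 (int_Chain hw _)).1 e.symm
    have z' : ∫ x in P, w x * v x ^ 2 = 0 := by
      refine integral_eq_zero_of_ae ?_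
      filter_upwards [z] with x hx
      simp [hx]
    rw [z']
    positivity
  · refine le_of_mul_le_mul_left ?_ (by positivity : 0 < 2 * ∫ x in P, w x)
    refine k1.trans ?_
    have k2 : (m : ℝ) * (m + 1) ≤ 6 * (d ^ 2 / h ^ 2) := by
      rw [← div_pow]
      nlinarith
    have k3 := mul_le_mul_of_nonneg_right k2
      (by positivity : 0 ≤ 4 * (2 * 4 ^ n * (∫ x in P, w x) * ∫ x in P, w x * Gv h v x))
    linarith

end Pool.Agent.MP_92c74b_an.Cv

end

section
set_option autoImplicit false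

namespace Pool.Agent.MP_92c74b_an.Cv

open MeasureTheory Filter Topology Metric Function
open scoped ContDiff

theorem pt_GE {n : ℕ} {h : ℝ} (hh : 0 < h) {φ : E n → ℝ} (h0 : ∀ x, 0 ≤ φ x) (hL : LogL h φ)
    {a b : E n} (hb : b ∈ ball a (2 * h)) :
    φ a ^ 2 ≤ Real.exp 4 * Zc n h * (Kr h (a - b) * (φ a * φ b)) := by
  have hZ := Zc_pos (n := n) hh
  have h1 : ‖a - b‖ < 2 * h := by rwa [mem_ball', dist_eq_norm] at hb
  have h2 : Real.exp (-2) ≤ Real.exp (-‖a - b‖ / h) :=
    Real.exp_le_exp.2 (by rw [le_div_iff₀ hh]; linarith)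
  have h3 : Real.exp (-2) * φ a ≤ φ b := (mul_le_mul_of_nonneg_right h2 (h0 a)).trans (hL a b)
  have h4 : Real.exp 4 * (Real.exp (-2) * Real.exp (-2)) = 1 := by
    rw [← Real.exp_add, ← Real.exp_add]; norm_num
  have h5 : Zc n h * Kr h (a - b) = Real.exp (-‖a - b‖ / h) := by
    rw [Kr]; field_simp
  have := h0 a
  calc φ a ^ 2 = Real.exp 4 * (Real.exp (-2) * (φ a * (Real.exp (-2) * φ a))) := by
        linear_combination (-φ a ^ 2) * h4
    _ ≤ Real.exp 4 * (Real.exp (-‖a - b‖ / h) * (φ a * φ b)) := by gcongr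
    _ = _ := by rw [← h5]; ring

theorem ge_pf {n : ℕ} (h1 : S_Pt n) : S_GE n := by
  have hv : ∀ r : ℝ, 0 < r → 0 < (volume (ball (0 : E n) r)).toReal := fun r hr =>
    ENNReal.toReal_pos (measure_ball_pos _ _ hr).ne' measure_ball_lt_top.ne
  have hZ1 := Zc_pos (n := n) one_pos
  have hv1 := hv 1 one_pos
  obtain ⟨C, hC⟩ : ∃ C : ℝ, C = Real.exp 4 * Zc n 1 / (volume (ball (0 : E n) 1)).toReal := ⟨_, rfl⟩
  have hC0 : 0 < C := by rw [hC]; positivity
  refine ⟨C, hC0, fun h hh K' K hK' hK hsub φ v hφ h0 hle hL hv' => ?_⟩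
  have hvh := hv h hh
  have hsc : Real.exp 4 * Zc n h = C * (volume (ball (0 : E n) h)).toReal := by
    rw [Measure.addHaar_ball_of_pos _ _ hh, finrank_euclideanSpace_fin, ENNReal.toReal_mul,
      ENNReal.toReal_ofReal (by positivity), Zc_scale hh, hC]
    field_simp
  obtain ⟨f, hf⟩ : ∃ f : E n × E n → ℝ,
      f = fun p => Kr h (p.1 - p.2) * (φ p.1 * φ p.2) * (v p.1 - v p.2) ^ 2 := ⟨_, rfl⟩
  have hφφ : ∀ a b, 0 ≤ φ a * φ b ∧ φ a * φ b ≤ 1 := fun a b =>
    ⟨mul_nonneg (h0 a) (h0 b), mul_le_one₀ (hle a) (h0 b) (hle b)⟩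
  have f0 : ∀ p, 0 ≤ f p := fun p => by
    rw [hf]
    exact mul_nonneg (mul_nonneg (Kr_pos hh _).le (hφφ _ _).1) (sq_nonneg _)
  have fm : Measurable f := by
    rw [hf]
    have := Kr_meas (n := n) h
    have := hv'.1
    fun_prop
  have fi : Integrable f := by
    refine (Df_int hh hv').mono' fm.aestronglyMeasurable (Eventually.of_forall fun p => ?_)
    rw [Real.norm_of_nonneg (f0 p), hf]
    exact mul_le_mul_of_nonneg_right (mul_le_of_le_one_right (Kr_pos hh _).le (hφφ _ _).2)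
      (sq_nonneg _)
  have hKK : MeasurableSet (K ×ˢ K) := hK.prod hK
  have Fi : Integrable ((K ×ˢ K).indicator f) := fi.indicator hKK
  have F0 : ∀ p, 0 ≤ (K ×ˢ K).indicator f p := fun p => Set.indicator_nonneg (fun q _ => f0 q) p
  have hEn : En h K φ v = ∫ a, ∫ b, (K ×ˢ K).indicator f (a, b) := by
    rw [En, ← hf, ← integral_indicator hKK, Measure.volume_eq_prod, integral_prod _ Fi]
  obtain ⟨B, hB⟩ := hv'.2.1
  have hB2 : ∀ a b, (v a - v b) ^ 2 ≤ (2 * B) ^ 2 := fun a b => by
    have h2 := abs_le.1 (hB a)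
    have h3 := abs_le.1 (hB b)
    exact sq_le_sq' (by linarith) (by linarith)
  have Fa : ∀ a, Integrable fun b => (K ×ˢ K).indicator f (a, b) := fun a => by
    refine (((Kr_int hh).comp_sub_left a).mul_const ((2 * B) ^ 2)).mono'
      ((fm.indicator hKK).comp measurable_prodMk_left).aestronglyMeasurable
      (Eventually.of_forall fun b => ?_)
    rw [Real.norm_of_nonneg (F0 _)]
    refine (Set.indicator_le_self' (fun q _ => f0 q) _).trans ?_
    rw [hf]
    exact mul_le_mul (mul_le_of_le_one_right (Kr_pos hh _).le (hφφ _ _).2) (hB2 a b) (sq_nonneg _)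
      (Kr_pos hh _).le
  have key : ∀ a ∈ K', φ a ^ 2 * Gv h v a ≤ C * ∫ b, (K ×ˢ K).indicator f (a, b) := by
    intro a ha
    have ha' : a ∈ K := hsub a ha (mem_ball_self (by positivity))
    have i1 : IntegrableOn (fun b => φ a ^ 2 * (v a - v b) ^ 2) (ball a (2 * h)) := by
      refine Integrable.const_mul ?_ _
      refine Measure.integrableOn_of_bounded (M := (2 * B) ^ 2) measure_ball_lt_top.ne
        ((measurable_const.sub hv'.1).pow_const 2).aestronglyMeasurable
        (Eventually.of_forall fun b => ?_)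
      rw [Real.norm_of_nonneg (sq_nonneg _)]
      exact hB2 a b
    have i2 := (Fa a).const_mul (Real.exp 4 * Zc n h)
    have hZ := Zc_pos (n := n) hh
    rw [Gv, ← mul_div_assoc, div_le_iff₀ hvh, ← integral_const_mul, mul_right_comm, ← hsc,
      ← integral_const_mul]
    refine (setIntegral_mono_on i1 i2.integrableOn measurableSet_ball fun b hb => ?_).trans
      (setIntegral_le_integral i2 (Eventually.of_forall fun b =>
        mul_nonneg (by positivity) (F0 _)))
    rw [Set.indicator_of_mem (show (a, b) ∈ K ×ˢ K from ⟨ha', hsub a ha hb⟩), hf, ← mul_assoc]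
    exact mul_le_mul_of_nonneg_right (pt_GE hh h0 hL hb) (sq_nonneg _)
  obtain ⟨gm, g0, -, -⟩ := h1 h hh v hv'.1 ⟨B, hB⟩
  have i3 : Integrable fun a => C * ∫ b, (K ×ˢ K).indicator f (a, b) :=
    (Integrable.integral_prod_left Fi).const_mul C
  have i4 : IntegrableOn (fun a => φ a ^ 2 * Gv h v a) K' := by
    refine i3.integrableOn.mono' ((hφ.pow_const 2).mul gm).aestronglyMeasurable ?_
    filter_upwards [ae_restrict_mem hK'] with a ha
    rw [Real.norm_of_nonneg (mul_nonneg (sq_nonneg _) (g0 a))]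
    exact key a ha
  refine ⟨i4, ?_⟩
  rw [hEn, ← integral_const_mul]
  exact (setIntegral_mono_on i4 i3.integrableOn hK' key).trans (setIntegral_le_integral i3
    (Eventually.of_forall fun a => mul_nonneg hC0.le (integral_nonneg fun b => F0 _)))

end Pool.Agent.MP_92c74b_an.Cv

end

section
set_option autoImplicit false

namespace Pool.Agent.MP_92c74b_an.Cv

open MeasureTheory Filter Topology Metric Function
open scoped ContDiff

theorem tr_pf {n : ℕ} (h1 : S_Pt n) (h2 : S_GE n) : S_Tr n := by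
  obtain ⟨C, C0, hC⟩ := h2
  refine ⟨48 * C, by positivity, fun h hh u hu z => ?_⟩
  obtain ⟨g1, g2⟩ := hC h hh Set.univ Set.univ MeasurableSet.univ MeasurableSet.univ
    (fun _ _ => Set.subset_univ _) (fun _ => 1) u measurable_const (fun _ => zero_le_one)
    (fun _ => le_rfl) (fun x y => by
      rw [mul_one]
      exact Real.exp_le_one_iff.2
        (div_nonpos_of_nonpos_of_nonneg (neg_nonpos.2 (norm_nonneg _)) hh.le)) hu
  have e : En h Set.univ (fun _ => 1) u = Df h u := by simp [En, Df, Set.univ_prod_univ]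
  simp only [one_pow, one_mul, integrableOn_univ, Measure.restrict_univ, e] at g1 g2
  obtain ⟨s, hs⟩ : ∃ s, s = ‖z‖ / h := ⟨_, rfl⟩
  have s0 : 0 ≤ s := by rw [hs]; positivity
  obtain ⟨m, m1, m2, m3⟩ : ∃ m : ℕ, 1 ≤ m ∧ s ≤ m ∧ (m : ℝ) ≤ s + 2 :=
    ⟨⌈s⌉₊ + 1, by omega, by push_cast; linarith [Nat.le_ceil s],
      by push_cast; linarith [Nat.ceil_lt_add_one s0]⟩
  have hi : ∀ j : ℕ, Integrable fun x => Gv h u (x + ((j : ℝ) / m) • (-z)) := fun j =>
    g1.comp_add_right _
  have k1 : N2 (fun x => u (x - z) - u x) ≤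
      ∫ x, 4 * m * ∑ j ∈ Finset.range (m + 1), Gv h u (x + ((j : ℝ) / m) • (-z)) := by
    refine integral_mono ((hu.shift z).sub hu).int_sq
      ((integrable_finsetSum _ fun j _ => hi j).const_mul _) fun x => ?_
    have := (h1 h hh u hu.1 hu.2.1).2.2.2 m x (x - z) m1 (by
      rw [sub_sub_cancel_left, norm_neg, ← div_le_iff₀ hh, ← hs]
      exact m2)
    rw [sub_sub_cancel_left, ← neg_sub, neg_sq] at this
    exact this
  rw [integral_const_mul, integral_finsetSum _ fun j _ => hi j] at k1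
  simp only [integral_add_right_eq_self, Finset.sum_const, Finset.card_range, nsmul_eq_mul] at k1
  push_cast at k1
  have D0 := Df_nonneg hh u
  have m0 : (0 : ℝ) ≤ m := Nat.cast_nonneg m
  have k2 : (m : ℝ) * (m + 1) ≤ 12 * (s ^ 2 + 1) := by nlinarith [sq_nonneg (s - 1)]
  rw [← div_pow, ← hs]
  calc _ ≤ 4 * (m : ℝ) * ((m + 1) * ∫ x, Gv h u x) := k1
    _ ≤ 4 * (m : ℝ) * ((m + 1) * (C * Df h u)) := by gcongr
    _ = 4 * ((m : ℝ) * (m + 1)) * (C * Df h u) := by ring
    _ ≤ 4 * (12 * (s ^ 2 + 1)) * (C * Df h u) := by gcongr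
    _ = _ := by ring

end Pool.Agent.MP_92c74b_an.Cv

end
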