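import Pool.Agent.MP_92c74b_an.Cv.MA

section
set_option autoImplicit false

namespace Pool.Agent.MP_92c74b_an.Cv

open MeasureTheory Filter Topology Metric Function
open scoped ContDiff

theorem mol_eq_MolA {n : ℕ} (ψ u : E n → ℝ) :
    mol ψ u = convolution u ψ (ContinuousLinearMap.mul ℝ ℝ) volume := by
  funext x
  rw [convolution_def]
  unfold mol
  congr 1
  funext y
  rw [ContinuousLinearMap.mul_apply', mul_comm]

theorem fderiv_mol_MolA {n : ℕ} {ψ u : E n → ℝ} (hψ : ContDiff ℝ 1 ψ) (hc : HasCompactSupport ψ)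
    (hu : Integrable u) (x : E n) :
    fderiv ℝ (mol ψ u) x = ∫ t, u t • fderiv ℝ ψ (x - t) := by
  rw [mol_eq_MolA,
    (hc.hasFDerivAt_convolution_right (ContinuousLinearMap.mul ℝ ℝ) hu.locallyIntegrable hψ x).fderiv,
    convolution_def]
  congr 1

theorem supp_MolA {n : ℕ} {ψ u : E n → ℝ} {ε : ℝ} (hs : support ψ ⊆ closedBall 0 ε) :
    support (mol ψ u) ⊆ cthickening ε (support u) := by
  intro x hx
  by_contra hx'
  apply hx
  unfold mol
  have h0 : (fun y => ψ (x - y) * u y) = fun _ => 0 := by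
    funext y
    by_contra hy
    obtain ⟨h1, h2⟩ := mul_ne_zero_iff.1 hy
    apply hx'
    have h3 := hs h1
    rw [mem_closedBall, dist_zero_right, ← dist_eq_norm] at h3
    exact mem_cthickening_of_dist_le x y ε _ h2 h3
  rw [h0, integral_zero]

theorem molA_pf {n : ℕ} : S_MolA n := by
  intro ψ ε _ hψ hs
  have hc : HasCompactSupport ψ :=
    HasCompactSupport.of_support_subset_isCompact (isCompact_closedBall 0 ε) hs
  have hψ1 : ContDiff ℝ 1 ψ := hψ.of_le (by exact_mod_cast le_top)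
  have hd : ContDiff ℝ 1 (fderiv ℝ ψ) := hψ.fderiv_right (WithTop.coe_le_coe.2 (le_top (a := (2 : ℕ∞))))
  obtain ⟨C, hC⟩ := ContDiff.lipschitzWith_of_hasCompactSupport (hc.fderiv ℝ) hd one_ne_zero
  obtain ⟨B, hB⟩ := (hc.fderiv ℝ).exists_bound_of_continuous hd.continuous
  refine ⟨C, C.2, fun u hu => ?_⟩
  have hi := hu.integrable
  have hts : tsupport (mol ψ u) ⊆ cthickening ε (support u) :=
    closure_minimal (supp_MolA hs) isClosed_cthickening
  refine ⟨?_, ?_, hts, fun x y => ?_⟩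
  · rw [mol_eq_MolA]
    exact hc.contDiff_convolution_right (ContinuousLinearMap.mul ℝ ℝ) hi.locallyIntegrable hψ
  · exact Metric.isCompact_of_isClosed_isBounded (isClosed_tsupport _)
      ((hu.2.2.cthickening).subset hts)
  · have hint : ∀ x : E n, Integrable (fun t => u t • fderiv ℝ ψ (x - t)) := by
      intro x
      exact hi.smul_bdd B
        (hd.continuous.comp (continuous_const.sub continuous_id)).aestronglyMeasurable
        (Eventually.of_forall fun t => hB _)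
    rw [fderiv_mol_MolA hψ1 hc hi, fderiv_mol_MolA hψ1 hc hi, ← integral_sub (hint x) (hint y)]
    have h1 : (C : ℝ) * (∫ z, |u z|) * ‖x - y‖ = ∫ z, |u z| * (C * ‖x - y‖) := by
      rw [integral_mul_const]; ring
    rw [h1]
    refine norm_integral_le_of_norm_le (hi.abs.mul_const _) (Eventually.of_forall fun t => ?_)
    rw [← smul_sub, norm_smul, Real.norm_eq_abs]
    refine mul_le_mul_of_nonneg_left ?_ (abs_nonneg _)
    have h2 := hC.dist_le_mul (x - t) (y - t)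
    rw [dist_eq_norm, dist_eq_norm, sub_sub_sub_cancel_right] at h2
    exact h2

end Pool.Agent.MP_92c74b_an.Cv

end

section
set_option autoImplicit false

namespace Pool.Agent.MP_92c74b_an.Cv

open MeasureTheory Filter Topology Metric Function
open scoped ContDiff

theorem int_MolB {n : ℕ} {ψ g : E n → ℝ} (hψ : Integrable ψ) (hg : Measurable g) {B : ℝ}
    (hB : ∀ z, |g z| ≤ B) : Integrable fun z => ψ z * g z :=
  (hψ.bdd_mul (c := B) hg.aestronglyMeasurable (Eventually.of_forall hB)).congr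
    (Eventually.of_forall fun _ => mul_comm _ _)

theorem jen_MolB {n : ℕ} {ψ g : E n → ℝ} (hψ : Integrable ψ) (h0 : ∀ x, 0 ≤ ψ x)
    (h1 : ∫ x, ψ x = 1) (hg : Measurable g) {B : ℝ} (hB : ∀ z, |g z| ≤ B) :
    (∫ z, ψ z * g z) ^ 2 ≤ ∫ z, ψ z * g z ^ 2 := by
  have a := int_MolB hψ hg hB
  have b : Integrable fun z => ψ z * g z ^ 2 :=
    (int_MolB a hg hB).congr (Eventually.of_forall fun z => by ring)
  obtain ⟨m, hm⟩ : ∃ m, m = ∫ z, ψ z * g z := ⟨_, rfl⟩
  have c : 0 ≤ ∫ z, (ψ z * g z ^ 2 - 2 * m * (ψ z * g z)) + m ^ 2 * ψ z :=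
    integral_nonneg fun z => by
      have := mul_nonneg (h0 z) (sq_nonneg (g z - m))
      simp only [Pi.zero_apply]
      linarith
  have d : Integrable fun z => ψ z * g z ^ 2 - 2 * m * (ψ z * g z) := b.sub (a.const_mul _)
  rw [integral_add d (hψ.const_mul _), integral_sub b (a.const_mul _), integral_const_mul,
    integral_const_mul, h1, ← hm] at c
  rw [← hm]
  linarith

theorem core_MolB {n : ℕ} {ψ : E n → ℝ} (hψ : Integrable ψ) (h0 : ∀ x, 0 ≤ ψ x)
    (h1 : ∫ x, ψ x = 1) {F : E n → E n → ℝ} (hF : ∀ x, Measurable fun z => F z x) {B : ℝ}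
    (hB : ∀ z x, |F z x| ≤ B) (hI : Integrable fun p : E n × E n => ψ p.2 * F p.2 p.1 ^ 2) :
    N2 (fun x => ∫ z, ψ z * F z x) ≤ ∫ z, ψ z * N2 (F z) := by
  refine (integral_mono_of_nonneg (Eventually.of_forall fun _ => sq_nonneg _)
    hI.integral_prod_left (Eventually.of_forall fun x =>
      jen_MolB hψ h0 h1 (hF x) fun z => hB z x)).trans_eq ?_
  rw [integral_integral_swap (f := fun x z => ψ z * F z x ^ 2) hI]
  simp only [integral_const_mul, N2]

theorem mol_MolB {n : ℕ} (ψ u : E n → ℝ) (x : E n) : mol ψ u x = ∫ z, ψ z * u (x - z) := by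
  rw [mol, ← integral_sub_left_eq_self _ volume x]
  simp only [sub_sub_cancel]

theorem molB_pf {n : ℕ} : S_MolB n := by
  intro ψ ε hc hs h0 h1 u hu hm
  have hψ : Integrable ψ := hc.integrable_of_hasCompactSupport
    (HasCompactSupport.of_support_subset_isCompact (isCompact_closedBall 0 ε) hs)
  obtain ⟨M, hM⟩ := hu.2.1
  have me : ∀ x : E n, Measurable fun z => u (x - z) := fun x =>
    hu.1.comp (measurable_id.const_sub x)
  have it : ∀ x : E n, Integrable fun z => ψ z * u (x - z) := fun x =>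
    int_MolB hψ (me x) fun _ => hM _
  refine ⟨fun h hh => ?_, fun B hB => ?_⟩
  · rw [Df_shift hh hm, Df_shift hh hu]
    refine integral_mono_of_nonneg
      (Eventually.of_forall fun z => mul_nonneg (Kr_pos hh z).le (N2_nonneg _))
      (by simpa only [integral_const_mul, N2] using (Df_shift_int hh hu).integral_prod_left)
      (Eventually.of_forall fun w => mul_le_mul_of_nonneg_left ?_ (Kr_pos hh w).le)
    have hg : Adm fun y => u (w + y) - u y := by
      simpa only [sub_neg_eq_add, add_comm] using (hu.shift (-w)).sub hu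
    obtain ⟨M', hM'⟩ := hg.2.1
    have e : (fun y => mol ψ u (w + y) - mol ψ u y) =
        fun y => ∫ z, ψ z * (u (w + (y - z)) - u (y - z)) := funext fun y => by
      rw [mol_MolB, mol_MolB, ← integral_sub (it _) (it _)]
      simp only [mul_sub, add_sub_assoc]
    rw [e]
    refine (core_MolB (F := fun z y => u (w + (y - z)) - u (y - z)) hψ h0 h1
      (fun x => hg.1.comp (measurable_id.const_sub x)) (fun _ _ => hM' _)
      ((pair_int2 hg.int_sq hψ).congr (Eventually.of_forall fun _ => mul_comm _ _))).trans_eq ?_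
    have e2 : ∀ z, N2 (fun y => u (w + (y - z)) - u (y - z)) = N2 fun y => u (w + y) - u y :=
      fun z => integral_sub_right_eq_self (fun y => (u (w + y) - u y) ^ 2) z
    simp only [e2, integral_mul_const, h1, one_mul]
  · have e : (fun x => mol ψ u x - u x) = fun x => ∫ z, ψ z * (u (x - z) - u x) :=
      funext fun x => by
        simp only [mul_sub]
        rw [integral_sub (it x) (hψ.mul_const _), integral_mul_const, h1, one_mul, mol_MolB]
    have i1 := pair_int2 hu.int_sq hψ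
    have i2 : Integrable fun p : E n × E n => u p.1 ^ 2 * ψ p.2 := hu.int_sq.mul_prod hψ
    have i3 := (pair_int2 hu.integrable hψ).bdd_mul (c := M) (f := fun p : E n × E n => u p.1)
      (hu.1.comp measurable_fst).aestronglyMeasurable (Eventually.of_forall fun p => hM p.1)
    rw [e]
    refine (core_MolB (F := fun z x => u (x - z) - u x) (B := M + M) hψ h0 h1
      (fun x => (me x).sub_const _)
      (fun _ _ => (abs_sub _ _).trans (add_le_add (hM _) (hM _)))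
      (((i1.add i2).sub (i3.const_mul 2)).congr (Eventually.of_forall fun p => by
        simp only [Pi.add_apply, Pi.sub_apply]; ring))).trans ?_
    refine (integral_mono_of_nonneg
      (Eventually.of_forall fun z => mul_nonneg (h0 z) (N2_nonneg _)) (hψ.mul_const B)
      (Eventually.of_forall fun z => ?_)).trans_eq (by rw [integral_mul_const, h1, one_mul])
    by_cases k : ψ z = 0
    · simp [k]
    · exact mul_le_mul_of_nonneg_left (hB z (mem_closedBall_zero_iff.1 (hs k))) (h0 z)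

end Pool.Agent.MP_92c74b_an.Cv

end

section
set_option autoImplicit false

namespace Pool.Agent.MP_92c74b_an.Cv

open MeasureTheory Filter Topology Metric Function
open scoped ContDiff

theorem pt_Tay {n : ℕ} {U : E n → ℝ} (hU : ContDiff ℝ ∞ U) {A : ℝ} (hA : 0 ≤ A)
    (hL : ∀ x y, ‖fderiv ℝ U x - fderiv ℝ U y‖ ≤ A * ‖x - y‖) (y z : E n) :
    |U (z + y) - U y - fderiv ℝ U y z| ≤ A * ‖z‖ ^ 2 := by
  have h := (convex_closedBall y ‖z‖).norm_image_sub_le_of_norm_hasFDerivWithin_le'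
    (f := U) (f' := fderiv ℝ U) (φ := fderiv ℝ U y) (C := A * ‖z‖) (x := y) (y := z + y)
    (fun x _ => ((hU.differentiable (by simp)) x).hasFDerivAt.hasFDerivWithinAt)
    (fun x hx => (hL x y).trans
      (mul_le_mul_of_nonneg_left (by rwa [mem_closedBall, dist_eq_norm] at hx) hA))
    (mem_closedBall_self (norm_nonneg z)) (by simp [mem_closedBall, dist_eq_norm])
  rw [add_sub_cancel_right, Real.norm_eq_abs] at h
  linarith

theorem sq_Tay {a b c θ : ℝ} (hθ : 0 < θ) (h : |a - b| ≤ c) :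
    b ^ 2 ≤ (1 + θ) * a ^ 2 + (1 + 1 / θ) * c ^ 2 := by
  have h1 : (a - b) ^ 2 ≤ c ^ 2 := by
    rw [← sq_abs]
    exact pow_le_pow_left₀ (abs_nonneg _) h 2
  have h2 : 0 ≤ (θ * a + (a - b)) ^ 2 / θ := by positivity
  have h3 : (θ * a + (a - b)) ^ 2 / θ = θ * a ^ 2 + 2 * a * (a - b) + 1 / θ * (a - b) ^ 2 := by
    field_simp
    ring
  have h4 : (1 + 1 / θ) * (a - b) ^ 2 ≤ (1 + 1 / θ) * c ^ 2 :=
    mul_le_mul_of_nonneg_left h1 (by positivity)
  nlinarith

theorem loc_Tay {n : ℕ} {τ : ℝ} (hM : Mom n τ) {U : E n → ℝ} (hU : ContDiff ℝ ∞ U)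
    (hc : HasCompactSupport U) {A θ h : ℝ} (hA : 0 ≤ A) (hθ : 0 < θ) (hh : 0 < h)
    (hL : ∀ x y, ‖fderiv ℝ U x - fderiv ℝ U y‖ ≤ A * ‖x - y‖) (y : E n) :
    sg n * h ^ 2 * ‖fderiv ℝ U y‖ ^ 2 ≤
      (1 + θ) * (∫ z, Kr h z * (U (z + y) - U y) ^ 2) + (1 + 1 / θ) * A ^ 2 * (τ * h ^ 4) := by
  obtain ⟨h1, -, h3⟩ := hM.2.2 h hh
  obtain ⟨B, hB⟩ := (adm_of_cont hU.continuous hc).2.1
  have hUc := hU.continuous
  have hK := Kr_cont (n := n) h
  have i1 : Integrable (fun z : E n => Kr h z * (U (z + y) - U y) ^ 2) := by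
    refine ((Kr_int hh).mul_const ((2 * B) ^ 2)).mono' (by fun_prop)
      (Eventually.of_forall fun z => ?_)
    rw [Real.norm_of_nonneg (mul_nonneg (Kr_pos hh z).le (sq_nonneg _))]
    refine mul_le_mul_of_nonneg_left ?_ (Kr_pos hh z).le
    rw [← sq_abs]
    refine pow_le_pow_left₀ (abs_nonneg _) ((abs_sub _ _).trans ?_) 2
    linarith [hB (z + y), hB y]
  have i2 := Kr_int_pow (n := n) hh 4
  have i3 := (i1.const_mul (1 + θ)).add (i2.const_mul ((1 + 1 / θ) * A ^ 2))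
  have h4 : ∫ z, Kr h z * fderiv ℝ U y z ^ 2 ≤ ∫ z, ((1 + θ) * (Kr h z * (U (z + y) - U y) ^ 2) +
      (1 + 1 / θ) * A ^ 2 * (Kr h z * ‖z‖ ^ 4)) := by
    refine integral_mono_of_nonneg
      (Eventually.of_forall fun z => mul_nonneg (Kr_pos hh z).le (sq_nonneg _)) i3
      (Eventually.of_forall fun z => ?_)
    have := mul_le_mul_of_nonneg_left (sq_Tay hθ (pt_Tay hU hA hL y z)) (Kr_pos hh z).le
    simp only
    linarith
  rw [h1, integral_add (i1.const_mul _) (i2.const_mul _), integral_const_mul,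
    integral_const_mul] at h4
  have h5 : (1 + 1 / θ) * A ^ 2 * ∫ z : E n, Kr h z * ‖z‖ ^ 4 ≤
      (1 + 1 / θ) * A ^ 2 * (τ * h ^ 4) := mul_le_mul_of_nonneg_left h3 (by positivity)
  linarith

theorem tay_pf {n : ℕ} {τ : ℝ} (hM : Mom n τ) : S_Tay n τ := by
  intro U hU hc A θ h hA hθ hh hL
  have ha := adm_of_cont hU.continuous hc
  have ig : Integrable (fun y : E n => ∫ z, Kr h z * (U (z + y) - U y) ^ 2) :=
    (Df_shift_int hh ha).integral_prod_right
  have hS : volume (tsupport U) ≠ ⊤ := hc.isCompact.measure_lt_top.ne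
  have e : Q U = ∫ y in tsupport U, ‖fderiv ℝ U y‖ ^ 2 := by
    refine (setIntegral_eq_integral_of_forall_compl_eq_zero fun y hy => ?_).symm
    have : fderiv ℝ U y = 0 := by
      by_contra h0
      exact hy (support_fderiv_subset ℝ h0)
    simp [this]
  have i1 : IntegrableOn (fun y : E n => (1 + θ) * ∫ z, Kr h z * (U (z + y) - U y) ^ 2)
      (tsupport U) := (ig.const_mul _).integrableOn
  have i2 : IntegrableOn (fun _ : E n => (1 + 1 / θ) * A ^ 2 * (τ * h ^ 4)) (tsupport U) :=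
    integrableOn_const hS
  have h1 : ∫ y in tsupport U, sg n * h ^ 2 * ‖fderiv ℝ U y‖ ^ 2 ≤
      ∫ y in tsupport U, ((1 + θ) * (∫ z, Kr h z * (U (z + y) - U y) ^ 2) +
        (1 + 1 / θ) * A ^ 2 * (τ * h ^ 4)) :=
    setIntegral_mono ((int_Q hU hc).const_mul _).integrableOn (i1.add i2)
      fun y => loc_Tay hM hU hc hA hθ hh hL y
  have h2 : ∫ y in tsupport U, ∫ z, Kr h z * (U (z + y) - U y) ^ 2 ≤ Df h U := by
    rw [Df_shift' hh ha]
    exact setIntegral_le_integral ig (Eventually.of_forall fun y =>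
      integral_nonneg fun z => mul_nonneg (Kr_pos hh z).le (sq_nonneg _))
  rw [integral_const_mul, ← e, integral_add i1 i2, integral_const_mul, setIntegral_const,
    smul_eq_mul, measureReal_def] at h1
  have h3 := mul_le_mul_of_nonneg_left h2 (by linarith : 0 ≤ 1 + θ)
  linarith

end Pool.Agent.MP_92c74b_an.Cv

end

section
set_option autoImplicit false

namespace Pool.Agent.MP_92c74b_an.Cv

open MeasureTheory Filter Topology Metric Function
open scoped ContDiff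

theorem int_Dil {n : ℕ} (f : E n → ℝ) (x0 : E n) {s : ℝ} (hs : 0 < s) :
    ∫ x, f (x0 + s⁻¹ • (x - x0)) = s ^ n * ∫ x, f x := by
  rw [integral_sub_right_eq_self (fun x => f (x0 + s⁻¹ • x)) x0,
    Measure.integral_comp_inv_smul_of_nonneg volume (fun x => f (x0 + x)) hs.le,
    integral_add_left_eq_self, finrank_euclideanSpace_fin, smul_eq_mul]

theorem dil_pf {n : ℕ} : S_Dil n := by
  intro Ω ⟨hO, hC, hB, x0, hx0⟩ η hη
  obtain ⟨ρ, hρ, hb⟩ := Metric.isOpen_iff.1 hO x0 hx0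
  obtain ⟨D, hD0, hD⟩ := hB.subset_closedBall_lt 0 x0
  obtain ⟨k, k0, k1, k2, k3⟩ : ∃ k : ℝ, 0 < k ∧ k ≤ 1 / 4 ∧ k ≤ η / 4 ∧ k ≤ η / (D + 2) :=
    ⟨min (1 / 4) (min (η / 4) (η / (D + 2))), by positivity, min_le_left _ _,
      (min_le_right _ _).trans (min_le_left _ _), (min_le_right _ _).trans (min_le_right _ _)⟩
  rw [le_div_iff₀ (by positivity)] at k3
  obtain ⟨s, hsk⟩ : ∃ s : ℝ, s = 1 - k := ⟨_, rfl⟩
  have hs : 0 < s := by linarith
  have hε : 0 < min 1 (k * ρ / 4) := by positivity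
  refine ⟨min 1 (k * ρ / 4), hε, fun U hU hUc hUs => ?_⟩
  have key : ∀ y ∈ tsupport U, x0 + s • (y - x0) ∈ Ω ∧ dist (x0 + s • (y - x0)) y ≤ η := by
    intro y hy
    obtain ⟨w, hw, hd⟩ := mem_thickening_iff.1
      (cthickening_subset_thickening' (δ₂ := 2 * min 1 (k * ρ / 4)) (by positivity) (by linarith)
        Ω (hUs hy))
    have d1 := min_le_left 1 (k * ρ / 4)
    have d2 := min_le_right 1 (k * ρ / 4)
    constructor
    · have e : x0 + s • (y - x0) = s • w + k • (x0 + (s / k) • (y - w)) := by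
        rw [smul_add, smul_smul, mul_div_cancel₀ _ k0.ne', hsk]
        module
      rw [e]
      refine hC hw (hb ?_) hs.le k0.le (by linarith)
      rw [mem_ball, dist_eq_norm, add_sub_cancel_left, norm_smul, ← dist_eq_norm,
        Real.norm_of_nonneg (by positivity), div_mul_eq_mul_div, div_lt_iff₀ k0]
      have d3 : s * dist y w ≤ 1 * dist y w :=
        mul_le_mul_of_nonneg_right (by linarith) dist_nonneg
      have d4 := mul_pos k0 hρ
      linarith
    · have e : x0 + s • (y - x0) - y = (-k) • (y - x0) := by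
        rw [hsk]
        module
      rw [dist_eq_norm, e, norm_smul, norm_neg, Real.norm_of_nonneg k0.le, ← dist_eq_norm]
      have d3 := dist_triangle y w x0
      have d4 := mem_closedBall.1 (hD hw)
      exact (mul_le_mul_of_nonneg_left (by linarith) k0.le).trans k3
  have hH : Continuous fun y : E n => x0 + s • (y - x0) := by fun_prop
  have hK : IsCompact ((fun y : E n => x0 + s • (y - x0)) '' tsupport U) := hUc.isCompact.image hH
  have hsub : tsupport (fun x => U (x0 + s⁻¹ • (x - x0))) ⊆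
      (fun y : E n => x0 + s • (y - x0)) '' tsupport U := by
    refine closure_minimal (fun x hx => ⟨x0 + s⁻¹ • (x - x0), subset_tsupport U hx, ?_⟩)
      hK.isClosed
    simp only [add_sub_cancel_left, smul_smul, mul_inv_cancel₀ hs.ne', one_smul, add_sub_cancel]
  have hfd : ∀ x, ‖fderiv ℝ (fun x => U (x0 + s⁻¹ • (x - x0))) x‖ ^ 2 =
      s⁻¹ ^ 2 * ‖fderiv ℝ U (x0 + s⁻¹ • (x - x0))‖ ^ 2 := fun x => by
    have h1 : HasFDerivAt (fun x : E n => x0 + s⁻¹ • (x - x0))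
        (s⁻¹ • ContinuousLinearMap.id ℝ (E n)) x :=
      (((hasFDerivAt_id x).sub_const x0).const_smul s⁻¹).const_add x0
    have h2 := ((hU.differentiable (by simp)) (x0 + s⁻¹ • (x - x0))).hasFDerivAt.comp x h1
    have h3 : fderiv ℝ (fun x => U (x0 + s⁻¹ • (x - x0))) x = _ := h2.fderiv
    rw [h3, ContinuousLinearMap.comp_smul, ContinuousLinearMap.comp_id, norm_smul, mul_pow,
      Real.norm_eq_abs, sq_abs]
  refine ⟨fun x => U (x0 + s⁻¹ • (x - x0)), s ^ n, ⟨hU.comp (by fun_prop),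
    hK.of_isClosed_subset (isClosed_tsupport _) hsub, fun x hx => ?_⟩, by positivity,
    int_Dil (fun x => U x ^ 2) x0 hs, ?_, fun x hx => ?_⟩
  · obtain ⟨y, hy, rfl⟩ := hsub hx
    exact (key y hy).1
  · have h1 : Q (fun x => U (x0 + s⁻¹ • (x - x0))) = s⁻¹ ^ 2 * (s ^ n * Q U) := by
      unfold Q
      simp only [hfd]
      rw [integral_const_mul, int_Dil (fun x => ‖fderiv ℝ U x‖ ^ 2) x0 hs]
    have h2 : 0 ≤ s ^ n * Q U := mul_nonneg (by positivity) (integral_nonneg fun x => by positivity)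
    have h3 : s⁻¹ ^ 2 ≤ 1 + η := by
      rw [inv_pow, inv_le_iff_one_le_mul₀ (by positivity), hsk]
      nlinarith [mul_le_mul_of_nonneg_left k1 hη.le, mul_nonneg hη.le (sq_nonneg k), sq_nonneg k]
    rw [h1, mul_assoc]
    exact mul_le_mul_of_nonneg_right h3 h2
  · obtain ⟨y, hy, rfl⟩ := hsub hx
    exact ⟨y, hy, (key y hy).2⟩

end Pool.Agent.MP_92c74b_an.Cv

end

section
set_option autoImplicit false

namespace Pool.Agent.MP_92c74b_an.Cv

open MeasureTheory Filter Topology Metric Function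
open scoped ContDiff

theorem small_Conv {a s : ℝ} (K : ℝ) (ha : 0 < a) (hs : 0 < s) :
    ∃ ε : ℝ, 0 < ε ∧ ε ≤ a ∧ ∀ h : ℝ, 0 < h → h ≤ ε → K * h ^ 2 ≤ s := by
  have hK : 0 < |K| + 1 := by positivity
  refine ⟨min a (min 1 (s / (|K| + 1))), lt_min ha (lt_min one_pos (div_pos hs hK)),
    min_le_left _ _, fun h h0 h1 => ?_⟩
  have h2 : h ≤ 1 := h1.trans ((min_le_right _ _).trans (min_le_left _ _))
  have h3 : h ≤ s / (|K| + 1) := h1.trans ((min_le_right _ _).trans (min_le_right _ _))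
  rw [le_div_iff₀ hK] at h3
  have h4 : h ^ 2 ≤ h := by nlinarith
  have h5 := mul_le_mul (le_abs_self K) h4 (sq_nonneg h) (abs_nonneg K)
  nlinarith

theorem fin_Conv {s l L η c N NU QU Q' : ℝ} (hs : 0 < s) (hsL : s * (8 * L + 4 + η) = η)
    (hl : 0 ≤ l) (hlL : l ≤ L) (hη : 0 < η) (hc : 0 < c) (hN : 0 < N)
    (h1 : (1 - s) * N ≤ (1 + s) * NU) (h2 : QU ≤ ((1 + s) * l + s) * N)
    (h3 : Q' ≤ (1 + s) * c * QU) : 0 < NU ∧ Q' ≤ (l + η) * (c * NU) := by
  have hsl : s * l ≤ s * L := mul_le_mul_of_nonneg_left hlL hs.le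
  have hsl0 : 0 ≤ s * l := mul_nonneg hs.le hl
  have hs1 : s < 1 := by
    by_contra h
    have := mul_le_mul_of_nonneg_right (not_lt.1 h) hη.le
    linarith
  have hp : 0 < 1 + s := by linarith
  have hss : s * s ≤ s := by nlinarith
  have h4 : (1 + s) ^ 2 * ((1 + s) * l + s) ≤ (l + η) * (1 - s) := by
    have a1 : s * (s * l) ≤ s * l := by nlinarith
    have a2 : s * (s * (s * l)) ≤ s * l := by nlinarith
    have a3 : s * (s * s) ≤ s := by nlinarith
    nlinarith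
  refine ⟨?_, ?_⟩
  · have := mul_pos (sub_pos.2 hs1) hN
    exact (mul_pos_iff_of_pos_left hp).1 (this.trans_le h1)
  · refine le_of_mul_le_mul_left ?_ hp
    calc (1 + s) * Q' ≤ (1 + s) * ((1 + s) * c * (((1 + s) * l + s) * N)) :=
          mul_le_mul_of_nonneg_left (h3.trans
            (mul_le_mul_of_nonneg_left h2 (mul_pos hp hc).le)) hp.le
      _ = c * N * ((1 + s) ^ 2 * ((1 + s) * l + s)) := by ring
      _ ≤ c * N * ((l + η) * (1 - s)) := mul_le_mul_of_nonneg_left h4 (mul_pos hc hN).le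
      _ = c * (l + η) * ((1 - s) * N) := by ring
      _ ≤ c * (l + η) * ((1 + s) * NU) :=
          mul_le_mul_of_nonneg_left h1 (mul_pos hc (by linarith)).le
      _ = _ := by ring

theorem split_Conv {n : ℕ} {u U : E n → ℝ} (hu : Adm u) (hU : Adm U) {s : ℝ} (hs : 0 < s) :
    N2 u ≤ (1 + s) * N2 U + (1 + 1 / s) * N2 (fun x => U x - u x) := by
  rw [N2, N2, N2, ← integral_const_mul, ← integral_const_mul,
    ← integral_add (hU.int_sq.const_mul _) ((hU.sub hu).int_sq.const_mul _)]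
  refine integral_mono hu.int_sq
    ((hU.int_sq.const_mul _).add ((hU.sub hu).int_sq.const_mul _)) fun x => ?_
  have h : (1 + s) * U x ^ 2 + (1 + 1 / s) * (U x - u x) ^ 2 - u x ^ 2 =
      (s * U x + (U x - u x)) ^ 2 / s := by
    field_simp
    ring
  have h2 : 0 ≤ (s * U x + (U x - u x)) ^ 2 / s := by positivity
  simp only
  linarith

theorem cs_Conv {n : ℕ} {u : E n → ℝ} (hu : Adm u) {Ω : Set (E n)} (hΩ : MeasurableSet Ω)
    (hb : Bornology.IsBounded Ω) (hs : support u ⊆ Ω) (hN : 0 < N2 u) :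
    (∫ z, |u z|) ^ 2 ≤ (volume Ω).toReal * N2 u := by
  have hi : Integrable (Ω.indicator fun _ => (1 : ℝ)) volume :=
    (integrable_indicator_iff hΩ).2 (integrableOn_const hb.measure_lt_top.ne)
  have h1 : ∀ t : ℝ, 2 * t * ∫ z, |u z| ≤ t ^ 2 * N2 u + (volume Ω).toReal := fun t => by
    have e : (volume Ω).toReal = ∫ x, Ω.indicator (fun _ => (1 : ℝ)) x := by
      rw [integral_indicator hΩ]
      simp [Measure.real]
    rw [e, N2, ← integral_const_mul, ← integral_const_mul,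
      ← integral_add (hu.int_sq.const_mul _) hi]
    refine integral_mono (hu.integrable.abs.const_mul _) ((hu.int_sq.const_mul _).add hi)
      fun x => ?_
    by_cases hx : x ∈ Ω
    · simp only [Set.indicator_of_mem hx]
      rw [← sq_abs (u x)]
      nlinarith [sq_nonneg (t * |u x| - 1)]
    · have h0 : u x = 0 := by
        by_contra h
        exact hx (hs h)
      simp [Set.indicator_of_notMem hx, h0]
  have h2 := mul_le_mul_of_nonneg_right (h1 ((∫ z, |u z|) / N2 u)) hN.le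
  have e1 : (2 * ((∫ z, |u z|) / N2 u) * ∫ z, |u z|) * N2 u = 2 * (∫ z, |u z|) ^ 2 := by
    field_simp
  have e2 : (((∫ z, |u z|) / N2 u) ^ 2 * N2 u + (volume Ω).toReal) * N2 u =
      (∫ z, |u z|) ^ 2 + (volume Ω).toReal * N2 u := by
    field_simp
  rw [e1, e2] at h2
  linarith

theorem tay_Conv {σ h s l N QU DU A I V τ W W' : ℝ} (hσ : 0 < σ) (hh : 0 < h) (hs : 0 < s)
    (hN : 0 < N) (hτ : 0 ≤ τ) (hW : 0 ≤ W) (hW' : W ≤ W') (hV : 0 ≤ V) (hI : I ^ 2 ≤ V * N)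
    (hD : DU ≤ σ * h ^ 2 * l * N) (hK : (1 + 1 / s) * A ^ 2 * V * τ * W' * h ^ 2 ≤ s * σ)
    (h1 : σ * h ^ 2 * QU ≤ (1 + s) * DU + (1 + 1 / s) * (A * I) ^ 2 * (τ * h ^ 4) * W) :
    QU ≤ ((1 + s) * l + s) * N := by
  refine le_of_mul_le_mul_left (h1.trans ?_) (mul_pos hσ (pow_pos hh 2))
  have h2 : (1 + 1 / s) * (A * I) ^ 2 * (τ * h ^ 4) * W ≤
      (1 + 1 / s) * (A ^ 2 * (V * N)) * (τ * h ^ 4) * W' := by
    rw [mul_pow]
    gcongr
  have h3 := mul_le_mul_of_nonneg_right hK (mul_pos (pow_pos hh 2) hN).le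
  have h4 := mul_le_mul_of_nonneg_left hD (by linarith : 0 ≤ 1 + s)
  calc _ ≤ (1 + s) * (σ * h ^ 2 * l * N) +
        (1 + 1 / s) * A ^ 2 * V * τ * W' * h ^ 2 * (h ^ 2 * N) :=
        add_le_add h4 (h2.trans_eq (by ring))
    _ ≤ (1 + s) * (σ * h ^ 2 * l * N) + s * σ * (h ^ 2 * N) := add_le_add le_rfl h3
    _ = _ := by ring

theorem tr_Conv {C σ h ε r l L N D : ℝ} (hC : 0 ≤ C) (hσ : 0 < σ) (hh : 0 < h) (hε : h ≤ ε)
    (hr0 : 0 ≤ r) (hr : r ≤ ε) (hl : 0 ≤ l) (hL : l ≤ L) (hN : 0 < N)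
    (hD : D ≤ σ * h ^ 2 * l * N) :
    C * (r ^ 2 / h ^ 2 + 1) * D ≤ 2 * C * σ * L * ε ^ 2 * N := by
  calc C * (r ^ 2 / h ^ 2 + 1) * D ≤ C * (r ^ 2 / h ^ 2 + 1) * (σ * h ^ 2 * l * N) :=
        mul_le_mul_of_nonneg_left hD (by positivity)
    _ = C * (r ^ 2 + h ^ 2) * σ * l * N := by field_simp
    _ ≤ C * (ε ^ 2 + ε ^ 2) * σ * L * N := by gcongr
    _ = _ := by ring

theorem conv_pf {n : ℕ} {τ : ℝ} (hM : Mom n τ) (h1 : S_Tr n) (h2 : S_MolA n) (h3 : S_MolB n)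
    (h4 : S_Tay n τ) (h5 : S_Dil n) : S_Conv n := by
  intro Ω hΩ Λ η hη
  obtain ⟨hσ, hτ, -⟩ := hM
  obtain ⟨C, hC, h1⟩ := h1
  obtain ⟨L, hL0, hL⟩ : ∃ L : ℝ, 0 ≤ L ∧ Λ ≤ L := ⟨max Λ 0, le_max_right _ _, le_max_left _ _⟩
  have hd : 0 < 8 * L + 4 + η := by positivity
  obtain ⟨s, hs, hsL⟩ : ∃ s : ℝ, 0 < s ∧ s * (8 * L + 4 + η) = η :=
    ⟨η / (8 * L + 4 + η), div_pos hη hd, div_mul_cancel₀ _ hd.ne'⟩
  have hsη : 4 * s ≤ η := by
    have := mul_nonneg hs.le hL0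
    have := mul_pos hs hη
    linarith
  obtain ⟨e1, he1, h5⟩ := h5 Ω hΩ s hs
  obtain ⟨ε, hε, hεa, hεK⟩ := small_Conv ((1 + 1 / s) * (2 * C * sg n * L))
    (lt_min he1 (by linarith : 0 < η / 4)) hs
  let b : ContDiffBump (0 : E n) := ⟨ε / 2, ε, half_pos hε, half_lt_self hε⟩
  have hsup : support (b.normed volume) ⊆ closedBall 0 ε := by
    rw [b.support_normed_eq]
    exact ball_subset_closedBall
  obtain ⟨A, hA, h2⟩ := h2 (b.normed volume) ε hε b.contDiff_normed hsup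
  obtain ⟨h0, hh0, hh0ε, hK⟩ := small_Conv ((1 + 1 / s) * A ^ 2 * (volume Ω).toReal * τ *
    (volume (cthickening ε Ω)).toReal) hε (mul_pos hs hσ)
  refine ⟨h0, hh0, fun h hh hlt u l hu hsu hN hlΛ hD => ?_⟩
  have hl : 0 ≤ l := by
    by_contra hn
    have := mul_neg_of_neg_of_pos
      (mul_neg_of_pos_of_neg (mul_pos hσ (pow_pos hh 2)) (not_le.1 hn)) hN
    linarith [Df_nonneg hh u]
  obtain ⟨hU1, hU2, hU3, hU4⟩ := h2 u hu
  have hU : Adm (mol (b.normed volume) u) := adm_of_cont hU1.continuous hU2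
  obtain ⟨hB1, hB2⟩ := h3 (b.normed volume) ε b.continuous_normed hsup b.nonneg_normed
    b.integral_normed u hu hU
  have hB := hB2 _ fun z hz => (h1 h hh u hu z).trans
    (tr_Conv hC hσ hh (hlt.le.trans hh0ε) (norm_nonneg z) hz hl (hlΛ.trans hL) hN hD)
  have hsub : tsupport (mol (b.normed volume) u) ⊆ cthickening ε Ω :=
    hU3.trans (cthickening_subset_of_subset ε hsu)
  have hQ := tay_Conv hσ hh hs hN hτ ENNReal.toReal_nonneg
    (ENNReal.toReal_mono hΩ.2.2.1.cthickening.measure_lt_top.ne (measure_mono hsub))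
    ENNReal.toReal_nonneg (cs_Conv hu hΩ.1.measurableSet hΩ.2.2.1 hsu hN) ((hB1 h hh).trans hD)
    (hK h hh hlt.le) (h4 _ hU1 hU2 _ s h
      (mul_nonneg hA (integral_nonneg fun _ => abs_nonneg _)) hs hh hU4)
  have hNU : (1 - s) * N2 u ≤ (1 + s) * N2 (mol (b.normed volume) u) := by
    have a1 := split_Conv hu hU hs
    have a2 := mul_le_mul_of_nonneg_left hB (by positivity : 0 ≤ 1 + 1 / s)
    have a3 := mul_le_mul_of_nonneg_right (hεK ε hε le_rfl) hN.le
    have a4 : (1 + 1 / s) * (2 * C * sg n * L * ε ^ 2 * N2 u) =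
        (1 + 1 / s) * (2 * C * sg n * L) * ε ^ 2 * N2 u := by ring
    linarith only [a1, a2, a3, a4]
  obtain ⟨U, c, hT, hc, hN', hQ', hd'⟩ := h5 _ hU1 hU2
    (hsub.trans (cthickening_mono (hεa.trans (min_le_left _ _)) Ω))
  obtain ⟨f1, f2⟩ := fin_Conv hs hsL hl (hlΛ.trans hL) hη hc hN hNU hQ hQ'
  refine ⟨U, hT, fun h0 => ?_, hN' ▸ f2, fun x hx => ?_⟩
  · have a1 := mul_pos hc f1
    rw [← hN', h0, N2] at a1
    simp at a1
  · obtain ⟨y, hy, hxy⟩ := hd' x hx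
    obtain ⟨z, hz, hyz⟩ := mem_thickening_iff.1
      (cthickening_subset_thickening' (by linarith : 0 < 2 * ε) (by linarith) _ (hU3 hy))
    have := hεa.trans (min_le_right _ _)
    exact ⟨z, hz, by linarith [dist_triangle x y z]⟩

end Pool.Agent.MP_92c74b_an.Cv

end

section
set_option autoImplicit false

namespace Pool.Agent.MP_92c74b_an.Cv

open MeasureTheory Filter Topology Metric Function
open scoped ContDiff

theorem cube_pf {n : ℕ} : S_Cube n := by
  classical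
  intro Z R d M hd hM
  have ha : ∀ j : Fin n, 0 < d / n := fun j => div_pos hd (by exact_mod_cast j.pos)
  let I : Finset (Fin n → ℤ) := Z.biUnion fun c => Fintype.piFinset fun j =>
    Finset.Icc ⌊(c j - R) / (d / n)⌋ (⌊(c j - R) / (d / n)⌋ + M)
  refine ⟨I, inferInstance, fun i => ⋂ j, (fun x : E n => x j) ⁻¹'
    Set.Ico ((i.1 j : ℝ) * (d / n)) (((i.1 j : ℝ) + 1) * (d / n)), ?_,
    fun i => ?_, fun i => ?_, fun i i' hne => ?_, fun i x hx y hy => ?_, fun c hc x hx => ?_⟩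
  · rw [Fintype.card_coe]
    refine Finset.card_biUnion_le_card_mul _ _ _ fun c _ => le_of_eq ?_
    rw [Fintype.card_piFinset]
    have : ∀ a : ℤ, (Finset.Icc a (a + M)).card = M + 1 := fun a => by
      rw [Int.card_Icc]; omega
    simp only [this, Finset.prod_const, Finset.card_univ, Fintype.card_fin]
  · exact convex_iInter fun j =>
      (convex_Ico _ _).is_linear_preimage ⟨fun _ _ => rfl, fun _ _ => rfl⟩
  · exact MeasurableSet.iInter fun j => measurableSet_Ico.preimage (by fun_prop)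
  · obtain ⟨j, hj⟩ := Function.ne_iff.1 (Subtype.ext_iff.not.1 hne)
    refine Set.disjoint_left.2 fun x hx hx' => hj ?_
    have h1 := Set.mem_iInter.1 hx j
    have h2 := Set.mem_iInter.1 hx' j
    have h3 : ((i.1 j : ℤ) : ℝ) < (i'.1 j : ℤ) + 1 :=
      lt_of_mul_lt_mul_right (by linarith [h1.1, h2.2]) (ha j).le
    have h4 : ((i'.1 j : ℤ) : ℝ) < (i.1 j : ℤ) + 1 :=
      lt_of_mul_lt_mul_right (by linarith [h1.2, h2.1]) (ha j).le
    have h5 : i.1 j < i'.1 j + 1 := by exact_mod_cast h3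
    have h6 : i'.1 j < i.1 j + 1 := by exact_mod_cast h4
    omega
  · rw [EuclideanSpace.dist_eq]
    refine Real.sqrt_le_iff.2 ⟨hd.le, ?_⟩
    have h1 : ∀ j, dist (x j) (y j) ^ 2 ≤ (d / n) ^ 2 := fun j => by
      have h1 := Set.mem_iInter.1 hx j
      have h2 := Set.mem_iInter.1 hy j
      refine pow_le_pow_left₀ dist_nonneg ?_ 2
      rw [Real.dist_eq]
      exact abs_le.2 ⟨by linarith [h1.1, h2.2], by linarith [h1.2, h2.1]⟩
    refine (Finset.sum_le_sum fun j _ => h1 j).trans ?_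
    rw [Finset.sum_const, Finset.card_univ, Fintype.card_fin, nsmul_eq_mul]
    rcases Nat.eq_zero_or_pos n with h0 | h0
    · rw [h0, Nat.cast_zero, zero_mul]
      positivity
    · have h2 : (1 : ℝ) ≤ n := by exact_mod_cast h0
      have h3 : (n : ℝ) * (d / n) ^ 2 = d ^ 2 / n := by field_simp
      rw [h3]
      exact div_le_self (by positivity) h2
  · have h1 : ∀ j, |x j - c j| < R := fun j => by
      rw [← Real.dist_eq]
      exact (PiLp.dist_apply_le x c j).trans_lt hx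
    have h3 : (fun j => ⌊x j / (d / n)⌋) ∈ I := by
      refine Finset.mem_biUnion.2 ⟨c, hc, Fintype.mem_piFinset.2 fun j => Finset.mem_Icc.2
        ⟨Int.floor_le_floor (div_le_div_of_nonneg_right ?_ (ha j).le), ?_⟩⟩
      · linarith [(abs_lt.1 (h1 j)).1]
      · rw [← Int.floor_add_natCast]
        refine Int.floor_le_floor ?_
        have h0 : (0 : ℝ) < n := by exact_mod_cast j.pos
        have h4 : 2 * R ≤ M * (d / n) := by
          rw [← mul_div_assoc, le_div_iff₀ h0]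
          exact hM
        rw [div_add' _ _ _ (ha j).ne']
        exact div_le_div_of_nonneg_right (by linarith [(abs_lt.1 (h1 j)).2]) (ha j).le
    refine Set.mem_iUnion.2 ⟨⟨_, h3⟩, Set.mem_iInter.2 fun j => ⟨?_, ?_⟩⟩
    · exact (le_div_iff₀ (ha j)).1 (Int.floor_le _)
    · exact (div_lt_iff₀ (ha j)).1 (Int.lt_floor_add_one _)

end Pool.Agent.MP_92c74b_an.Cv

end

section
set_option autoImplicit false

namespace Pool.Agent.MP_92c74b_an.Cv

open MeasureTheory Filter Topology Metric Function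
open scoped ContDiff

theorem span_Ex {n : ℕ} {Ω : Set (E n)} {S : Set (E n → ℝ)} (hS : ∀ f ∈ S, TF Ω f) :
    ∀ f ∈ Submodule.span ℝ S, TF Ω f := by
  intro f hf
  induction hf using Submodule.span_induction with
  | mem f h => exact hS f h
  | zero => exact ⟨contDiff_const, HasCompactSupport.zero, by simp⟩
  | add f g _ _ h1 h2 =>
    exact ⟨h1.1.add h2.1, h1.2.1.add h2.2.1,
      (tsupport_add f g).trans (Set.union_subset h1.2.2 h2.2.2)⟩
  | smul a f _ h =>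
    exact ⟨h.1.const_smul a, h.2.1.smul_left (f := fun _ => a),
      (tsupport_smul_subset_right (fun _ => a) f).trans h.2.2⟩

theorem ex_pf {n : ℕ} (hn : 0 < n) : S_Ex n := by
  intro Ω hΩ ⟨x0, hx0⟩ j
  have : Nonempty (Fin n) := ⟨⟨0, hn⟩⟩
  have : NeBot (𝓝[≠] x0) := Module.punctured_nhds_neBot ℝ (E n) x0
  have hinf : Ω.Infinite := infinite_of_mem_nhds x0 (hΩ.mem_nhds hx0)
  let c : Fin (j + 1) → E n := fun i => hinf.natEmbedding Ω i
  have hc : Injective c := fun i k h =>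
    Fin.ext ((hinf.natEmbedding Ω).injective (Subtype.ext h))
  have h1 : ∀ i, ∃ f : E n → ℝ, TF Ω f ∧ f (c i) = 1 ∧ ∀ k, k ≠ i → f (c k) = 0 := fun i => by
    have h2 : Ω ∩ (c '' {k | k ≠ i})ᶜ ∈ 𝓝 (c i) := by
      refine (hΩ.inter ((Set.toFinite _).image c).isClosed.isOpen_compl).mem_nhds
        ⟨(hinf.natEmbedding Ω i).2, ?_⟩
      rintro ⟨k, hk, e⟩
      exact hk (hc e)
    obtain ⟨f, f1, f2, f3, -, f4⟩ := exists_contDiff_tsupport_subset (n := ⊤) h2
    refine ⟨f, ⟨f3, f2, f1.trans Set.inter_subset_left⟩, f4, fun k hk => ?_⟩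
    exact image_eq_zero_of_notMem_tsupport fun h => (f1 h).2 ⟨k, hk, rfl⟩
  choose f f1 f2 f3 using h1
  have hli : LinearIndependent ℝ f := by
    rw [Fintype.linearIndependent_iff]
    intro g hg i
    have h := congrFun hg (c i)
    rw [Finset.sum_apply, Finset.sum_eq_single i (fun k _ hk => by simp [f3 k i hk.symm])
      (by simp)] at h
    simpa [f2] using h
  refine ⟨Submodule.span ℝ (Set.range f), by rw [finrank_span_eq_card hli, Fintype.card_fin],
    span_Ex ?_⟩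
  rintro _ ⟨i, rfl⟩
  exact f1 i

end Pool.Agent.MP_92c74b_an.Cv

end

section
set_option autoImplicit false

namespace Pool.Agent.MP_92c74b_an.Cv

open MeasureTheory Filter Topology Metric Function
open scoped ContDiff

theorem cont_Bdd {n d : ℕ} {b : Fin d → E n → ℝ} (hb : ∀ i, Adm (b i)) :
    Continuous fun a : Fin d → ℝ => N2 (∑ i, a i • b i) := by
  have e : (fun a : Fin d → ℝ => N2 (∑ i, a i • b i)) =
      fun a => ∑ i, ∑ j, a i * a j * ∫ x, b i x * b j x := by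
    funext a
    have h1 : ∀ x, (∑ i, a i • b i) x ^ 2 = ∑ i, ∑ j, a i * a j * (b i x * b j x) := by
      intro x
      simp only [Finset.sum_apply, Pi.smul_apply, smul_eq_mul, sq, Finset.sum_mul_sum]
      exact Finset.sum_congr rfl fun i _ => Finset.sum_congr rfl fun j _ => by ring
    simp only [N2, h1]
    rw [integral_finsetSum _ fun i _ => integrable_finsetSum _ fun j _ =>
      ((hb i).int_mul (hb j)).const_mul _]
    refine Finset.sum_congr rfl fun i _ => ?_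
    rw [integral_finsetSum _ fun j _ => ((hb i).int_mul (hb j)).const_mul _]
    exact Finset.sum_congr rfl fun j _ => integral_const_mul _ _
  rw [e]
  fun_prop

theorem smul_Bdd {n : ℕ} (c : ℝ) (u : E n → ℝ) : N2 (c • u) = c ^ 2 * N2 u := by
  simp only [N2, Pi.smul_apply, smul_eq_mul, mul_pow, integral_const_mul]

theorem q_Bdd {n d : ℕ} {Ω : Set (E n)} {b : Fin d → E n → ℝ} (hb : ∀ i, TF Ω (b i))
    (a : Fin d → ℝ) : Q (∑ i, a i • b i) ≤ ‖a‖ ^ 2 * (d * ∑ i, Q (b i)) := by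
  have hi : ∀ i, Integrable fun x => ‖fderiv ℝ (b i) x‖ ^ 2 := fun i => int_Q (hb i).1 (hb i).2.1
  have h1 : ∀ x, ‖fderiv ℝ (∑ i, a i • b i) x‖ ^ 2 ≤
      ‖a‖ ^ 2 * (d * ∑ i, ‖fderiv ℝ (b i) x‖ ^ 2) := by
    intro x
    have h2 : HasFDerivAt (∑ i, a i • b i) (∑ i, a i • fderiv ℝ (b i) x) x :=
      HasFDerivAt.sum fun i _ =>
        (((hb i).1.differentiable (by simp)) x).hasFDerivAt.const_smul (a i)
    have h3 : ‖∑ i, a i • fderiv ℝ (b i) x‖ ≤ ‖a‖ * ∑ i, ‖fderiv ℝ (b i) x‖ := by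
      rw [Finset.mul_sum]
      refine (norm_sum_le _ _).trans (Finset.sum_le_sum fun i _ => ?_)
      rw [norm_smul]
      exact mul_le_mul_of_nonneg_right (norm_le_pi_norm a i) (norm_nonneg _)
    have h4 := sq_sum_le_card_mul_sum_sq (s := Finset.univ) (f := fun i => ‖fderiv ℝ (b i) x‖)
    rw [Finset.card_univ, Fintype.card_fin] at h4
    rw [h2.fderiv]
    calc _ ≤ (‖a‖ * ∑ i, ‖fderiv ℝ (b i) x‖) ^ 2 := pow_le_pow_left₀ (norm_nonneg _) h3 2
      _ = ‖a‖ ^ 2 * (∑ i, ‖fderiv ℝ (b i) x‖) ^ 2 := mul_pow _ _ _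
      _ ≤ _ := mul_le_mul_of_nonneg_left h4 (sq_nonneg _)
  have h5 : ∫ x, ‖a‖ ^ 2 * (d * ∑ i, ‖fderiv ℝ (b i) x‖ ^ 2) = ‖a‖ ^ 2 * (d * ∑ i, Q (b i)) := by
    rw [integral_const_mul, integral_const_mul, integral_finsetSum _ fun i _ => hi i]
    rfl
  rw [← h5]
  exact integral_mono_of_nonneg (Eventually.of_forall fun _ => sq_nonneg _)
    (((integrable_finsetSum _ fun i _ => hi i).const_mul _).const_mul _) (Eventually.of_forall h1)

theorem bdd_pf {n : ℕ} : S_Bdd n := by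
  intro Ω j V hV hT
  haveI : Module.Finite ℝ V := Module.finite_of_finrank_eq_succ hV
  let β := Module.finBasisOfFinrankEq ℝ V hV
  let b : Fin (j + 1) → E n → ℝ := fun i => (β i : V)
  have hb : ∀ i, TF Ω (b i) := fun i => hT _ (β i).2
  have hF : ∀ a : Fin (j + 1) → ℝ, ∑ i, a i • b i = ((β.equivFun.symm a : V) : E n → ℝ) := by
    intro a
    simp [b]
  have hpos : ∀ a : Fin (j + 1) → ℝ, a ≠ 0 → 0 < N2 (∑ i, a i • b i) := by
    intro a ha
    rw [hF]
    refine (hT _ (β.equivFun.symm a).2).N2_pos fun h => ha ?_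
    exact β.equivFun.symm.map_eq_zero_iff.1 (Subtype.ext h)
  obtain ⟨a₀, ha₀, hmin⟩ := (isCompact_sphere (0 : Fin (j + 1) → ℝ) 1).exists_isMinOn
    (NormedSpace.sphere_nonempty.2 zero_le_one) (cont_Bdd fun i => (hb i).adm).continuousOn
  have hm : 0 < N2 (∑ i, a₀ i • b i) := hpos a₀ (by
    rintro rfl
    simp at ha₀)
  refine ⟨((j + 1 : ℕ) * ∑ i, Q (b i)) / N2 (∑ i, a₀ i • b i), ?_⟩
  rintro _ ⟨f, ⟨hf, hf0⟩, rfl⟩
  obtain ⟨a, rfl⟩ : ∃ a : Fin (j + 1) → ℝ, ∑ i, a i • b i = f :=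
    ⟨β.equivFun ⟨f, hf⟩, by rw [hF, LinearEquiv.symm_apply_apply]⟩
  have ha : a ≠ 0 := by
    rintro rfl
    simp at hf0
  have hn : 0 < ‖a‖ := norm_pos_iff.2 ha
  have h1 : N2 (∑ i, a₀ i • b i) ≤ N2 (∑ i, (‖a‖⁻¹ • a) i • b i) :=
    hmin (mem_sphere_zero_iff_norm.2 (by
      rw [norm_smul, norm_inv, norm_norm, inv_mul_cancel₀ hn.ne']))
  have h2 : ∑ i, a i • b i = ‖a‖ • ∑ i, (‖a‖⁻¹ • a) i • b i := by
    rw [Finset.smul_sum]
    refine Finset.sum_congr rfl fun i _ => ?_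
    rw [smul_smul, Pi.smul_apply, smul_eq_mul, ← mul_assoc, mul_inv_cancel₀ hn.ne', one_mul]
  have h3 : ‖a‖ ^ 2 * N2 (∑ i, a₀ i • b i) ≤ N2 (∑ i, a i • b i) := by
    rw [h2, smul_Bdd]
    exact mul_le_mul_of_nonneg_left h1 (sq_nonneg _)
  have h4 := q_Bdd hb a
  have h5 : 0 ≤ ((j + 1 : ℕ) : ℝ) * ∑ i, Q (b i) :=
    mul_nonneg (Nat.cast_nonneg _) (Finset.sum_nonneg fun i _ => Q_nonneg _)
  change Q _ / N2 _ ≤ _
  rw [div_le_div_iff₀ (hpos a ha) hm]
  nlinarith [mul_le_mul_of_nonneg_right h4 hm.le, mul_le_mul_of_nonneg_left h3 h5]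

end Pool.Agent.MP_92c74b_an.Cv

end

section
set_option autoImplicit false

namespace Pool.Agent.MP_92c74b_an.Cv

open MeasureTheory Filter Topology Metric Function
open scoped ContDiff

theorem norm_sum_sq_Up {ι F : Type} [Fintype ι] [NormedAddCommGroup F] [NormedSpace ℝ F]
    (a : ι → ℝ) (w : ι → F) (h : ∀ i j, i ≠ j → w i = 0 ∨ w j = 0) :
    ‖∑ i, a i • w i‖ ^ 2 = ∑ i, a i ^ 2 * ‖w i‖ ^ 2 := by
  by_cases hex : ∃ i, w i ≠ 0
  · obtain ⟨i, hi⟩ := hex
    have h0 : ∀ j, j ≠ i → w j = 0 := fun j hj => (h j i hj).resolve_right hi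
    rw [Finset.sum_eq_single i (fun j _ hj => by rw [h0 j hj, smul_zero]) (by simp),
      Finset.sum_eq_single i (fun j _ hj => by rw [h0 j hj]; simp) (by simp),
      norm_smul, mul_pow, Real.norm_eq_abs, sq_abs]
  · push Not at hex
    simp [hex]

theorem tf_span_Up {n : ℕ} {ι : Type} {Ω : Set (E n)} {U : ι → E n → ℝ} (hU : ∀ i, TF Ω (U i))
    {f : E n → ℝ} (hf : f ∈ Submodule.span ℝ (Set.range U)) : TF Ω f := by
  induction hf using Submodule.span_induction with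
  | mem x hx => obtain ⟨i, rfl⟩ := hx; exact hU i
  | zero => exact ⟨contDiff_const, HasCompactSupport.zero, by simp⟩
  | add x y _ _ hx hy =>
    exact ⟨hx.1.add hy.1, hx.2.1.add hy.2.1,
      (tsupport_add x y).trans (Set.union_subset hx.2.2 hy.2.2)⟩
  | smul c x _ hx =>
    exact ⟨hx.1.const_smul c, hx.2.1.smul_left (f := fun _ => c),
      (tsupport_smul_subset_right (fun _ => c) x).trans hx.2.2⟩

theorem q_le_Up {n : ℕ} {ι : Type} [Fintype ι] {Ω : Set (E n)} {l : ℝ} {U : ι → E n → ℝ}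
    (hU : ∀ i, TF Ω (U i)) (hd : ∀ i j, i ≠ j → Disjoint (tsupport (U i)) (tsupport (U j)))
    (hQ : ∀ i, Q (U i) ≤ l * N2 (U i)) (a : ι → ℝ) :
    Q (∑ i, a i • U i) ≤ l * N2 (∑ i, a i • U i) := by
  have hsep : ∀ x i j, i ≠ j → x ∉ tsupport (U i) ∨ x ∉ tsupport (U j) := by
    intro x i j hij
    by_contra hc
    push Not at hc
    exact Set.disjoint_left.1 (hd i j hij) hc.1 hc.2
  have h1 : ∀ x, (∑ i, a i • U i) x ^ 2 = ∑ i, a i ^ 2 * U i x ^ 2 := by
    intro x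
    have := norm_sum_sq_Up a (fun i => U i x) fun i j hij =>
      (hsep x i j hij).imp image_eq_zero_of_notMem_tsupport image_eq_zero_of_notMem_tsupport
    simpa [Finset.sum_apply, sq_abs] using this
  have h2 : ∀ x, ‖fderiv ℝ (∑ i, a i • U i) x‖ ^ 2 = ∑ i, a i ^ 2 * ‖fderiv ℝ (U i) x‖ ^ 2 := by
    intro x
    have hz : ∀ i, x ∉ tsupport (U i) → fderiv ℝ (U i) x = 0 := fun i hi => by
      by_contra hc
      exact hi (support_fderiv_subset ℝ (mem_support.2 hc))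
    have hdiff : ∀ i, DifferentiableAt ℝ (U i) x := fun i =>
      ((hU i).1.differentiable (by simp)) x
    have e : fderiv ℝ (∑ i, a i • U i) x = ∑ i, a i • fderiv ℝ (U i) x :=
      (HasFDerivAt.sum fun i _ => (hdiff i).hasFDerivAt.const_smul (a i)).fderiv
    rw [e]
    exact norm_sum_sq_Up a (fun i => fderiv ℝ (U i) x) fun i j hij =>
      (hsep x i j hij).imp (hz i) (hz j)
  have e1 : N2 (∑ i, a i • U i) = ∑ i, a i ^ 2 * N2 (U i) := by
    simp only [N2, h1]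
    rw [integral_finsetSum _ fun i _ => (hU i).adm.int_sq.const_mul _]
    simp only [integral_const_mul]
  have e2 : Q (∑ i, a i • U i) = ∑ i, a i ^ 2 * Q (U i) := by
    simp only [Q, h2]
    rw [integral_finsetSum _ fun i _ => (int_Q (hU i).1 (hU i).2.1).const_mul _]
    simp only [integral_const_mul]
  rw [e1, e2, Finset.mul_sum]
  refine Finset.sum_le_sum fun i _ => ?_
  rw [mul_left_comm]
  exact mul_le_mul_of_nonneg_left (hQ i) (sq_nonneg _)

theorem up_pf {n : ℕ} : S_Up n := by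
  intro Ω k l U hU h0 hd hQ
  have hli : LinearIndependent ℝ U := by
    rw [Fintype.linearIndependent_iff]
    intro g hg i
    obtain ⟨x, hx⟩ := Function.ne_iff.1 (h0 i)
    have h1 := congrFun hg x
    rw [Finset.sum_apply, Finset.sum_eq_single i (fun j _ hj => by
      have : x ∉ tsupport (U j) := fun hc =>
        Set.disjoint_left.1 (hd j i hj) hc (subset_tsupport _ hx)
      rw [Pi.smul_apply, image_eq_zero_of_notMem_tsupport this, smul_zero]) (by simp)] at h1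
    exact (mul_eq_zero.1 h1).resolve_right hx
  have hV : Module.finrank ℝ (Submodule.span ℝ (Set.range U)) = k + 1 := by
    rw [finrank_span_eq_card hli, Fintype.card_fin]
  unfold nu
  refine csInf_le_of_le (b := sSup (rayS (Submodule.span ℝ (Set.range U)))) ⟨0, ?_⟩
    ⟨Submodule.span ℝ (Set.range U), ⟨hV, fun f hf => tf_span_Up hU hf⟩, rfl⟩ ?_
  · rintro _ ⟨V, -, rfl⟩
    refine Real.sSup_nonneg ?_
    rintro _ ⟨f, -, rfl⟩
    exact div_nonneg (Q_nonneg f) (N2_nonneg f)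
  · refine csSup_le ⟨_, U 0, ⟨Submodule.subset_span ⟨0, rfl⟩, h0 0⟩, rfl⟩ ?_
    rintro _ ⟨f, ⟨hf, hf0⟩, rfl⟩
    have hpos := (tf_span_Up hU hf).N2_pos hf0
    obtain ⟨a, rfl⟩ := (Submodule.mem_span_range_iff_exists_fun ℝ).1 hf
    exact (div_le_iff₀ hpos).2 (q_le_Up hU hd hQ a)

end Pool.Agent.MP_92c74b_an.Cv

end

section
set_option autoImplicit false

namespace Pool.Agent.MP_92c74b_an.Cv

open MeasureTheory Filter Topology Metric Function
open scoped ContDiff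

theorem core_Lo {n : ℕ} {Ω : Set (E n)} (hΩ : IsOpen Ω) (V : Submodule ℝ (E n → ℝ))
    [Module.Finite ℝ V] (hV : ∀ f ∈ V, TF Ω f) :
    ∃ η : ℝ, 0 < η ∧ ∀ u ∈ V, support u ⊆ core Ω η := by
  classical
  let b := Module.finBasis ℝ V
  have hK : IsCompact (⋃ i, tsupport ((b i : V) : E n → ℝ)) :=
    isCompact_iUnion fun i => (hV _ (b i).2).2.1.isCompact
  have hs : (⋃ i, tsupport ((b i : V) : E n → ℝ)) ⊆ Ω :=
    Set.iUnion_subset fun i => (hV _ (b i).2).2.2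
  obtain ⟨η, hη, h⟩ := hK.exists_thickening_subset_open hΩ hs
  refine ⟨η, hη, fun u hu x hx => ?_⟩
  have hx' : x ∈ ⋃ i, tsupport ((b i : V) : E n → ℝ) := by
    by_contra hc
    apply hx
    have e := congrArg (fun w : V => (w : E n → ℝ) x) (b.sum_repr ⟨u, hu⟩)
    simp only [Submodule.coe_sum, Submodule.coe_smul, Finset.sum_apply, Pi.smul_apply,
      smul_eq_mul] at e
    rw [← e]
    refine Finset.sum_eq_zero fun i _ => ?_
    have : ((b i : V) : E n → ℝ) x = 0 := by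
      by_contra h0
      exact hc (Set.mem_iUnion.2 ⟨i, subset_tsupport _ h0⟩)
    rw [this, mul_zero]
  exact (ball_subset_thickening hx' η).trans h

theorem lo_pf {n : ℕ} (h1 : S_Ex n) (h2 : S_Bdd n) : S_Lo n := by
  intro Ω hΩ hne N l H
  obtain ⟨V0, hV0⟩ := h1 Ω hΩ hne N
  refine le_csInf ⟨_, ⟨V0, hV0, rfl⟩⟩ ?_
  rintro _ ⟨V, ⟨hr, hV⟩, rfl⟩
  have : Module.Finite ℝ V := Module.finite_of_finrank_eq_succ hr
  obtain ⟨η, hη, hc⟩ := core_Lo hΩ V hV
  obtain ⟨ι, _, ψ, hcard, hψ, H⟩ := H η hη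
  let T : V →ₗ[ℝ] (ι → ℝ) :=
    { toFun := fun u i => ∫ x, (u : E n → ℝ) x * ψ i x
      map_add' := fun u v => by
        funext i
        simp only [Submodule.coe_add, Pi.add_apply, add_mul]
        exact integral_add ((hV _ u.2).adm.int_mul (hψ i)) ((hV _ v.2).adm.int_mul (hψ i))
      map_smul' := fun c u => by
        funext i
        simp only [Submodule.coe_smul, Pi.smul_apply, smul_eq_mul, RingHom.id_apply, mul_assoc]
        exact integral_const_mul _ _ }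
  have hT : ¬ Injective T := by
    intro hi
    have := LinearMap.finrank_le_finrank_of_injective hi
    rw [hr, Module.finrank_fintype_fun_eq_card] at this
    omega
  rw [← LinearMap.ker_eq_bot, Submodule.eq_bot_iff] at hT
  push Not at hT
  obtain ⟨u, hu, hu0⟩ := hT
  have hu1 : (u : E n → ℝ) ≠ 0 := fun h => hu0 (Subtype.ext h)
  have h3 := H u (hV _ u.2) (hc _ u.2) (fun i => congrFun (LinearMap.mem_ker.1 hu) i)
  refine le_csSup_of_le (h2 Ω N V hr hV) ⟨u, ⟨u.2, hu1⟩, rfl⟩ ?_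
  exact (le_div_iff₀ ((hV _ u.2).N2_pos hu1)).2 h3

end Pool.Agent.MP_92c74b_an.Cv

end

section
set_option autoImplicit false

namespace Pool.Agent.MP_92c74b_an.Cv

open MeasureTheory Filter Topology Metric Function
open scoped ContDiff

theorem sup_nonneg_Mono {n : ℕ} (V : Submodule ℝ (E n → ℝ)) : 0 ≤ sSup (rayS V) := by
  refine Real.sSup_nonneg ?_
  rintro _ ⟨f, -, rfl⟩
  exact div_nonneg (Q_nonneg f) (N2_nonneg f)

theorem bdd_Mono {n : ℕ} (S : Set (Submodule ℝ (E n → ℝ))) :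
    BddBelow ((fun V : Submodule ℝ (E n → ℝ) => sSup (rayS V)) '' S) :=
  ⟨0, by rintro _ ⟨V, -, rfl⟩; exact sup_nonneg_Mono V⟩

theorem ex_Mono {n j : ℕ} (V : Submodule ℝ (E n → ℝ)) (hV : Module.finrank ℝ V = j + 1) :
    ∃ f ∈ V, f ≠ 0 := by
  refine Submodule.exists_mem_ne_zero_of_ne_bot ?_
  rintro rfl
  simp at hV

theorem sub_Mono {n j : ℕ} (V : Submodule ℝ (E n → ℝ)) (hV : j ≤ Module.finrank ℝ V) :
    ∃ W : Submodule ℝ (E n → ℝ), W ≤ V ∧ Module.finrank ℝ W = j := by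
  obtain ⟨f, hf⟩ := exists_linearIndependent_of_le_finrank hV
  refine ⟨(Submodule.span ℝ (Set.range f)).map V.subtype, Submodule.map_subtype_le _ _, ?_⟩
  rw [Submodule.finrank_map_subtype_eq, finrank_span_eq_card hf, Fintype.card_fin]

theorem mono_pf {n : ℕ} (h1 : S_Ex n) (h2 : S_Bdd n) : S_Mono n := by
  intro Ω ho hne
  have hS : ∀ j : ℕ, ((fun V : Submodule ℝ (E n → ℝ) => sSup (rayS V)) ''
      {V : Submodule ℝ (E n → ℝ) | Module.finrank ℝ V = j + 1 ∧ ∀ f ∈ V, TF Ω f}).Nonempty :=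
    fun j => Set.Nonempty.image _ (h1 Ω ho hne j)
  refine ⟨monotone_nat_of_le_succ fun j => le_csInf (hS _) ?_, le_csInf (hS _) ?_, fun η hη => ?_⟩
  · rintro _ ⟨V, ⟨hV, hT⟩, rfl⟩
    obtain ⟨W, hW, hr⟩ := sub_Mono (j := j + 1) V (by omega)
    obtain ⟨f, hf, hf0⟩ := ex_Mono W hr
    refine csInf_le_of_le (bdd_Mono _) ⟨W, ⟨hr, fun g hg => hT g (hW hg)⟩, rfl⟩ ?_
    refine csSup_le_csSup (h2 Ω _ V hV hT) ⟨_, f, ⟨hf, hf0⟩, rfl⟩ ?_
    exact Set.image_mono fun g hg => ⟨hW hg.1, hg.2⟩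
  · rintro _ ⟨V, -, rfl⟩
    exact sup_nonneg_Mono V
  · obtain ⟨_, ⟨V, ⟨hV, hT⟩, rfl⟩, hlt⟩ :=
      exists_lt_of_csInf_lt (hS 0) (lt_add_of_pos_right (nu Ω 0) hη)
    obtain ⟨f, hf, hf0⟩ := ex_Mono V hV
    refine ⟨f, hT f hf, hf0, ?_⟩
    rw [← div_le_iff₀ ((hT f hf).N2_pos hf0)]
    exact (le_csSup (h2 Ω _ V hV hT) ⟨f, ⟨hf, hf0⟩, rfl⟩).trans hlt.le

theorem rho_pf {n : ℕ} {τ : ℝ} (hM : Mom n τ) (h1 : S_Ray n) (h2 : S_Conv n) (h3 : S_Up n) :
    S_Rho n := by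
  intro Ω hΩ η hη
  obtain ⟨h0, hh0, H⟩ := h2 Ω hΩ (nu Ω 0) (η / 4) (by positivity)
  refine ⟨h0, hh0, fun h hh hlt ρ hρ => ?_⟩
  by_contra hc
  rw [not_le] at hc
  have hs := hM.1
  have hρ0 := hρ.1
  obtain ⟨u, hu, hsu, hN, hB⟩ := (h1 h hh Ω hΩ.fat ρ hρ).2 (sg n * h ^ 2 / 2 * η / (2 * ρ))
    (by positivity)
  have e : (1 - sg n * h ^ 2 / 2 * η / (2 * ρ)) * ρ = ρ - sg n * h ^ 2 / 2 * η / 2 := by
    field_simp
  rw [e] at hB
  have hD : Df h u ≤ sg n * h ^ 2 * (nu Ω 0 - η / 2) * N2 u := by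
    rw [Df_eq hh hu]
    have := mul_le_mul_of_nonneg_right hc.le hN.le
    nlinarith
  obtain ⟨U, hU, hU0, hQ, -⟩ := H h hh hlt u (nu Ω 0 - η / 2) hu hsu hN (by linarith) hD
  have := h3 Ω 0 (nu Ω 0 - η / 2 + η / 4) (fun _ => U) (fun _ => hU) (fun _ => hU0)
    (fun i j hij => (hij (Subsingleton.elim (α := Fin 1) i j)).elim) fun _ => hQ
  linarith

end Pool.Agent.MP_92c74b_an.Cv

end

section
set_option autoImplicit false

namespace Pool.Agent.MP_92c74b_an.Cv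

open MeasureTheory Filter Topology Metric Function
open scoped ContDiff

theorem Gv_nonneg_Box {n : ℕ} (h : ℝ) (v : E n → ℝ) (a : E n) : 0 ≤ Gv h v a :=
  div_nonneg (integral_nonneg fun _ => sq_nonneg _) ENNReal.toReal_nonneg

theorem sq_rpow_Box {a : ℝ} (ha : 0 ≤ a) (s : ℝ) : (a ^ 2) ^ s = (a ^ s) ^ 2 := by
  rw [sq, sq, Real.mul_rpow ha ha]

theorem logC_Box {n : ℕ} {φ : E n → ℝ} (h0 : ∀ x, 0 ≤ φ x) (h : LogC φ) :
    LogC fun x => φ x ^ 2 := fun x y t a b => by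
  simp only [sq_rpow_Box (h0 _)]
  rw [← mul_pow]
  exact pow_le_pow_left₀ (mul_nonneg (Real.rpow_nonneg (h0 _) _) (Real.rpow_nonneg (h0 _) _))
    (h x y t a b) 2

theorem box_pf {n : ℕ} {τ : ℝ} (hM : Mom n τ) (h1 : S_Birk n) (h2 : S_Phi n) (h3 : S_LC n)
    (h4 : S_GS n) (h5 : S_Chain n) (h6 : S_GE n) (h7 : S_Cube n) (h8 : S_Rho n) : S_Box n := by
  obtain ⟨C4, hC4, h5⟩ := h5
  obtain ⟨C5, hC5, h6⟩ := h6
  have hs := hM.1
  refine ⟨1 / (sg n * C4 * C5), by positivity, fun Ω hΩ d η θ hd hη hθ => ?_⟩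
  obtain ⟨h0, hh0, h8⟩ := h8 Ω hΩ (θ / 2) (half_pos hθ)
  refine ⟨min (η / 2) (min d h0), by positivity, fun h hh hlt Z R M hRM => ?_⟩
  obtain ⟨l1, l2⟩ := lt_min_iff.1 hlt
  obtain ⟨l2, l3⟩ := lt_min_iff.1 l2
  have hΩm : MeasurableSet Ω := hΩ.fat.1
  obtain ⟨ρ, hρ⟩ := h1 h hh Ω hΩ.fat
  have hρ0 := hρ.1
  have hρ1 := h8 h hh l3 ρ hρ
  obtain ⟨m, hm⟩ := (hρ.2 (sg n * h ^ 2 * θ / (4 * ρ)) (by positivity)).exists
  obtain ⟨p1, p2, p3, p4, p5⟩ := h2 h hh Ω hΩm m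
  replace p4 := p4 hΩ.fat.2.2
  have hlc : LogC (phi h Ω m) := fun x y t a b =>
    h3 h hh Ω Ω Ω hΩm hΩm hΩm t a b
      (fun x hx y hy => hΩ.2.1 hx hy (by linarith) a.le (by ring)) m x y
  have hgs := h4 h hh Ω hΩm (phi h Ω m) ((1 + sg n * h ^ 2 * θ / (4 * ρ)) * ρ) p1 p4 p3
    fun x hx => (hm x hx).2
  generalize phi h Ω m = φ at p1 p2 p3 p4 p5 hlc hgs
  obtain ⟨ι, hι, P, q0, q1, q2, q3, q4, q5⟩ := h7 Z R d M hd hRM
  have hcm : MeasurableSet (core Ω η) := (core_closed Ω η).measurableSet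
  have hPm : ∀ i, MeasurableSet (P i ∩ core Ω η) := fun i => (q2 i).inter hcm
  have hdis : Pairwise (Disjoint on fun i => P i ∩ core Ω η) := fun i j e =>
    (q3 e).mono Set.inter_subset_left Set.inter_subset_left
  refine ⟨ι, hι, fun i => (P i ∩ core Ω η).indicator φ, q0, fun i => ⟨p1.measurable.indicator (hPm i),
    ⟨1, fun x => ?_⟩, hΩ.2.2.1.subset fun x hx =>
      core_subset Ω hη (Set.support_indicator_subset hx).2⟩, fun u hu hsu hψ => ?_⟩
  · beta_reduce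
    by_cases e : x ∈ P i ∩ core Ω η
    · rw [Set.indicator_of_mem e, abs_of_nonneg (p2 x)]; exact p3 x
    · rw [Set.indicator_of_notMem e, abs_zero]; exact zero_le_one
  obtain ⟨g1, g2, g3⟩ := hgs u hu fun x hx => core_subset Ω hη (hsu x hx).1
  obtain ⟨e1, e2⟩ := h6 h hh (core Ω η) Ω hcm hΩm
    (fun a ha => (ball_subset_ball (by linarith)).trans ha) φ _ p1.measurable p2 p3 p5 g1
  have hi : ∀ i, ∫ x in P i ∩ core Ω η, u x ^ 2 ≤ C4 * (d ^ 2 / h ^ 2) *
      ∫ x in P i ∩ core Ω η, φ x ^ 2 * Gv h (fun x => u x / φ x) x := fun i => by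
    have := h5 (P i ∩ core Ω η) ((q1 i).inter (core_convex hΩ.2.1 η)) (hPm i) (fun x => φ x ^ 2)
      (fun x => u x / φ x) (p1.measurable.pow_const 2) (fun x => sq_nonneg _)
      (fun x => pow_le_one₀ (p2 x) (p3 x)) (logC_Box p2 hlc) g1.1 g1.2.1 h d hh l2.le
      (fun x hx y hy => q4 i x hx.1 y hy.1) (by
        rw [← hψ i, ← integral_indicator (hPm i)]
        refine integral_congr_ae (Eventually.of_forall fun x => ?_)
        by_cases e : x ∈ P i ∩ core Ω η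
        · simp only [Set.indicator_of_mem e]
          field_simp [(p4 x).ne']
        · simp only [Set.indicator_of_notMem e, mul_zero])
    refine le_trans (le_of_eq (integral_congr_ae (Eventually.of_forall fun x => ?_))) this
    simp only
    field_simp [(p4 x).ne']
  have hsub : (⋃ i, P i ∩ core Ω η) ⊆ core Ω η := Set.iUnion_subset fun i => Set.inter_subset_right
  have hN : N2 u = ∑ i, ∫ x in P i ∩ core Ω η, u x ^ 2 := by
    rw [← integral_iUnion_fintype hPm hdis fun i => hu.int_sq.integrableOn, N2,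
      setIntegral_eq_integral_of_forall_compl_eq_zero fun x hx => ?_]
    by_contra e
    have hx' : x ∈ support u := fun e' => e (by rw [e']; ring)
    obtain ⟨c, hc, hxc⟩ := (hsu x hx').2
    obtain ⟨i, hi⟩ := Set.mem_iUnion.1 (q5 c hc hxc)
    exact hx (Set.mem_iUnion.2 ⟨i, hi, (hsu x hx').1⟩)
  have hE : N2 u ≤ C4 * (d ^ 2 / h ^ 2) * (C5 * En h Ω φ fun x => u x / φ x) := by
    rw [hN]
    refine (Finset.sum_le_sum fun i _ => hi i).trans ?_
    rw [← Finset.mul_sum, ← integral_iUnion_fintype hPm hdis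
      fun i => e1.mono_set Set.inter_subset_right]
    refine mul_le_mul_of_nonneg_left (le_trans ?_ e2) (by positivity)
    exact setIntegral_mono_set e1
      (Eventually.of_forall fun x => mul_nonneg (sq_nonneg _) (Gv_nonneg_Box _ _ _))
      hsub.eventuallyLE
  have hE' : sg n * h ^ 2 * (1 / (sg n * C4 * C5) / d ^ 2) * N2 u ≤
      En h Ω φ fun x => u x / φ x := by
    refine (mul_le_mul_of_nonneg_left hE (by positivity)).trans (le_of_eq ?_)
    field_simp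
  have hρ' : (1 + sg n * h ^ 2 * θ / (4 * ρ)) * ρ = ρ + sg n * h ^ 2 * θ / 4 := by field_simp
  rw [hρ'] at g3
  rw [Df_eq hh hu]
  have := mul_le_mul_of_nonneg_right hρ1 (N2_nonneg u)
  nlinarith

end Pool.Agent.MP_92c74b_an.Cv

end

section
set_option autoImplicit false

namespace Pool.Agent.MP_92c74b_an.Cv

open MeasureTheory Filter Topology Metric Function
open scoped ContDiff

theorem exp_FarA {x ρ s : ℝ} (h1 : x ≤ 1 / 2) (h : 1 - x ≤ ρ) (hs : 0 ≤ s) :
    Real.exp (-(x + 2 * x ^ 2) * s) ≤ ρ ^ s := by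
  rw [Real.exp_mul]
  refine Real.rpow_le_rpow (Real.exp_pos _).le (le_trans ?_ h) hs
  have a1 := Real.add_one_le_exp (x + 2 * x ^ 2)
  have a2 : 0 < 1 - x := by linarith
  rw [Real.exp_neg, inv_le_iff_one_le_mul₀ (Real.exp_pos _)]
  have a3 := mul_le_mul_of_nonneg_left a1 a2.le
  nlinarith [mul_nonneg (sq_nonneg x) (show 0 ≤ 1 - 2 * x by linarith)]

theorem real_FarA {x y t ρ0 ρ1 ρ2 : ℝ} (hx : 0 ≤ x) (hxy : x ≤ y) (hy : y ≤ 1 / 2) (ht : 0 < t)
    (ht1 : t < 1) (h0 : 1 - x ≤ ρ0) (h1 : 1 - y ≤ ρ1) (h : ρ0 ^ (1 - t) * ρ1 ^ t ≤ ρ2) :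
    1 - ((1 - t) * x + t * y) - 2 * y ^ 2 ≤ ρ2 := by
  have a0 := exp_FarA (hxy.trans hy) h0 (sub_pos.2 ht1).le
  have a1 := exp_FarA hy h1 ht.le
  have a2 := mul_le_mul a0 a1 (Real.exp_pos _).le ((Real.exp_pos _).le.trans a0)
  rw [← Real.exp_add] at a2
  have a3 := (Real.add_one_le_exp _).trans (a2.trans h)
  have a4 : x ^ 2 ≤ y ^ 2 := pow_le_pow_left₀ hx hxy 2
  nlinarith [mul_le_mul_of_nonneg_left a4 (sub_pos.2 ht1).le]

theorem small_FarA {s b η : ℝ} (hs : 0 < s) (hb : 0 ≤ b) (hη : 0 < η) :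
    ∃ h0 : ℝ, 0 < h0 ∧ ∀ h : ℝ, 0 < h → h < h0 →
      s * h ^ 2 / 2 * b ≤ 1 / 2 ∧ 2 * (s * h ^ 2 / 2) * b ^ 2 ≤ η / 4 := by
  have hb1 : 0 < b + 1 := by linarith
  refine ⟨min 1 (min (1 / (s * (b + 1))) (η / (4 * s * (b + 1) ^ 2))), by positivity,
    fun h hh h0 => ?_⟩
  rw [lt_min_iff, lt_min_iff, lt_div_iff₀ (by positivity), lt_div_iff₀ (by positivity)] at h0
  obtain ⟨a1, a2, a3⟩ := h0
  have a4 : s * h ^ 2 ≤ s * h := mul_le_mul_of_nonneg_left (by nlinarith) hs.le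
  have a5 : 0 < s * h := mul_pos hs hh
  constructor
  · nlinarith [mul_le_mul_of_nonneg_right a4 hb]
  · nlinarith [mul_le_mul_of_nonneg_right a4 (sq_nonneg b), mul_nonneg a5.le hb]

theorem low_FarA {n : ℕ} (h1 : S_Birk n) (h2 : S_Ray n) {Ω : Set (E n)} (hΩ : Cvx Ω)
    {h A r : ℝ} (hh : 0 < h) {c : E n} {v : E n → ℝ} (hv : Adm v)
    (hs : support v ⊆ Ω ∩ ball c r) (hD : Df h v < A * N2 v) :
    (Ω ∩ ball c r).Nonempty ∧ Fat (Ω ∩ ball c r) ∧
      ∃ ρ, IsRho h (Ω ∩ ball c r) ρ ∧ 1 - A / 2 ≤ ρ := by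
  have hN : 0 < N2 v := by
    refine lt_of_le_of_ne (N2_nonneg v) fun e => ?_
    rw [← e, mul_zero] at hD
    exact absurd (Df_nonneg hh v) (not_le.2 hD)
  have hne : (Ω ∩ ball c r).Nonempty := by
    refine Set.Nonempty.mono hs (support_nonempty_iff.2 fun e => ?_)
    rw [e] at hN
    simp [N2] at hN
  have hF : Fat (Ω ∩ ball c r) :=
    Cvx.fat ⟨hΩ.1.inter isOpen_ball, hΩ.2.1.inter (convex_ball c r),
      hΩ.2.2.1.subset Set.inter_subset_left, hne⟩
  obtain ⟨ρ, hρ⟩ := h1 h hh _ hF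
  refine ⟨hne, hF, ρ, hρ, le_of_mul_le_mul_right ?_ hN⟩
  have a1 := (h2 h hh _ hF ρ hρ).1 v hv hs
  rw [Df_eq hh hv] at hD
  linarith

theorem farA_pf {n : ℕ} {τ : ℝ} (hM : Mom n τ) (h1 : S_Birk n) (h2 : S_Ray n) (h3 : S_BM n)
    (h4 : S_Conv n) : S_FarA n := by
  intro Ω hΩ a b r η ha hab hr hη
  have hb : 0 ≤ b := ha.trans hab
  obtain ⟨k0, hk0, hk⟩ := h4 Ω hΩ (b + η / 2) (η / 2) (by positivity)
  obtain ⟨k1, hk1, hk'⟩ := small_FarA hM.1 hb hη
  refine ⟨min k0 k1, lt_min hk0 hk1, fun h hh hlt c0 c1 v0 v1 hv0 hv1 s0 s1 d0 d1 t ht ht1 => ?_⟩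
  obtain ⟨b1, b2⟩ := hk' h hh (hlt.trans_le (min_le_right _ _))
  obtain ⟨⟨x0, hx0⟩, f0, ρ0, r0, e0⟩ := low_FarA h1 h2 hΩ hh hv0 s0 d0
  obtain ⟨⟨x1, hx1⟩, f1, ρ1, r1, e1⟩ := low_FarA h1 h2 hΩ hh hv1 s1 d1
  have ht' : 0 < 1 - t := sub_pos.2 ht1
  have hc : ∀ x ∈ Ω ∩ ball c0 r, ∀ y ∈ Ω ∩ ball c1 r,
      (1 - t) • x + t • y ∈ Ω ∩ ball ((1 - t) • c0 + t • c1) r := by
    intro x hx y hy
    refine ⟨hΩ.2.1 hx.1 hy.1 ht'.le ht.le (by ring), ?_⟩
    have e : (1 - t) • x + t • y - ((1 - t) • c0 + t • c1) = (1 - t) • (x - c0) + t • (y - c1) := by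
      rw [smul_sub, smul_sub]; abel
    have p0 := mem_ball_iff_norm.1 hx.2
    have p1 := mem_ball_iff_norm.1 hy.2
    rw [mem_ball_iff_norm, e]
    refine (norm_add_le _ _).trans_lt ?_
    rw [norm_smul, norm_smul, Real.norm_of_nonneg ht'.le, Real.norm_of_nonneg ht.le]
    nlinarith [mul_lt_mul_of_pos_left p0 ht', mul_lt_mul_of_pos_left p1 ht]
  have f2 : Fat (Ω ∩ ball ((1 - t) • c0 + t • c1) r) :=
    Cvx.fat ⟨hΩ.1.inter isOpen_ball, hΩ.2.1.inter (convex_ball _ r),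
      hΩ.2.2.1.subset Set.inter_subset_left, ⟨_, hc x0 hx0 x1 hx1⟩⟩
  obtain ⟨ρ2, r2⟩ := h1 h hh _ f2
  have hal : 0 < sg n * h ^ 2 / 2 := by have := hM.1; positivity
  set al := sg n * h ^ 2 / 2 with hdef
  have e2 : sg n * h ^ 2 = 2 * al := by rw [hdef]; ring
  rw [e2] at e0 e1
  have key := real_FarA (x := al * a) (y := al * b) (by positivity)
    (mul_le_mul_of_nonneg_left hab hal.le) b1 ht ht1 (by linarith) (by linarith)
    (h3 h hh _ _ _ f0 f1 f2 t ht ht1 hc ρ0 ρ1 ρ2 r0 r1 r2)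
  have hρ := r2.1
  obtain ⟨u, hu, su, nu0, hB⟩ := (h2 h hh _ f2 ρ2 r2).2 (al * η / (4 * ρ2)) (by positivity)
  have e3 : (1 - al * η / (4 * ρ2)) * ρ2 = ρ2 - al * η / 4 := by field_simp
  rw [e3] at hB
  have k2 : 1 - al * ((1 - t) * a + t * b + η / 2) ≤ ρ2 - al * η / 4 := by
    nlinarith [mul_le_mul_of_nonneg_left b2 hal.le]
  obtain ⟨U, u1, u2, u3, u4⟩ := hk h hh (hlt.trans_le (min_le_left _ _)) u
    ((1 - t) * a + t * b + η / 2) hu (su.trans Set.inter_subset_left) nu0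
    (by nlinarith [mul_le_mul_of_nonneg_left hab ht'.le])
    (by
      rw [Df_eq hh hu, e2]
      nlinarith [mul_le_mul_of_nonneg_right k2 nu0.le])
  refine ⟨U, u1, u2, u3.trans (le_of_eq (by ring)), fun x hx => ?_⟩
  obtain ⟨y, hy, hxy⟩ := u4 x hx
  have := mem_ball.1 (su hy).2
  rw [mem_ball]
  linarith [dist_triangle x y ((1 - t) • c0 + t • c1)]

end Pool.Agent.MP_92c74b_an.Cv

end

section
set_option autoImplicit false

namespace Pool.Agent.MP_92c74b_an.Cv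

open MeasureTheory Filter Topology Metric Function
open scoped ContDiff

theorem far_pf {n : ℕ} {τ : ℝ} (hM : Mom n τ) (h1 : S_FarA n) (h2 : S_Up n) (h3 : S_Mono n)
    (h4 : S_Cmp n) : S_Far n := by
  intro C hC Ω hΩ k δ r hδ hδ0 hr hCr
  obtain ⟨-, hν, hU⟩ := h3 Ω hΩ.1 hΩ.2.2.2
  have hη : 0 < min (δ / 8) (r / 4) := lt_min (by positivity) (by positivity)
  obtain ⟨h0, hh0, hF⟩ := h1 Ω hΩ (nu Ω 0 + δ / 4) (nu Ω 0 + 5 * δ / 4) r (min (δ / 8) (r / 4))
    (by positivity) (by linarith) hr hη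
  refine ⟨h0, hh0, fun h hh hh' => ?_⟩
  obtain ⟨U, hU1, hU2, hU3⟩ := hU (δ / 16) (by positivity)
  have hs : 0 < sg n * h ^ 2 := mul_pos hM.1 (by positivity)
  obtain ⟨x0, v0, hv0, hv1, hv2⟩ : ∃ (x0 : E n) (v0 : E n → ℝ), Adm v0 ∧
      support v0 ⊆ Ω ∩ ball x0 r ∧ Df h v0 < sg n * h ^ 2 * (nu Ω 0 + δ / 4) * N2 v0 := by
    by_contra hn
    have e1 := hC r h hr hh U hU1.adm (sg n * h ^ 2 * (nu Ω 0 + δ / 4)) fun c v hv hsup => by
      by_contra hlt
      exact hn ⟨c, v, hv, hsup.trans (Set.inter_subset_inter_left _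
        ((subset_tsupport U).trans hU1.2.2)), not_le.1 hlt⟩
    have e2 := h4 h hh U hU1.1 hU1.2.1
    have e3 := hU1.N2_pos hU2
    have e4 : C * (sg n * h ^ 2) / r ^ 2 ≤ sg n * h ^ 2 * (δ / 16) := by
      rw [mul_comm C, mul_div_assoc]
      exact mul_le_mul_of_nonneg_left hCr hs.le
    have e5 := mul_le_mul_of_nonneg_left hU3 hs.le
    have e6 := mul_le_mul_of_nonneg_right e4 e3.le
    have e7 : 0 < sg n * h ^ 2 * δ * N2 U := by positivity
    nlinarith
  classical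
  have hb : nu Ω 0 + 5 * δ / 4 = nu Ω k + δ / 4 := by rw [hδ]; ring
  let Bad : E n → Prop := fun c => ∃ v : E n → ℝ, Adm v ∧ support v ⊆ Ω ∩ ball c r ∧
    Df h v < sg n * h ^ 2 * (nu Ω 0 + 5 * δ / 4) * N2 v
  let Sep : Finset (E n) → Prop := fun Z =>
    (∀ z ∈ Z, Bad z) ∧ ∀ z ∈ Z, ∀ z' ∈ Z, z ≠ z' → 12 * r ≤ dist z z'
  have hA : ∀ Z, Sep Z → Z.card ≤ k := by
    intro Z hZ
    by_contra hlt
    obtain ⟨Y, hY, hc⟩ := Finset.exists_subset_card_eq (s := Z) (n := k + 1) (by omega)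
    let e := (Finset.equivFinOfCardEq hc).symm
    choose v hv1' hv2' hv3' using fun i : Fin (k + 1) => hZ.1 (e i) (hY (e i).2)
    choose W hW1 hW2 hW3 hW4 using fun i : Fin (k + 1) =>
      hF h hh hh' x0 (e i) v0 (v i) hv0 (hv1' i) hv1 (hv2' i) hv2 (hv3' i) (1 / 4)
        (by norm_num) (by norm_num)
    have e1 := h2 Ω k (nu Ω 0 + 5 * δ / 8) W hW1 hW2 (fun i j hij => ?_) fun i => ?_
    · linarith
    · refine Set.disjoint_of_subset (hW4 i) (hW4 j) (ball_disjoint_ball ?_)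
      have e2 : ∀ a b : E n, ((1 - 1 / 4 : ℝ) • x0 + (1 / 4 : ℝ) • a) -
          ((1 - 1 / 4 : ℝ) • x0 + (1 / 4 : ℝ) • b) = (1 / 4 : ℝ) • (a - b) := by
        intro a b; module
      have e3 := hZ.2 _ (hY (e i).2) _ (hY (e j).2)
        fun h' => hij (e.injective (Subtype.ext h'))
      rw [dist_eq_norm, e2, norm_smul, ← dist_eq_norm, Real.norm_of_nonneg (by norm_num)]
      have e4 : min (δ / 8) (r / 4) ≤ r / 4 := min_le_right _ _
      linarith
    · refine (hW3 i).trans (mul_le_mul_of_nonneg_right ?_ ((hW1 i).N2_pos (hW2 i)).le)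
      have e4 : min (δ / 8) (r / 4) ≤ δ / 8 := min_le_left _ _
      linarith
  have hx0 : Sep {x0} := by
    refine ⟨fun z hz => ?_, fun z hz z' hz' hne => ?_⟩
    · rw [Finset.mem_singleton.1 hz]
      refine ⟨v0, hv0, hv1, hv2.trans_le (mul_le_mul_of_nonneg_right ?_ (N2_nonneg v0))⟩
      exact mul_le_mul_of_nonneg_left (by linarith) hs.le
    · exact absurd ((Finset.mem_singleton.1 hz).trans (Finset.mem_singleton.1 hz').symm) hne
  let P : ℕ → Prop := fun m => ∃ Z, Sep Z ∧ Z.card = m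
  have hk1 : 1 ≤ k := by simpa using hA _ hx0
  have hP1 : P 1 := ⟨{x0}, hx0, Finset.card_singleton x0⟩
  obtain ⟨Z, hZ, hZc⟩ := Nat.findGreatest_spec hk1 hP1
  have hge := Nat.le_findGreatest hk1 hP1
  refine ⟨Z, Finset.card_pos.1 (by omega), hA Z hZ, fun c hc v hv hsup => ?_⟩
  by_contra hlt
  have hcZ : c ∉ Z := fun h' => by
    have := hc c h'
    rw [dist_self] at this
    linarith
  have hS : Sep (insert c Z) := by
    refine ⟨fun z hz => ?_, fun z hz z' hz' hne => ?_⟩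
    · rcases Finset.mem_insert.1 hz with rfl | hz
      · exact ⟨v, hv, hsup, by rw [hb]; exact not_le.1 hlt⟩
      · exact hZ.1 z hz
    · rcases Finset.mem_insert.1 hz with e1 | e1 <;> rcases Finset.mem_insert.1 hz' with e2 | e2
      · exact absurd (e1.trans e2.symm) hne
      · rw [e1]; exact hc _ e2
      · rw [e2, dist_comm]; exact hc _ e1
      · exact hZ.2 z e1 z' e2 hne
  have hcard := Finset.card_insert_of_notMem hcZ
  exact Nat.findGreatest_is_greatest (P := P) (k := Z.card + 1) (by omega)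
    (hcard ▸ hA _ hS) ⟨_, hS, hcard⟩

end Pool.Agent.MP_92c74b_an.Cv

end

section
set_option autoImplicit false

namespace Pool.Agent.MP_92c74b_an.Cv

open MeasureTheory Filter Topology Metric Function
open scoped ContDiff

theorem gap_pf {n : ℕ} {τ : ℝ} (hM : Mom n τ) (h1 : S_Loc n) (h2 : S_Far n) (h3 : S_Box n)
    (h4 : S_Two n) (h5 : S_Cmp n) (h6 : S_Lo n) : S_Gap n := by
  obtain ⟨C1, hC1, hL⟩ := h1
  obtain ⟨c, hc, hB⟩ := h3
  have hn : (0 : ℝ) ≤ n := Nat.cast_nonneg n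
  obtain ⟨B, hBd⟩ : ∃ B : ℝ, B = C1 + 4 * n + 1 := ⟨_, rfl⟩
  have hB0 : 0 < B := by rw [hBd]; positivity
  obtain ⟨q, hq0, hq⟩ : ∃ q : ℝ, 0 < q ∧ q ^ 2 = 32 * B / c :=
    ⟨√(32 * B / c), Real.sqrt_pos.2 (by positivity), Real.sq_sqrt (by positivity)⟩
  obtain ⟨M0, hM0⟩ : ∃ M0 : ℕ, 28 * n * q ≤ M0 := ⟨_, Nat.le_ceil _⟩
  refine ⟨(M0 + 1) ^ n, fun Ω hΩ k hk => ?_⟩
  obtain ⟨δ, hδd⟩ : ∃ δ : ℝ, δ = nu Ω k - nu Ω 0 := ⟨_, rfl⟩
  have hδ : 0 < δ := by rw [hδd]; linarith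
  rw [← hδd]
  obtain ⟨d, hd0, hd⟩ : ∃ d : ℝ, 0 < d ∧ d ^ 2 = c / (2 * δ) :=
    ⟨√(c / (2 * δ)), Real.sqrt_pos.2 (by positivity), Real.sq_sqrt (by positivity)⟩
  obtain ⟨r, hrd⟩ : ∃ r : ℝ, r = q * d := ⟨_, rfl⟩
  have hr : 0 < r := by rw [hrd]; positivity
  have hr2 : r ^ 2 = 16 * B / δ := by
    rw [hrd, mul_pow, hq, hd]; field_simp; ring
  have hcd : c / d ^ 2 = 2 * δ := by rw [hd]; field_simp
  have hsm : ∀ x : ℝ, x ≤ B → x / r ^ 2 ≤ δ / 16 := fun x hx => by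
    rw [div_le_iff₀ (by positivity), hr2]
    have : δ / 16 * (16 * B / δ) = B := by field_simp
    rw [this]; exact hx
  have hs1 := hsm C1 (by rw [hBd]; linarith)
  have hs2 := hsm (4 * n) (by rw [hBd]; linarith)
  refine h6 Ω hΩ.1 hΩ.2.2.2 _ _ fun η hη => ?_
  obtain ⟨a, ha, hFa⟩ := h2 C1 hL Ω hΩ k δ r hδd hδ hr hs1
  obtain ⟨b, hb, hBb⟩ := hB Ω hΩ d η (δ / 8) hd0 hη (by positivity)
  obtain ⟨h, hh, hha, hhb⟩ : ∃ h : ℝ, 0 < h ∧ h < a ∧ h < b :=
    ⟨min a b / 2, by positivity, by linarith [min_le_left a b, lt_min ha hb],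
      by linarith [min_le_right a b, lt_min ha hb]⟩
  obtain ⟨Z, hZ0, hZk, hF⟩ := hFa h hh hha
  have hZ1 : (Z : Set (E n)).Nonempty := hZ0
  obtain ⟨χ0, χ1, m0, m1, b0, b1, hsq, hs0, hs1', hT⟩ :=
    h4 (fun x => infDist x (Z : Set (E n))) (13 * r) r (continuous_infDist_pt _) (fun x y => by
      have f1 := infDist_le_infDist_add_dist (x := x) (y := y) (s := (Z : Set (E n)))
      have f2 := infDist_le_infDist_add_dist (x := y) (y := x) (s := (Z : Set (E n)))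
      rw [dist_comm y x] at f2
      rw [← dist_eq_norm, abs_le]
      constructor <;> linarith) hr
  obtain ⟨ι, hι, ψ, hcard, hψ, hψ'⟩ := hBb h hh hhb Z (13 * r + r) M0 (by
    have e1 : 28 * n * q * d ≤ M0 * d := mul_le_mul_of_nonneg_right hM0 hd0.le
    rw [hrd]
    linarith)
  refine ⟨ι, hι, fun i x => χ0 x * ψ i x, ?_,
    fun i => (hψ i).mul m0 ⟨1, b0⟩, fun u hu hsu ho => ?_⟩
  · rw [mul_comm]
    exact hcard.trans (Nat.mul_le_mul_right _ (by omega))
  have hua := hu.adm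
  have a0 : Adm fun x => χ0 x * u x := hua.mul m0 ⟨1, b0⟩
  have a1 : Adm fun x => χ1 x * u x := hua.mul m1 ⟨1, b1⟩
  have hs : 0 < sg n * h ^ 2 := mul_pos hM.1 (by positivity)
  have e0 := hψ' _ a0
    (fun x hx => ⟨hsu (right_ne_zero_of_mul hx),
      (infDist_lt_iff hZ1).1 (hs0 x (left_ne_zero_of_mul hx))⟩)
    (fun i => by
      rw [← ho i]
      exact integral_congr_ae (Eventually.of_forall fun x => by simp only; ring))
  have e1 := hL r h hr hh _ a1 (sg n * h ^ 2 * (nu Ω k + δ / 4)) fun c' v hv hsv => by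
    rcases (support v).eq_empty_or_nonempty with he | ⟨x, hx⟩
    · rw [support_eq_empty_iff] at he
      have : N2 v = 0 := by simp [N2, he]
      rw [this, mul_zero]
      exact Df_nonneg hh v
    · refine hF c' (fun z hz => ?_) v hv fun y hy => ⟨core_subset Ω hη (hsu (right_ne_zero_of_mul (hsv hy).1)),
        (hsv hy).2⟩
      have f1 := hs1' x (left_ne_zero_of_mul (hsv hx).1)
      have f2 : dist x c' < r := (hsv hx).2
      have f3 := dist_triangle x c' z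
      have f4 : infDist x (Z : Set (E n)) ≤ dist x z := infDist_le_dist_of_mem hz
      linarith
  have e2 := hT h hh u hua
  have e3 := h5 h hh u hu.1 hu.2.1
  have e4 : N2 (fun x => χ0 x * u x) + N2 (fun x => χ1 x * u x) = N2 u := by
    unfold N2
    rw [← integral_add a0.int_sq a1.int_sq]
    refine integral_congr_ae (Eventually.of_forall fun x => ?_)
    simp only
    linear_combination u x ^ 2 * hsq x
  have n0 := N2_nonneg fun x => χ0 x * u x
  have n1 := N2_nonneg fun x => χ1 x * u x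
  rw [hcd] at e0
  rw [← e4] at e2 ⊢
  generalize N2 (fun x => χ0 x * u x) = p0 at *
  generalize N2 (fun x => χ1 x * u x) = p1 at *
  generalize sg n * h ^ 2 = s at *
  have g1 : C1 * s / r ^ 2 * p1 ≤ s * (δ / 16) * p1 := by
    refine mul_le_mul_of_nonneg_right ?_ n1
    rw [mul_comm C1, mul_div_assoc]
    exact mul_le_mul_of_nonneg_left hs1 hs.le
  have g2 : 4 * n * s / r ^ 2 * (p0 + p1) ≤ s * (δ / 16) * (p0 + p1) := by
    refine mul_le_mul_of_nonneg_right ?_ (add_nonneg n0 n1)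
    rw [mul_comm (4 * (n : ℝ)), mul_div_assoc]
    exact mul_le_mul_of_nonneg_left hs2 hs.le
  have g3 : 0 ≤ s * δ * p0 := by positivity
  have g4 : nu Ω 0 = nu Ω k - δ := by linarith
  rw [g4] at e0
  refine le_of_mul_le_mul_left ?_ hs
  nlinarith

theorem gap0_pf {n : ℕ} {τ : ℝ} (hM : Mom n τ) (h3 : S_Box n) (h5 : S_Cmp n) (h6 : S_Lo n) :
    S_Gap0 n := by
  obtain ⟨c, hc, hB⟩ := h3
  refine ⟨(2 * n + 1) ^ n, fun Ω hΩ => ?_⟩
  obtain ⟨D, hD, hsub⟩ := hΩ.2.2.1.subset_ball_lt 0 (0 : E n)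
  have hθ : 0 < c / (2 * D ^ 2) := by positivity
  refine lt_of_lt_of_le (lt_add_of_pos_right _ hθ) (h6 Ω hΩ.1 hΩ.2.2.2 _ _ fun η hη => ?_)
  obtain ⟨b, hb, hBb⟩ := hB Ω hΩ D η (c / (2 * D ^ 2)) hD hη hθ
  have hh : 0 < b / 2 := by positivity
  obtain ⟨ι, hι, ψ, hcard, hψ, hψ'⟩ :=
    hBb (b / 2) hh (by linarith) {0} D (2 * n) (by push_cast; linarith)
  refine ⟨ι, hι, ψ, by simpa using hcard, hψ, fun u hu hsu ho => ?_⟩
  have e0 := hψ' u hu.adm (fun x hx => ⟨hsu hx, 0, Finset.mem_singleton_self _,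
    hsub (core_subset Ω hη (hsu hx))⟩) ho
  have e3 := h5 _ hh u hu.1 hu.2.1
  have hs : 0 < sg n * (b / 2) ^ 2 := mul_pos hM.1 (by positivity)
  have e1 : nu Ω 0 - c / (2 * D ^ 2) + c / D ^ 2 = nu Ω 0 + c / (2 * D ^ 2) := by
    field_simp; ring
  rw [e1, mul_assoc] at e0
  exact le_of_mul_le_mul_left (e0.trans e3) hs

end Pool.Agent.MP_92c74b_an.Cv

end

section
set_option autoImplicit false
namespace Pool.Agent.MP_92c74b_an.Cv
open MeasureTheory Filter Topology Metric Function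
open scoped ContDiff

section MainCv

theorem main_of {n : ℕ} (h1 : S_Gap n) (h2 : S_Gap0 n) (h3 : S_Mono n) :
    ∃ C : ℕ, ∀ Ω : Set (E n), Cvx Ω → ∀ k : ℕ,
      9 / 8 * (nu Ω k - nu Ω 0) ≤ nu Ω (C * (k + 1)) - nu Ω 0 ∧
      ∀ S : Finset ℕ, (∀ j ∈ S, nu Ω j = nu Ω k) → S.card ≤ C * (k + 1) := by
  obtain ⟨C1, h1⟩ := h1
  obtain ⟨C0, h2⟩ := h2
  refine ⟨C1 + C0, fun Ω hΩ k => ?_⟩
  have hm := (h3 Ω hΩ.1 hΩ.2.2.2).1
  have hp : 1 ≤ k + 1 := Nat.succ_pos k
  have e1 : C1 * (k + 1) ≤ (C1 + C0) * (k + 1) := Nat.mul_le_mul_right _ (by omega)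
  have e0 : C0 ≤ (C1 + C0) * (k + 1) :=
    (Nat.le_add_left C0 C1).trans (Nat.le_mul_of_pos_right _ hp)
  have key : 9 / 8 * (nu Ω k - nu Ω 0) ≤ nu Ω ((C1 + C0) * (k + 1)) - nu Ω 0 ∧
      nu Ω k < nu Ω ((C1 + C0) * (k + 1)) := by
    rcases (hm (Nat.zero_le k)).lt_or_eq with h | h
    · have a1 := h1 Ω hΩ k h
      have a2 := hm e1
      constructor <;> linarith
    · have a1 := h2 Ω hΩ
      have a2 := hm e0
      constructor <;> linarith
  refine ⟨key.1, fun S hS => ?_⟩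
  have hsub : S ⊆ Finset.range ((C1 + C0) * (k + 1)) := by
    intro j hj
    rw [Finset.mem_range]
    by_contra hcon
    have := hm (not_lt.1 hcon)
    rw [hS j hj] at this
    exact absurd key.2 (not_lt.2 this)
  simpa using Finset.card_le_card hsub

end MainCv

theorem main_cv {n : ℕ} (hn : 0 < n) :
    ∃ C : ℕ, ∀ Ω : Set (E n), Cvx Ω → ∀ k : ℕ,
      9 / 8 * (nu Ω k - nu Ω 0) ≤ nu Ω (C * (k + 1)) - nu Ω 0 ∧
      ∀ S : Finset ℕ, (∀ j ∈ S, nu Ω j = nu Ω k) → S.card ≤ C * (k + 1) := by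
  obtain ⟨τ, hM⟩ := mom_pf hn
  have hPhi : S_Phi n := phi_pf
  have hPt : S_Pt n := pt_pf
  have hSch : S_Sch n := sch_pf hM
  have hCmp : S_Cmp n := cmp_pf hM
  have hLC : S_LC n := lc_pf pl_pf hPhi
  have hBirk : S_Birk n := birk_pf hPhi
  have hGS : S_GS n := gs_pf
  have hRay : S_Ray n := ray_pf hPhi hGS
  have hGE : S_GE n := ge_pf hPt
  have hConv : S_Conv n := conv_pf hM (tr_pf hPt hGE) molA_pf molB_pf (tay_pf hM) dil_pf
  have hUp : S_Up n := up_pf
  have hEx : S_Ex n := ex_pf hn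
  have hBdd : S_Bdd n := bdd_pf
  have hLo : S_Lo n := lo_pf hEx hBdd
  have hMono : S_Mono n := mono_pf hEx hBdd
  have hBox : S_Box n := box_pf hM hBirk hPhi hLC hGS (chain_pf hPt poin_pf) hGE cube_pf
    (rho_pf hM hRay hConv hUp)
  have hFar : S_Far n :=
    far_pf hM (farA_pf hM hBirk hRay (bm_pf hPhi hLC) hConv) hUp hMono hCmp
  exact main_of (gap_pf hM (loc_pf chi_pf hSch) hFar hBox (two_pf hSch) hCmp hLo)
    (gap0_pf hM hBox hCmp hLo) hMono

end Pool.Agent.MP_92c74b_an.Cv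

end
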