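import Mathlib
import Pool.Agent.Mg.F5f4cdd.G7fc77a

set_option autoImplicit false

namespace Pool.Agent.MP_92c74b_an.Cv

open MeasureTheory Filter Topology Metric Function
open scoped ContDiff

noncomputable section

abbrev E (n : ℕ) := EuclideanSpace ℝ (Fin n)

variable {n : ℕ}

def N2 (u : E n → ℝ) : ℝ := ∫ x, u x ^ 2
def Q (u : E n → ℝ) : ℝ := ∫ x, ‖fderiv ℝ u x‖ ^ 2
def TF (Ω : Set (E n)) (f : E n → ℝ) : Prop :=
  ContDiff ℝ ∞ f ∧ HasCompactSupport f ∧ tsupport f ⊆ Ω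
def rayS (V : Submodule ℝ (E n → ℝ)) : Set ℝ :=
  (fun f : E n → ℝ => Q f / N2 f) '' {f | f ∈ V ∧ f ≠ 0}
def nu (Ω : Set (E n)) (j : ℕ) : ℝ :=
  sInf ((fun V : Submodule ℝ (E n → ℝ) => sSup (rayS V)) ''
    {V : Submodule ℝ (E n → ℝ) | Module.finrank ℝ V = j + 1 ∧ ∀ f ∈ V, TF Ω f})
/-- bounded convex domains -/
def Cvx (Ω : Set (E n)) : Prop := IsOpen Ω ∧ Convex ℝ Ω ∧ Bornology.IsBounded Ω ∧ Ω.Nonempty
def core (Ω : Set (E n)) (η : ℝ) : Set (E n) := {x | ball x η ⊆ Ω}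

def Zc (n : ℕ) (h : ℝ) : ℝ := ∫ z : E n, Real.exp (-‖z‖ / h)
/-- the probability kernel at scale `h` -/
def Kr (h : ℝ) (z : E n) : ℝ := Real.exp (-‖z‖ / h) / Zc n h
def sg (n : ℕ) : ℝ := (∫ z : E n, Kr 1 z * ‖z‖ ^ 2) / n
def Adm (u : E n → ℝ) : Prop :=
  Measurable u ∧ (∃ B, ∀ x, |u x| ≤ B) ∧ Bornology.IsBounded (support u)
def Bf (h : ℝ) (u : E n → ℝ) : ℝ := ∫ p : E n × E n, Kr h (p.1 - p.2) * (u p.1 * u p.2)
def Df (h : ℝ) (u : E n → ℝ) : ℝ := ∫ p : E n × E n, Kr h (p.1 - p.2) * (u p.1 - u p.2) ^ 2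
def En (h : ℝ) (K : Set (E n)) (φ v : E n → ℝ) : ℝ :=
  ∫ p in K ×ˢ K, Kr h (p.1 - p.2) * (φ p.1 * φ p.2) * (v p.1 - v p.2) ^ 2
/-- iterates of the killed kernel operator on the constant one -/
def phi (h : ℝ) (K : Set (E n)) : ℕ → E n → ℝ
  | 0 => fun _ => 1
  | m + 1 => fun x => ∫ y in K, Kr h (x - y) * phi h K m y
def IsRho (h : ℝ) (K : Set (E n)) (ρ : ℝ) : Prop :=
  0 < ρ ∧ ∀ ε : ℝ, 0 < ε → ∀ᶠ m in atTop, ∀ x ∈ K,
    (1 - ε) * ρ * phi h K m x ≤ phi h K (m + 1) x ∧ phi h K (m + 1) x ≤ (1 + ε) * ρ * phi h K m x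
/-- measurable bounded sets of positive volume -/
def Fat (K : Set (E n)) : Prop := MeasurableSet K ∧ Bornology.IsBounded K ∧ 0 < volume K
def LogC (w : E n → ℝ) : Prop :=
  ∀ (x y : E n) (t : ℝ), 0 < t → t < 1 → w x ^ (1 - t) * w y ^ t ≤ w ((1 - t) • x + t • y)
def LogL (h : ℝ) (φ : E n → ℝ) : Prop := ∀ x y, Real.exp (-‖x - y‖ / h) * φ x ≤ φ y
def Gv (h : ℝ) (v : E n → ℝ) (a : E n) : ℝ :=
  (∫ b in ball a (2 * h), (v a - v b) ^ 2) / (volume (ball (0 : E n) h)).toReal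
def mol (ψ u : E n → ℝ) (x : E n) : ℝ := ∫ y, ψ (x - y) * u y
def Mom (n : ℕ) (τ : ℝ) : Prop :=
  0 < sg n ∧ 0 ≤ τ ∧ ∀ h : ℝ, 0 < h →
    (∀ L : E n →L[ℝ] ℝ, ∫ z, Kr h z * L z ^ 2 = sg n * h ^ 2 * ‖L‖ ^ 2) ∧
    ∫ z : E n, Kr h z * ‖z‖ ^ 2 = n * sg n * h ^ 2 ∧ ∫ z : E n, Kr h z * ‖z‖ ^ 4 ≤ τ * h ^ 4
def LocP (n : ℕ) (C : ℝ) : Prop :=
  ∀ r h : ℝ, 0 < r → 0 < h → ∀ u : E n → ℝ, Adm u → ∀ A : ℝ,
    (∀ (c : E n) (v : E n → ℝ), Adm v → support v ⊆ support u ∩ ball c r → A * N2 v ≤ Df h v) →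
    (A - C * (sg n * h ^ 2) / r ^ 2) * N2 u ≤ Df h u

/-! ### Statements -/

def S_Mom (n : ℕ) : Prop := ∃ τ, Mom n τ

def S_Cmp (n : ℕ) : Prop :=
  ∀ h : ℝ, 0 < h → ∀ u : E n → ℝ, ContDiff ℝ ∞ u → HasCompactSupport u →
    Df h u ≤ sg n * h ^ 2 * Q u

def S_Sch (n : ℕ) : Prop :=
  ∀ h : ℝ, 0 < h → ∀ u : E n → ℝ, Adm u →
    Integrable (fun p : E n × E n => Kr h (p.1 - p.2) * ‖p.1 - p.2‖ ^ 2 * (|u p.1| * |u p.2|)) ∧
    ∫ p : E n × E n, Kr h (p.1 - p.2) * ‖p.1 - p.2‖ ^ 2 * (|u p.1| * |u p.2|) ≤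
      n * sg n * h ^ 2 * N2 u

def S_Two (n : ℕ) : Prop :=
  ∀ (f : E n → ℝ) (R r : ℝ), Continuous f → (∀ x y, |f x - f y| ≤ ‖x - y‖) → 0 < r →
    ∃ χ0 χ1 : E n → ℝ, Measurable χ0 ∧ Measurable χ1 ∧
    (∀ x, |χ0 x| ≤ 1) ∧ (∀ x, |χ1 x| ≤ 1) ∧ (∀ x, χ0 x ^ 2 + χ1 x ^ 2 = 1) ∧
    (∀ x ∈ support χ0, f x < R + r) ∧ (∀ x ∈ support χ1, R ≤ f x) ∧
    ∀ h : ℝ, 0 < h → ∀ u : E n → ℝ, Adm u →
      Df h (fun x => χ0 x * u x) + Df h (fun x => χ1 x * u x) ≤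
        Df h u + 4 * n * (sg n * h ^ 2) / r ^ 2 * N2 u

def S_Chi (n : ℕ) : Prop :=
  ∃ C : ℝ, 0 ≤ C ∧ ∀ r : ℝ, 0 < r → ∃ χ : E n → ℝ, Adm χ ∧ support χ ⊆ ball 0 r ∧ N2 χ = 1 ∧
    ∀ x y : E n, ∫ c, (χ (x - c) - χ (y - c)) ^ 2 ≤ C * ‖x - y‖ ^ 2 / r ^ 2

def S_Loc (n : ℕ) : Prop := ∃ C : ℝ, 0 ≤ C ∧ LocP n C

def S_Phi (n : ℕ) : Prop :=
  ∀ h : ℝ, 0 < h → ∀ K : Set (E n), MeasurableSet K → ∀ m : ℕ,
    Continuous (phi h K m) ∧ (∀ x, 0 ≤ phi h K m x) ∧ (∀ x, phi h K m x ≤ 1) ∧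
    (0 < volume K → ∀ x, 0 < phi h K m x) ∧ LogL h (phi h K m)

def S_Birk (n : ℕ) : Prop := ∀ h : ℝ, 0 < h → ∀ K : Set (E n), Fat K → ∃ ρ, IsRho h K ρ

def S_PL (n : ℕ) : Prop :=
  ∀ t : ℝ, 0 < t → t < 1 → ∀ f g k : E n → ℝ, Measurable f → Measurable g → Measurable k →
    (∀ x, 0 ≤ f x) → (∀ x, 0 ≤ g x) → (∀ x, 0 ≤ k x) → Integrable f → Integrable g → Integrable k →
    (∀ x y, f x ^ (1 - t) * g y ^ t ≤ k ((1 - t) • x + t • y)) →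
    (∫ x, f x) ^ (1 - t) * (∫ x, g x) ^ t ≤ ∫ x, k x

def S_LC (n : ℕ) : Prop :=
  ∀ h : ℝ, 0 < h → ∀ K0 K1 K2 : Set (E n), MeasurableSet K0 → MeasurableSet K1 →
    MeasurableSet K2 → ∀ t : ℝ, 0 < t → t < 1 →
    (∀ x ∈ K0, ∀ y ∈ K1, (1 - t) • x + t • y ∈ K2) → ∀ (m : ℕ) (x y : E n),
      phi h K0 m x ^ (1 - t) * phi h K1 m y ^ t ≤ phi h K2 m ((1 - t) • x + t • y)

def S_BM (n : ℕ) : Prop :=
  ∀ h : ℝ, 0 < h → ∀ K0 K1 K2 : Set (E n), Fat K0 → Fat K1 → Fat K2 → ∀ t : ℝ, 0 < t → t < 1 →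
    (∀ x ∈ K0, ∀ y ∈ K1, (1 - t) • x + t • y ∈ K2) → ∀ ρ0 ρ1 ρ2 : ℝ,
      IsRho h K0 ρ0 → IsRho h K1 ρ1 → IsRho h K2 ρ2 → ρ0 ^ (1 - t) * ρ1 ^ t ≤ ρ2

def S_GS (n : ℕ) : Prop :=
  ∀ h : ℝ, 0 < h → ∀ K : Set (E n), MeasurableSet K → ∀ (φ : E n → ℝ) (ρ : ℝ), Continuous φ →
    (∀ x, 0 < φ x) → (∀ x, φ x ≤ 1) → (∀ x ∈ K, ∫ y in K, Kr h (x - y) * φ y ≤ ρ * φ x) →
    ∀ u : E n → ℝ, Adm u → support u ⊆ K →
      Adm (fun x => u x / φ x) ∧ 0 ≤ En h K φ (fun x => u x / φ x) ∧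
      Bf h u + 1 / 2 * En h K φ (fun x => u x / φ x) ≤ ρ * N2 u

def S_Ray (n : ℕ) : Prop :=
  ∀ h : ℝ, 0 < h → ∀ K : Set (E n), Fat K → ∀ ρ : ℝ, IsRho h K ρ →
    (∀ u : E n → ℝ, Adm u → support u ⊆ K → Bf h u ≤ ρ * N2 u) ∧
    ∀ ε : ℝ, 0 < ε → ∃ u : E n → ℝ, Adm u ∧ support u ⊆ K ∧ 0 < N2 u ∧
      (1 - ε) * ρ * N2 u ≤ Bf h u

def S_Pt (n : ℕ) : Prop :=
  ∀ h : ℝ, 0 < h → ∀ v : E n → ℝ, Measurable v → (∃ B, ∀ x, |v x| ≤ B) →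
    Measurable (Gv h v) ∧ (∀ a, 0 ≤ Gv h v a) ∧ (∃ B, ∀ a, Gv h v a ≤ B) ∧
    ∀ (m : ℕ) (x y : E n), 1 ≤ m → ‖y - x‖ ≤ m * h →
      (v x - v y) ^ 2 ≤ 4 * m * ∑ j ∈ Finset.range (m + 1), Gv h v (x + ((j : ℝ) / m) • (y - x))

def S_Poin (n : ℕ) : Prop :=
  ∀ P : Set (E n), Convex ℝ P → MeasurableSet P → Bornology.IsBounded P →
    ∀ w G : E n → ℝ, Measurable w → (∀ x, 0 ≤ w x) → (∀ x, w x ≤ 1) → LogC w →
      Measurable G → (∀ x, 0 ≤ G x) → (∃ B, ∀ x, G x ≤ B) → ∀ t : ℝ, 0 ≤ t → t ≤ 1 →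
      ∫ x in P, ∫ y in P, w x * w y * G (x + t • (y - x)) ≤
        2 * 4 ^ n * (∫ x in P, w x) * ∫ x in P, w x * G x

def S_Chain (n : ℕ) : Prop :=
  ∃ C : ℝ, 0 < C ∧ ∀ P : Set (E n), Convex ℝ P → MeasurableSet P →
    ∀ w v : E n → ℝ, Measurable w → (∀ x, 0 ≤ w x) → (∀ x, w x ≤ 1) → LogC w →
      Measurable v → (∃ B, ∀ x, |v x| ≤ B) → ∀ h d : ℝ, 0 < h → h ≤ d →
      (∀ x ∈ P, ∀ y ∈ P, dist x y ≤ d) → ∫ x in P, w x * v x = 0 →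
      ∫ x in P, w x * v x ^ 2 ≤ C * (d ^ 2 / h ^ 2) * ∫ x in P, w x * Gv h v x

def S_GE (n : ℕ) : Prop :=
  ∃ C : ℝ, 0 < C ∧ ∀ h : ℝ, 0 < h → ∀ K' K : Set (E n), MeasurableSet K' → MeasurableSet K →
    (∀ a ∈ K', ball a (2 * h) ⊆ K) → ∀ φ v : E n → ℝ, Measurable φ → (∀ x, 0 ≤ φ x) →
    (∀ x, φ x ≤ 1) → LogL h φ → Adm v →
      IntegrableOn (fun a => φ a ^ 2 * Gv h v a) K' ∧
      ∫ a in K', φ a ^ 2 * Gv h v a ≤ C * En h K φ v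

def S_Tr (n : ℕ) : Prop :=
  ∃ C : ℝ, 0 ≤ C ∧ ∀ h : ℝ, 0 < h → ∀ u : E n → ℝ, Adm u → ∀ z : E n,
    N2 (fun x => u (x - z) - u x) ≤ C * (‖z‖ ^ 2 / h ^ 2 + 1) * Df h u

def S_MolA (n : ℕ) : Prop :=
  ∀ (ψ : E n → ℝ) (ε : ℝ), 0 < ε → ContDiff ℝ ∞ ψ → support ψ ⊆ closedBall 0 ε →
    ∃ A : ℝ, 0 ≤ A ∧ ∀ u : E n → ℝ, Adm u →
      ContDiff ℝ ∞ (mol ψ u) ∧ HasCompactSupport (mol ψ u) ∧
      tsupport (mol ψ u) ⊆ cthickening ε (support u) ∧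
      ∀ x y, ‖fderiv ℝ (mol ψ u) x - fderiv ℝ (mol ψ u) y‖ ≤ A * (∫ z, |u z|) * ‖x - y‖

def S_MolB (n : ℕ) : Prop :=
  ∀ (ψ : E n → ℝ) (ε : ℝ), Continuous ψ → support ψ ⊆ closedBall 0 ε → (∀ x, 0 ≤ ψ x) →
    ∫ x, ψ x = 1 → ∀ u : E n → ℝ, Adm u → Adm (mol ψ u) →
      (∀ h : ℝ, 0 < h → Df h (mol ψ u) ≤ Df h u) ∧
      ∀ B : ℝ, (∀ z : E n, ‖z‖ ≤ ε → N2 (fun x => u (x - z) - u x) ≤ B) →
        N2 (fun x => mol ψ u x - u x) ≤ B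

def S_Tay (n : ℕ) (τ : ℝ) : Prop :=
  ∀ U : E n → ℝ, ContDiff ℝ ∞ U → HasCompactSupport U → ∀ A θ h : ℝ, 0 ≤ A → 0 < θ → 0 < h →
    (∀ x y, ‖fderiv ℝ U x - fderiv ℝ U y‖ ≤ A * ‖x - y‖) →
    sg n * h ^ 2 * Q U ≤
      (1 + θ) * Df h U + (1 + 1 / θ) * A ^ 2 * (τ * h ^ 4) * (volume (tsupport U)).toReal

def S_Dil (n : ℕ) : Prop :=
  ∀ Ω : Set (E n), Cvx Ω → ∀ η : ℝ, 0 < η → ∃ ε : ℝ, 0 < ε ∧
    ∀ U : E n → ℝ, ContDiff ℝ ∞ U → HasCompactSupport U → tsupport U ⊆ cthickening ε Ω →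
      ∃ (U' : E n → ℝ) (c : ℝ), TF Ω U' ∧ 0 < c ∧ N2 U' = c * N2 U ∧ Q U' ≤ (1 + η) * c * Q U ∧
        ∀ x ∈ tsupport U', ∃ y ∈ tsupport U, dist x y ≤ η

def S_Conv (n : ℕ) : Prop :=
  ∀ Ω : Set (E n), Cvx Ω → ∀ Λ η : ℝ, 0 < η → ∃ h0 : ℝ, 0 < h0 ∧ ∀ h : ℝ, 0 < h → h < h0 →
    ∀ (u : E n → ℝ) (l : ℝ), Adm u → support u ⊆ Ω → 0 < N2 u → l ≤ Λ →
      Df h u ≤ sg n * h ^ 2 * l * N2 u →
      ∃ U : E n → ℝ, TF Ω U ∧ U ≠ 0 ∧ Q U ≤ (l + η) * N2 U ∧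
        ∀ x ∈ tsupport U, ∃ y ∈ support u, dist x y ≤ η

def S_Cube (n : ℕ) : Prop :=
  ∀ (Z : Finset (E n)) (R d : ℝ) (M : ℕ), 0 < d → 2 * R * n ≤ M * d →
    ∃ (ι : Type) (_ : Fintype ι) (P : ι → Set (E n)), Fintype.card ι ≤ Z.card * (M + 1) ^ n ∧
      (∀ i, Convex ℝ (P i)) ∧ (∀ i, MeasurableSet (P i)) ∧
      Pairwise (Disjoint on P) ∧ (∀ i, ∀ x ∈ P i, ∀ y ∈ P i, dist x y ≤ d) ∧
      ∀ c ∈ Z, ball c R ⊆ ⋃ i, P i

def S_Ex (n : ℕ) : Prop :=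
  ∀ Ω : Set (E n), IsOpen Ω → Ω.Nonempty → ∀ j : ℕ,
    ∃ V : Submodule ℝ (E n → ℝ), Module.finrank ℝ V = j + 1 ∧ ∀ f ∈ V, TF Ω f

def S_Bdd (n : ℕ) : Prop :=
  ∀ (Ω : Set (E n)) (j : ℕ) (V : Submodule ℝ (E n → ℝ)), Module.finrank ℝ V = j + 1 →
    (∀ f ∈ V, TF Ω f) → BddAbove (rayS V)

def S_Up (n : ℕ) : Prop :=
  ∀ (Ω : Set (E n)) (k : ℕ) (l : ℝ) (U : Fin (k + 1) → E n → ℝ), (∀ i, TF Ω (U i)) →
    (∀ i, U i ≠ 0) → (∀ i j, i ≠ j → Disjoint (tsupport (U i)) (tsupport (U j))) →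
    (∀ i, Q (U i) ≤ l * N2 (U i)) → nu Ω k ≤ l

def S_Lo (n : ℕ) : Prop :=
  ∀ Ω : Set (E n), IsOpen Ω → Ω.Nonempty → ∀ (N : ℕ) (l : ℝ),
    (∀ η : ℝ, 0 < η → ∃ (ι : Type) (_ : Fintype ι) (ψ : ι → E n → ℝ), Fintype.card ι ≤ N ∧
      (∀ i, Adm (ψ i)) ∧ ∀ u : E n → ℝ, TF Ω u → support u ⊆ core Ω η →
        (∀ i, ∫ x, u x * ψ i x = 0) → l * N2 u ≤ Q u) →
    l ≤ nu Ω N

def S_Mono (n : ℕ) : Prop :=
  ∀ Ω : Set (E n), IsOpen Ω → Ω.Nonempty → Monotone (nu Ω) ∧ 0 ≤ nu Ω 0 ∧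
    ∀ η : ℝ, 0 < η → ∃ U : E n → ℝ, TF Ω U ∧ U ≠ 0 ∧ Q U ≤ (nu Ω 0 + η) * N2 U

def S_Rho (n : ℕ) : Prop :=
  ∀ Ω : Set (E n), Cvx Ω → ∀ η : ℝ, 0 < η → ∃ h0 : ℝ, 0 < h0 ∧ ∀ h : ℝ, 0 < h → h < h0 →
    ∀ ρ : ℝ, IsRho h Ω ρ → ρ ≤ 1 - sg n * h ^ 2 / 2 * (nu Ω 0 - η)

def S_Box (n : ℕ) : Prop :=
  ∃ c : ℝ, 0 < c ∧ ∀ Ω : Set (E n), Cvx Ω → ∀ d η θ : ℝ, 0 < d → 0 < η → 0 < θ →
    ∃ h0 : ℝ, 0 < h0 ∧ ∀ h : ℝ, 0 < h → h < h0 → ∀ (Z : Finset (E n)) (R : ℝ) (M : ℕ),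
      2 * R * n ≤ M * d → ∃ (ι : Type) (_ : Fintype ι) (ψ : ι → E n → ℝ),
        Fintype.card ι ≤ Z.card * (M + 1) ^ n ∧ (∀ i, Adm (ψ i)) ∧
        ∀ u : E n → ℝ, Adm u → (∀ x ∈ support u, x ∈ core Ω η ∧ ∃ c ∈ Z, x ∈ ball c R) →
          (∀ i, ∫ x, u x * ψ i x = 0) →
          sg n * h ^ 2 * (nu Ω 0 - θ + c / d ^ 2) * N2 u ≤ Df h u

/-- a low energy ball exists; two low energy balls give test functions in between -/
def S_FarA (n : ℕ) : Prop :=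
  ∀ Ω : Set (E n), Cvx Ω → ∀ a b r η : ℝ, 0 ≤ a → a ≤ b → 0 < r → 0 < η →
    ∃ h0 : ℝ, 0 < h0 ∧ ∀ h : ℝ, 0 < h → h < h0 → ∀ (c0 c1 : E n) (v0 v1 : E n → ℝ),
      Adm v0 → Adm v1 → support v0 ⊆ Ω ∩ ball c0 r → support v1 ⊆ Ω ∩ ball c1 r →
      Df h v0 < sg n * h ^ 2 * a * N2 v0 → Df h v1 < sg n * h ^ 2 * b * N2 v1 →
      ∀ t : ℝ, 0 < t → t < 1 → ∃ U : E n → ℝ, TF Ω U ∧ U ≠ 0 ∧
        Q U ≤ ((1 - t) * a + t * b + η) * N2 U ∧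
        tsupport U ⊆ ball ((1 - t) • c0 + t • c1) (r + η)

def S_Far (n : ℕ) : Prop :=
  ∀ C : ℝ, LocP n C → ∀ Ω : Set (E n), Cvx Ω → ∀ (k : ℕ) (δ r : ℝ), δ = nu Ω k - nu Ω 0 →
    0 < δ → 0 < r → C / r ^ 2 ≤ δ / 16 →
    ∃ h0 : ℝ, 0 < h0 ∧ ∀ h : ℝ, 0 < h → h < h0 → ∃ Z : Finset (E n), Z.Nonempty ∧ Z.card ≤ k ∧
      ∀ c : E n, (∀ z ∈ Z, 12 * r ≤ dist c z) → ∀ v : E n → ℝ, Adm v → support v ⊆ Ω ∩ ball c r →
        sg n * h ^ 2 * (nu Ω k + δ / 4) * N2 v ≤ Df h v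

def S_Gap (n : ℕ) : Prop :=
  ∃ C : ℕ, ∀ Ω : Set (E n), Cvx Ω → ∀ k : ℕ, nu Ω 0 < nu Ω k →
    nu Ω k + (nu Ω k - nu Ω 0) / 8 ≤ nu Ω (C * (k + 1))

def S_Gap0 (n : ℕ) : Prop := ∃ C : ℕ, ∀ Ω : Set (E n), Cvx Ω → nu Ω 0 < nu Ω C

/-! ### Toolbox -/

theorem int_exp_pow {h : ℝ} (hh : 0 < h) (j : ℕ) :
    Integrable (fun z : E n => Real.exp (-‖z‖ / h) * ‖z‖ ^ j) := by
  have hr : (Module.finrank ℝ (E n) : ℝ) < ((n + 1 : ℕ) : ℝ) := by simp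
  refine ((integrable_one_add_norm (μ := volume) hr).const_mul
    (Real.exp (1 / h) * (j + (n + 1)).factorial * h ^ (j + (n + 1)))).mono' (by fun_prop)
    (Eventually.of_forall fun z => ?_)
  have h0 : 0 ≤ ‖z‖ := norm_nonneg z
  have h1 : 0 < 1 + ‖z‖ := by linarith
  have h2 := Real.pow_div_factorial_le_exp ((1 + ‖z‖) / h) (by positivity) (j + (n + 1))
  have h3 : ‖z‖ ^ j ≤ (1 + ‖z‖) ^ j := pow_le_pow_left₀ h0 (by linarith) j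
  have h4 : Real.exp ((1 + ‖z‖) / h) * Real.exp (-‖z‖ / h) = Real.exp (1 / h) := by
    rw [← Real.exp_add]; congr 1; ring
  have h5 : (0 : ℝ) < (j + (n + 1)).factorial := by exact_mod_cast Nat.factorial_pos _
  rw [Real.norm_of_nonneg (by positivity), Real.rpow_neg h1.le, Real.rpow_natCast,
    ← div_eq_mul_inv, le_div_iff₀ (by positivity), ← h4]
  rw [div_le_iff₀ h5, div_pow, div_le_iff₀ (by positivity), pow_add] at h2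
  have h6 := Real.exp_pos (-‖z‖ / h)
  calc Real.exp (-‖z‖ / h) * ‖z‖ ^ j * (1 + ‖z‖) ^ (n + 1)
      ≤ Real.exp (-‖z‖ / h) * ((1 + ‖z‖) ^ j * (1 + ‖z‖) ^ (n + 1)) := by
        rw [mul_assoc]; gcongr
    _ ≤ Real.exp (-‖z‖ / h) * (Real.exp ((1 + ‖z‖) / h) * (j + (n + 1)).factorial *
          h ^ (j + (n + 1))) := by gcongr
    _ = _ := by ring

theorem int_exp {h : ℝ} (hh : 0 < h) : Integrable (fun z : E n => Real.exp (-‖z‖ / h)) := by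
  simpa using int_exp_pow (n := n) hh 0

theorem Zc_pos {h : ℝ} (hh : 0 < h) : 0 < Zc n h :=
  integral_exp_pos (int_exp hh)

theorem Zc_scale {h : ℝ} (hh : 0 < h) : Zc n h = h ^ n * Zc n 1 := by
  have := Measure.integral_comp_inv_smul (volume : Measure (E n))
    (fun z : E n => Real.exp (-‖z‖ / 1)) h
  rw [Zc, Zc]
  simp only [finrank_euclideanSpace_fin, abs_of_pos (pow_pos hh n), smul_eq_mul] at this
  rw [← this]
  refine integral_congr_ae (Eventually.of_forall fun z => ?_)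
  simp only [norm_smul, norm_inv, Real.norm_of_nonneg hh.le]
  congr 1; field_simp

theorem Kr_pos {h : ℝ} (hh : 0 < h) (z : E n) : 0 < Kr h z := div_pos (Real.exp_pos _) (Zc_pos hh)

theorem Kr_le {h : ℝ} (hh : 0 < h) (z : E n) : Kr h z ≤ 1 / Zc n h := by
  refine div_le_div_of_nonneg_right (Real.exp_le_one_iff.2 ?_) (Zc_pos hh).le
  exact div_nonpos_of_nonpos_of_nonneg (neg_nonpos.2 (norm_nonneg z)) hh.le

theorem Kr_neg (h : ℝ) (z : E n) : Kr h (-z) = Kr h z := by simp [Kr]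

theorem Kr_sub_comm (h : ℝ) (x y : E n) : Kr h (x - y) = Kr h (y - x) := by
  rw [← Kr_neg, neg_sub]

theorem Kr_cont (h : ℝ) : Continuous (Kr h : E n → ℝ) := by unfold Kr; fun_prop

theorem Kr_meas (h : ℝ) : Measurable (Kr h : E n → ℝ) := (Kr_cont h).measurable

theorem Kr_int_pow {h : ℝ} (hh : 0 < h) (j : ℕ) :
    Integrable (fun z : E n => Kr h z * ‖z‖ ^ j) := by
  refine ((int_exp_pow (n := n) hh j).div_const (Zc n h)).congr (Eventually.of_forall fun z => ?_)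
  simp only [Kr]; ring

theorem Kr_int {h : ℝ} (hh : 0 < h) : Integrable (Kr h : E n → ℝ) := (int_exp hh).div_const _

theorem Kr_one {h : ℝ} (hh : 0 < h) : ∫ z : E n, Kr h z = 1 := by
  simp only [Kr]
  rw [integral_div]
  exact div_self (Zc_pos hh).ne'

theorem Kr_logL {h : ℝ} (hh : 0 < h) : LogL h (Kr h : E n → ℝ) := by
  intro x y
  rw [Kr, Kr, ← mul_div_assoc, ← Real.exp_add]
  refine div_le_div_of_nonneg_right (Real.exp_le_exp.2 ?_) (Zc_pos hh).le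
  rw [← add_div]
  refine div_le_div_of_nonneg_right ?_ hh.le
  have := norm_sub_norm_le y x
  rw [norm_sub_rev y x] at this
  linarith

theorem pair_int2 {g a : E n → ℝ} (hg : Integrable g) (ha : Integrable a) :
    Integrable (fun p : E n × E n => g (p.1 - p.2) * a p.2) := by
  have := ha.convolution_integrand (ContinuousLinearMap.mul ℝ ℝ) hg
  exact this.congr (Eventually.of_forall fun p => by simp [mul_comm])

theorem pair_integral2 {g a : E n → ℝ} (hg : Integrable g) (ha : Integrable a) :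
    ∫ p : E n × E n, g (p.1 - p.2) * a p.2 = (∫ z, g z) * ∫ y, a y := by
  rw [Measure.volume_eq_prod, integral_prod_symm _ (pair_int2 hg ha)]
  simp only [integral_mul_const, integral_sub_right_eq_self, integral_const_mul]

theorem pair_int1 {g a : E n → ℝ} (hg : Integrable g) (ha : Integrable a) :
    Integrable (fun p : E n × E n => g (p.1 - p.2) * a p.1) := by
  have := (pair_int2 hg.comp_neg ha).swap
  exact this.congr (Eventually.of_forall fun p => by simp)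

theorem pair_integral1 {g a : E n → ℝ} (hg : Integrable g) (ha : Integrable a) :
    ∫ p : E n × E n, g (p.1 - p.2) * a p.1 = (∫ z, g z) * ∫ x, a x := by
  rw [Measure.volume_eq_prod, integral_prod _ (pair_int1 hg ha)]
  simp only [integral_mul_const, integral_sub_left_eq_self, integral_const_mul]

theorem Adm.integrable {u : E n → ℝ} (hu : Adm u) : Integrable u := by
  obtain ⟨h1, ⟨B, h2⟩, h3⟩ := hu
  rw [← integrableOn_iff_integrable_of_support_subset (subset_refl (support u))]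
  exact Measure.integrableOn_of_bounded h3.measure_lt_top.ne h1.aestronglyMeasurable
    (Eventually.of_forall h2)

/-- product of a bounded measurable function and an admissible one -/
theorem Adm.mul {χ u : E n → ℝ} (hu : Adm u) (h1 : Measurable χ) (h2 : ∃ B, ∀ x, |χ x| ≤ B) :
    Adm (fun x => χ x * u x) := by
  obtain ⟨B, h2⟩ := h2
  obtain ⟨h3, ⟨B', h4⟩, h5⟩ := hu
  refine ⟨h1.mul h3, ⟨B * B', fun x => ?_⟩, h5.subset (support_mul_subset_right _ _)⟩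
  rw [abs_mul]
  exact mul_le_mul (h2 x) (h4 x) (abs_nonneg _) ((abs_nonneg _).trans (h2 x))

theorem Adm.int_mul {u v : E n → ℝ} (hu : Adm u) (hv : Adm v) : Integrable (fun x => u x * v x) :=
  (hv.mul hu.1 hu.2.1).integrable

theorem Adm.int_sq {u : E n → ℝ} (hu : Adm u) : Integrable (fun x => u x ^ 2) := by
  simpa only [sq] using hu.int_mul hu

theorem Adm.sub {u v : E n → ℝ} (hu : Adm u) (hv : Adm v) : Adm (fun x => u x - v x) := by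
  obtain ⟨h1, ⟨B, h2⟩, h3⟩ := hu
  obtain ⟨h4, ⟨B', h5⟩, h6⟩ := hv
  exact ⟨h1.sub h4, ⟨B + B', fun x => (abs_sub _ _).trans (add_le_add (h2 x) (h5 x))⟩,
    (h3.union h6).subset (support_sub _ _)⟩

theorem Adm.shift {u : E n → ℝ} (hu : Adm u) (z : E n) : Adm (fun x => u (x - z)) := by
  obtain ⟨h1, ⟨B, h2⟩, h3⟩ := hu
  refine ⟨h1.comp (measurable_id.sub_const z), ⟨B, fun x => h2 _⟩, ?_⟩
  obtain ⟨R, hR⟩ := h3.exists_norm_le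
  refine isBounded_iff_forall_norm_le.2 ⟨R + ‖z‖, fun x hx => ?_⟩
  have := hR (x - z) hx
  linarith [norm_sub_norm_le x z]

theorem adm_of_cont {u : E n → ℝ} (h1 : Continuous u) (h2 : HasCompactSupport u) : Adm u := by
  obtain ⟨B, hB⟩ := h1.bounded_above_of_compact_support h2
  exact ⟨h1.measurable, ⟨B, hB⟩, h2.isCompact.isBounded.subset (subset_tsupport u)⟩

theorem TF.adm {Ω : Set (E n)} {u : E n → ℝ} (hu : TF Ω u) : Adm u :=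
  adm_of_cont hu.1.continuous hu.2.1

theorem N2_nonneg (u : E n → ℝ) : 0 ≤ N2 u := integral_nonneg fun _ => sq_nonneg _

theorem Q_nonneg (u : E n → ℝ) : 0 ≤ Q u := integral_nonneg fun _ => sq_nonneg _

theorem int_Q {u : E n → ℝ} (h1 : ContDiff ℝ ∞ u) (h2 : HasCompactSupport u) :
    Integrable (fun x => ‖fderiv ℝ u x‖ ^ 2) := by
  refine Continuous.integrable_of_hasCompactSupport
    (((h1.continuous_fderiv (by simp)).norm).pow 2) ?_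
  exact ((h2.fderiv ℝ).norm).comp_left (g := fun t : ℝ => t ^ 2) (by simp)

theorem TF.N2_pos {Ω : Set (E n)} {u : E n → ℝ} (hu : TF Ω u) (h0 : u ≠ 0) : 0 < N2 u := by
  obtain ⟨x, hx⟩ := Function.ne_iff.1 h0
  exact integral_pos_of_integrable_nonneg_nonzero (x := x) (hu.1.continuous.pow 2) hu.adm.int_sq
    (fun _ => sq_nonneg _) (pow_ne_zero 2 hx)

theorem Bf_int {h : ℝ} (hh : 0 < h) {u : E n → ℝ} (hu : Adm u) :
    Integrable (fun p : E n × E n => Kr h (p.1 - p.2) * (u p.1 * u p.2)) := by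
  obtain ⟨B, hB⟩ := hu.2.1
  have := (pair_int2 (Kr_int hh) hu.integrable).bdd_mul (c := B)
    (f := fun p : E n × E n => u p.1) (hu.1.comp measurable_fst).aestronglyMeasurable
    (Eventually.of_forall fun p => hB p.1)
  exact this.congr (Eventually.of_forall fun p => by ring)

theorem Df_int {h : ℝ} (hh : 0 < h) {u : E n → ℝ} (hu : Adm u) :
    Integrable (fun p : E n × E n => Kr h (p.1 - p.2) * (u p.1 - u p.2) ^ 2) := by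
  have := ((pair_int1 (Kr_int hh) hu.int_sq).add (pair_int2 (Kr_int hh) hu.int_sq)).sub
    ((Bf_int hh hu).const_mul 2)
  exact this.congr (Eventually.of_forall fun p => by simp only [Pi.add_apply, Pi.sub_apply]; ring)

theorem Df_eq {h : ℝ} (hh : 0 < h) {u : E n → ℝ} (hu : Adm u) :
    Df h u = 2 * N2 u - 2 * Bf h u := by
  have h1 := pair_int1 (Kr_int hh) hu.int_sq
  have h2 := pair_int2 (Kr_int hh) hu.int_sq
  have h3 := (Bf_int hh hu).const_mul 2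
  have e : Df h u = ∫ p : E n × E n, (Kr h (p.1 - p.2) * u p.1 ^ 2 + Kr h (p.1 - p.2) * u p.2 ^ 2)
      - 2 * (Kr h (p.1 - p.2) * (u p.1 * u p.2)) :=
    integral_congr_ae (Eventually.of_forall fun p => by ring)
  have h4 : Integrable (fun p : E n × E n =>
      Kr h (p.1 - p.2) * u p.1 ^ 2 + Kr h (p.1 - p.2) * u p.2 ^ 2) := h1.add h2
  rw [e, integral_sub h4 h3, integral_add h1 h2, integral_const_mul,
    pair_integral1 (Kr_int hh) hu.int_sq, pair_integral2 (Kr_int hh) hu.int_sq, Kr_one hh]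
  simp only [N2, Bf]; ring

theorem Df_nonneg {h : ℝ} (hh : 0 < h) (u : E n → ℝ) : 0 ≤ Df h u :=
  integral_nonneg fun _ => mul_nonneg (Kr_pos hh _).le (sq_nonneg _)

theorem shear_int {F : E n × E n → ℝ} (hF : Integrable F) :
    Integrable (fun p : E n × E n => F (p.1 + p.2, p.2)) :=
  (measurePreserving_add_prod (volume : Measure (E n)) volume).integrable_comp_of_integrable hF

theorem shear_integral (F : E n × E n → ℝ) :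
    ∫ p : E n × E n, F (p.1 + p.2, p.2) = ∫ p, F p := by
  let e : E n × E n ≃ᵐ E n × E n :=
    { toFun := fun p => (p.1 + p.2, p.2)
      invFun := fun p => (p.1 - p.2, p.2)
      left_inv := fun p => by simp
      right_inv := fun p => by simp
      measurable_toFun := by simp only [Equiv.coe_fn_mk]; fun_prop
      measurable_invFun := by simp only [Equiv.coe_fn_symm_mk]; fun_prop }
  exact (measurePreserving_add_prod (volume : Measure (E n)) volume).integral_comp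
    e.measurableEmbedding F

theorem Df_shift_int {h : ℝ} (hh : 0 < h) {u : E n → ℝ} (hu : Adm u) :
    Integrable (fun p : E n × E n => Kr h p.1 * (u (p.1 + p.2) - u p.2) ^ 2) := by
  simpa using shear_int (Df_int hh hu)

theorem Df_shift {h : ℝ} (hh : 0 < h) {u : E n → ℝ} (hu : Adm u) :
    Df h u = ∫ z, Kr h z * N2 (fun y => u (z + y) - u y) := by
  rw [Df, ← shear_integral]
  simp only [add_sub_cancel_right]
  rw [Measure.volume_eq_prod, integral_prod _ (Df_shift_int hh hu)]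
  simp only [integral_const_mul, N2]

theorem Df_shift' {h : ℝ} (hh : 0 < h) {u : E n → ℝ} (hu : Adm u) :
    Df h u = ∫ y, ∫ z, Kr h z * (u (z + y) - u y) ^ 2 := by
  rw [Df, ← shear_integral]
  simp only [add_sub_cancel_right]
  rw [Measure.volume_eq_prod, integral_prod_symm _ (Df_shift_int hh hu)]

theorem Cvx.fat {Ω : Set (E n)} (h : Cvx Ω) : Fat Ω :=
  ⟨h.1.measurableSet, h.2.2.1, h.1.measure_pos _ h.2.2.2⟩

theorem core_convex {Ω : Set (E n)} (h : Convex ℝ Ω) (η : ℝ) : Convex ℝ (core Ω η) := by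
  intro x hx y hy a b ha hb hab z hz
  have e : z = a • (x + (z - (a • x + b • y))) + b • (y + (z - (a • x + b • y))) := by
    rw [smul_add, smul_add, add_add_add_comm, ← add_smul, hab, one_smul]; abel
  rw [e]
  rw [mem_ball, dist_eq_norm] at hz
  exact h (hx (by simpa [mem_ball, dist_eq_norm] using hz))
    (hy (by simpa [mem_ball, dist_eq_norm] using hz)) ha hb hab

theorem core_closed (Ω : Set (E n)) (η : ℝ) : IsClosed (core Ω η) := by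
  refine isClosed_of_closure_subset fun x hx y hy => ?_
  obtain ⟨z, hz, h⟩ := Metric.mem_closure_iff.1 hx (η - dist y x) (sub_pos.2 hy)
  refine hz ?_
  rw [mem_ball]
  linarith [dist_triangle y x z]

theorem core_subset (Ω : Set (E n)) {η : ℝ} (h : 0 < η) : core Ω η ⊆ Ω :=
  fun _ hx => hx (mem_ball_self h)

end

end Pool.Agent.MP_92c74b_an.Cv
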